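import Pool.Agent.Run7.h673.LT.Shell

/-! The sum of the inverse norms of the ideals of norm at most `M`. -/

set_option autoImplicit false

namespace Run7.h673.LT

open NumberField Finset Pool.Agent.TH847.LS Pool.Agent.TH847.LG NumberField.InfinitePlace
open scoped Classical nonZeroDivisors

theorem sqrt_step {x : ℝ} (hx : 0 < x) (k : ℕ) :
    (if x ≤ 2 ^ k then √(x / 2 ^ k) else 0) ≤
      4 * min 1 √(x / 2 ^ k) - 4 * min 1 √(x / 2 ^ (k + 1)) := by
  have e : x / 2 ^ (k + 1) = (x / 2 ^ k) * (1 / 2) := by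
    rw [pow_succ]
    field_simp
  have h0 : 0 < x / 2 ^ k := by positivity
  set s := √(x / 2 ^ k) with hs
  have hs0 : 0 < s := Real.sqrt_pos.mpr h0
  have h1 : √(x / 2 ^ (k + 1)) = s * √(1 / 2) := by rw [e, Real.sqrt_mul h0.le]
  have h2 : √(1 / 2 : ℝ) ≤ 3 / 4 := by
    rw [Real.sqrt_le_left (by norm_num)]
    norm_num
  have h20 : 0 ≤ √(1 / 2 : ℝ) := Real.sqrt_nonneg _
  rw [h1]
  split_ifs with h
  · have h3 : s ≤ 1 := by
      rw [hs, Real.sqrt_le_one]
      rw [div_le_one (by positivity)]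
      exact h
    rw [min_eq_right h3]
    have h4 : min 1 (s * √(1 / 2)) ≤ s * √(1 / 2) := min_le_right _ _
    nlinarith
  · have h3 : 1 ≤ s := by
      rw [hs, Real.one_le_sqrt, one_le_div (by positivity)]
      exact (not_le.mp h).le
    rw [min_eq_left h3]
    have h4 : min 1 (s * √(1 / 2)) ≤ 1 := min_le_left _ _
    linarith

theorem sqrt_sum {x : ℝ} (hx : 0 < x) (m : ℕ) :
    ∑ k ∈ range m, (if x ≤ 2 ^ k then √(x / 2 ^ k) else 0) ≤ 4 := by
  refine (Finset.sum_le_sum fun k _ => sqrt_step hx k).trans ?_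
  rw [Finset.sum_range_sub' (fun k => 4 * min 1 √(x / 2 ^ k))]
  have h1 : min 1 √(x / 2 ^ 0) ≤ 1 := min_le_left _ _
  have h2 : 0 ≤ min 1 √(x / 2 ^ m) := le_min (by norm_num) (Real.sqrt_nonneg _)
  linarith

theorem log_pow_four {n : ℕ} (hn : 1 ≤ n) {v : ℝ} (hv : 1 ≤ v) :
    (1 + 4 * Real.log v) ^ n ≤ (8 * n : ℝ) ^ n * √v := by
  have h0 : 0 ≤ Real.log v := Real.log_nonneg hv
  have h1 := log_pow_le hn hv
  calc (1 + 4 * Real.log v) ^ n ≤ (4 * (1 + Real.log v)) ^ n := by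
        refine pow_le_pow_left₀ (by linarith) (by linarith) n
    _ = 4 ^ n * (1 + Real.log v) ^ n := mul_pow _ _ _
    _ ≤ 4 ^ n * ((2 * n : ℝ) ^ n * √v) := by gcongr
    _ = _ := by
        rw [← mul_assoc, ← mul_pow]
        congr 2
        ring

variable {K : Type} [Field K] [NumberField K]

/-- the sum over the dyadic values -/
theorem sum_WW {n : ℕ} (hn : 1 ≤ n) (c m : ℕ) (hc : 1 ≤ c) :
    ∑ k ∈ range (m + 1), WW K n (c * 2 ^ k) / 2 ^ k ≤
      4 * (8 * n : ℝ) ^ n * c * SK K (c * 2 ^ m) := by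
  have hcr : (0 : ℝ) < c := by exact_mod_cast hc
  have h1 : ∀ k ∈ range (m + 1), WW K n (c * 2 ^ k) / 2 ^ k ≤
      ∑ J ∈ FI K (c * 2 ^ m), (8 * n : ℝ) ^ n * (c / Ideal.absNorm J) *
        (if (Ideal.absNorm J : ℝ) / c ≤ 2 ^ k then √((Ideal.absNorm J : ℝ) / c / 2 ^ k) else 0) := by
    intro k hk
    rw [mem_range] at hk
    have hsub : FI K (c * 2 ^ k) ⊆ FI K (c * 2 ^ m) := by
      intro J hJ
      rw [mem_FI] at hJ ⊢
      refine ⟨hJ.1.trans ?_, hJ.2⟩
      exact Nat.mul_le_mul_left _ (Nat.pow_le_pow_right (by norm_num) (by omega))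
    rw [WW, Finset.sum_div]
    refine le_trans ?_ (Finset.sum_le_sum_of_subset_of_nonneg hsub fun J _ _ => ?_)
    · refine Finset.sum_le_sum fun J hJ => ?_
      rw [mem_FI] at hJ
      have hJ0 : (0 : ℝ) < Ideal.absNorm J := by exact_mod_cast absNorm_pos hJ.2
      have hJ1 : (Ideal.absNorm J : ℝ) ≤ c * 2 ^ k := by exact_mod_cast hJ.1
      have hif : (Ideal.absNorm J : ℝ) / c ≤ 2 ^ k := by
        rw [div_le_iff₀ hcr]
        linarith
      rw [if_pos hif]
      push_cast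
      have hv : 1 ≤ (c * 2 ^ k : ℝ) / Ideal.absNorm J := by
        rw [le_div_iff₀ hJ0, one_mul]
        exact hJ1
      have h2 := log_pow_four hn hv
      set v := (c * 2 ^ k : ℝ) / Ideal.absNorm J with hvdef
      have hv0 : 0 < v := by linarith
      have h3 : (Ideal.absNorm J : ℝ) / c / 2 ^ k = v⁻¹ := by
        rw [hvdef, inv_div, div_div]
      rw [h3, Real.sqrt_inv]
      have h4 : (c : ℝ) / Ideal.absNorm J = v / 2 ^ k := by
        rw [hvdef]
        field_simp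
      rw [h4, div_le_iff₀ (by positivity)]
      refine h2.trans (le_of_eq ?_)
      have h5 : √v * √v = v := Real.mul_self_sqrt hv0.le
      have h6 : √v ≠ 0 := (Real.sqrt_pos.mpr hv0).ne'
      field_simp
      nlinarith
    · split_ifs
      · positivity
      · simp
  refine (Finset.sum_le_sum h1).trans ?_
  rw [Finset.sum_comm, SK, Finset.mul_sum]
  refine Finset.sum_le_sum fun J hJ => ?_
  rw [mem_FI] at hJ
  have hJ0 : (0 : ℝ) < Ideal.absNorm J := by exact_mod_cast absNorm_pos hJ.2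
  rw [← Finset.mul_sum]
  have h2 := sqrt_sum (x := (Ideal.absNorm J : ℝ) / c) (by positivity) (m + 1)
  calc (8 * n : ℝ) ^ n * (c / Ideal.absNorm J) * ∑ k ∈ range (m + 1),
        (if (Ideal.absNorm J : ℝ) / c ≤ 2 ^ k then √((Ideal.absNorm J : ℝ) / c / 2 ^ k) else 0)
      ≤ (8 * n : ℝ) ^ n * (c / Ideal.absNorm J) * 4 := by
        refine mul_le_mul_of_nonneg_left h2 ?_
        positivity
    _ = _ := by ring

theorem SK_mono {a b : ℕ} (h : a ≤ b) : SK K a ≤ SK K b := by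
  unfold SK
  refine Finset.sum_le_sum_of_subset_of_nonneg ?_ fun J _ _ => by positivity
  intro J hJ
  rw [mem_FI] at hJ ⊢
  exact ⟨hJ.1.trans h, hJ.2⟩

/-- the constant -/
noncomputable def An (n : ℕ) : ℝ := 16 * 196 ^ n * (8 * n : ℝ) ^ n * (2 * 6 ^ n)

theorem An_pos {n : ℕ} (hn : 1 ≤ n) : 0 < An n := by
  have : (0 : ℝ) < n := by exact_mod_cast hn
  unfold An
  positivity

/-- the number of ideals of norm between `X` and `2 X` compared with the sum of the inverse norms -/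
theorem shell_le {n : ℕ} (hn : Module.finrank ℚ K = n) {z : ℕ}
    (hz : (2 * 6 ^ n) ^ 2 * 4 ^ (n + 1) * |(discr K : ℝ)| ≤ z) {X : ℝ} (hX : (z : ℝ) ≤ X)
    (S : Finset (Ideal (𝓞 K)))
    (hS : ∀ I ∈ S, I ≠ ⊥ ∧ X < (Ideal.absNorm I : ℝ) ∧ (Ideal.absNorm I : ℝ) ≤ 2 * X) :
    (S.card : ℝ) * Real.log z ≤ An n * X * SK K z := by
  have hn0 : 0 < n := by rw [← hn]; exact (Module.finrank_pos (R := ℚ) (M := K))
  set c : ℕ := 2 * 6 ^ n with hc
  have hcr : (c : ℝ) = 2 * 6 ^ n := by rw [hc]; push_cast; ring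
  have hc1 : 1 ≤ c := by
    rw [hc]
    have : 0 < 6 ^ n := pow_pos (by norm_num) n
    omega
  have hc0 : (0 : ℝ) < c := by exact_mod_cast hc1
  have hD1 : (1 : ℝ) ≤ |(discr K : ℝ)| := by
    exact_mod_cast Int.one_le_abs (discr_ne_zero K)
  set D : ℝ := |(discr K : ℝ)| with hD
  have hsD : 1 ≤ √D := Real.one_le_sqrt.mpr hD1
  rw [← hcr] at hz
  have hz1 : (1 : ℝ) ≤ z := by
    refine le_trans ?_ hz
    have h1 : (1 : ℝ) ≤ c ^ 2 := one_le_pow₀ (by exact_mod_cast hc1)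
    have h2 : (1 : ℝ) ≤ 4 ^ (n + 1) := one_le_pow₀ (by norm_num)
    exact one_le_mul_of_one_le_of_one_le (one_le_mul_of_one_le_of_one_le h1 h2) hD1
  have hz0 : (0 : ℝ) < z := by linarith
  -- the least scale
  have hex : ∃ k : ℕ, 2 ^ n * √D < 2 ^ k := pow_unbounded_of_one_lt _ (by norm_num)
  set k1 := Nat.find hex with hk1
  have hk1a : 2 ^ n * √D < 2 ^ k1 := Nat.find_spec hex
  have hk1b : (2 : ℝ) ^ k1 ≤ 2 ^ (n + 1) * √D := by
    rcases Nat.eq_zero_or_pos k1 with h | h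
    · rw [h, pow_zero]
      have h2 : (1 : ℝ) ≤ 2 ^ (n + 1) := one_le_pow₀ (by norm_num)
      exact one_le_mul_of_one_le_of_one_le h2 hsD
    · obtain ⟨j, hj⟩ : ∃ j, k1 = j + 1 := ⟨k1 - 1, by omega⟩
      have h1 := Nat.find_min hex (m := j) (by omega)
      rw [not_lt] at h1
      rw [hj, pow_succ, pow_succ]
      linarith
  -- the largest scale
  set k2 := Nat.log 2 (z / c) with hk2
  have hcz : c ≤ z := by
    have h1 : (c : ℝ) ≤ z := by
      refine le_trans ?_ hz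
      have h1 : (c : ℝ) ≤ c ^ 2 := by
        have : (1 : ℝ) ≤ c := by exact_mod_cast hc1
        nlinarith
      have h2 : (1 : ℝ) ≤ 4 ^ (n + 1) := one_le_pow₀ (by norm_num)
      calc (c : ℝ) ≤ c ^ 2 := h1
        _ = c ^ 2 * 1 * 1 := by ring
        _ ≤ c ^ 2 * 4 ^ (n + 1) * D := by gcongr
    exact_mod_cast h1
  have hzc0 : z / c ≠ 0 := by
    rw [Nat.div_ne_zero_iff]
    exact ⟨by omega, hcz⟩
  have hk2a : 2 ^ k2 ≤ z / c := Nat.pow_log_le_self 2 hzc0
  have hk2b : z / c < 2 ^ (k2 + 1) := Nat.lt_pow_succ_log_self (by norm_num) _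
  have hk2c : c * 2 ^ k2 ≤ z := by
    calc c * 2 ^ k2 ≤ c * (z / c) := Nat.mul_le_mul_left _ hk2a
      _ ≤ z := Nat.mul_div_le z c
  have hk2d : (z : ℝ) < c * 2 ^ (k2 + 1) := by
    have h1 : z < c * 2 ^ (k2 + 1) := by
      rw [mul_comm]
      exact (Nat.div_lt_iff_lt_mul (by omega)).mp hk2b
    exact_mod_cast h1
  -- the number of scales
  have hsz : c * 2 ^ (n + 1) * √D ≤ √(z : ℝ) := by
    refine Real.le_sqrt_of_sq_le ?_
    have e : (c * 2 ^ (n + 1) * √D) ^ 2 = c ^ 2 * 4 ^ (n + 1) * D := by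
      rw [mul_pow, mul_pow, Real.sq_sqrt (by linarith), ← pow_mul, mul_comm (n + 1) 2, pow_mul]
      norm_num
    rw [e]
    exact hz
  have hszpos : 0 < √(z : ℝ) := Real.sqrt_pos.mpr hz0
  have hscale : √(z : ℝ) * 2 ^ k1 ≤ 2 ^ (k2 + 1) := by
    have h1 : √(z : ℝ) * √(z : ℝ) = z := Real.mul_self_sqrt hz0.le
    have h2 : c * (√(z : ℝ) * 2 ^ k1) ≤ c * 2 ^ (k2 + 1) := by
      calc c * (√(z : ℝ) * 2 ^ k1) ≤ c * (√(z : ℝ) * (2 ^ (n + 1) * √D)) := by gcongr
        _ = √(z : ℝ) * (c * 2 ^ (n + 1) * √D) := by ring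
        _ ≤ √(z : ℝ) * √(z : ℝ) := by gcongr
        _ = z := h1
        _ ≤ _ := hk2d.le
    exact le_of_mul_le_mul_left h2 hc0
  have hk12 : k1 ≤ k2 + 1 := by
    have h1 : (2 : ℝ) ^ k1 ≤ 2 ^ (k2 + 1) := by
      refine le_trans ?_ hscale
      have : 1 ≤ √(z : ℝ) := Real.one_le_sqrt.mpr hz1
      have h2 : (0 : ℝ) < 2 ^ k1 := by positivity
      nlinarith
    exact (pow_le_pow_iff_right₀ (by norm_num : (1 : ℝ) < 2)).mp h1
  have hnum : Real.log z / 2 ≤ ((k2 + 1 - k1 : ℕ) : ℝ) := by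
    have h1 := Real.log_le_log (by positivity) hscale
    rw [Real.log_mul hszpos.ne' (by positivity), Real.log_sqrt hz0.le, Real.log_pow,
      Real.log_pow] at h1
    rw [Nat.cast_sub hk12]
    have h2 : Real.log 2 ≤ 1 := by have := Real.log_two_lt_d9; linarith
    have h3 : 0 < Real.log 2 := Real.log_pos (by norm_num)
    have h4 : (0 : ℝ) ≤ ((k2 + 1 : ℕ) : ℝ) - k1 := by
      have : ((k1 : ℕ) : ℝ) ≤ ((k2 + 1 : ℕ) : ℝ) := by exact_mod_cast hk12
      linarith
    nlinarith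
  -- the sum
  have h1 : ∀ k ∈ Finset.Ico k1 (k2 + 1), (S.card : ℝ) ≤
      2 * 196 ^ n * X * (WW K n (c * 2 ^ k) / 2 ^ k) := by
    intro k hk
    rw [Finset.mem_Ico] at hk
    have h2 : (2 : ℝ) ^ k1 ≤ 2 ^ k := pow_le_pow_right₀ (by norm_num) hk.1
    have h3 := count_shell hn (2 ^ k) (by push_cast; linarith) (X := X) (by
      push_cast
      refine le_trans ?_ hX
      have h4 : 2 ^ k ≤ z := by
        calc 2 ^ k ≤ 2 ^ k2 := Nat.pow_le_pow_right (by norm_num) (by omega)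
          _ ≤ c * 2 ^ k2 := Nat.le_mul_of_pos_left _ hc1
          _ ≤ z := hk2c
      exact_mod_cast h4) S hS
    refine h3.trans (le_of_eq ?_)
    push_cast
    ring
  have h2 := Finset.sum_le_sum h1
  rw [Finset.sum_const, Nat.card_Ico, nsmul_eq_mul, ← Finset.mul_sum] at h2
  have hX0 : 0 < X := hz0.trans_le hX
  have h3 : ∑ k ∈ Finset.Ico k1 (k2 + 1), WW K n (c * 2 ^ k) / 2 ^ k ≤
      4 * (8 * n : ℝ) ^ n * c * SK K z := by
    calc ∑ k ∈ Finset.Ico k1 (k2 + 1), WW K n (c * 2 ^ k) / 2 ^ k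
        ≤ ∑ k ∈ range (k2 + 1), WW K n (c * 2 ^ k) / 2 ^ k := by
          refine Finset.sum_le_sum_of_subset_of_nonneg ?_ fun k _ _ => ?_
          · intro k hk
            rw [Finset.mem_Ico] at hk
            rw [mem_range]
            exact hk.2
          · unfold WW
            refine div_nonneg (Finset.sum_nonneg fun J hJ => ?_) (by positivity)
            rw [mem_FI] at hJ
            have hJ0 : (0 : ℝ) < Ideal.absNorm J := by exact_mod_cast absNorm_pos hJ.2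
            have : 0 ≤ Real.log (((c * 2 ^ k : ℕ) : ℝ) / Ideal.absNorm J) := by
              refine Real.log_nonneg ?_
              rw [le_div_iff₀ hJ0, one_mul]
              exact_mod_cast hJ.1
            positivity
      _ ≤ 4 * (8 * n : ℝ) ^ n * c * SK K (c * 2 ^ k2) := sum_WW hn0 c k2 hc1
      _ ≤ 4 * (8 * n : ℝ) ^ n * c * SK K z :=
          mul_le_mul_of_nonneg_left (SK_mono hk2c) (by positivity)
  have h4 : ((k2 + 1 - k1 : ℕ) : ℝ) * S.card ≤
      2 * 196 ^ n * X * (4 * (8 * n : ℝ) ^ n * c * SK K z) :=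
    h2.trans (mul_le_mul_of_nonneg_left h3 (by positivity))
  have h5 : Real.log z / 2 * S.card ≤ ((k2 + 1 - k1 : ℕ) : ℝ) * S.card :=
    mul_le_mul_of_nonneg_right hnum (Nat.cast_nonneg _)
  have h6 := h5.trans h4
  rw [An, ← hcr]
  nlinarith

/-- the growth of the sum of the inverse norms -/
theorem SK_growth {n : ℕ} (hn : Module.finrank ℚ K = n) {z M : ℕ} (hz2 : 2 ≤ z)
    (hz : (2 * 6 ^ n) ^ 2 * 4 ^ (n + 1) * |(discr K : ℝ)| ≤ z) (hM : z ≤ M) :
    SK K M * Real.log z ≤ (1 + 2 * An n) * Real.log M * SK K z := by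
  have hn0 : 0 < n := by rw [← hn]; exact (Module.finrank_pos (R := ℚ) (M := K))
  have hA := An_pos hn0
  have hzr : (2 : ℝ) ≤ z := by exact_mod_cast hz2
  have hz0 : (0 : ℝ) < z := by linarith
  have hMr : (z : ℝ) ≤ M := by exact_mod_cast hM
  have hlz : 0 < Real.log z := Real.log_pos (by linarith)
  have hlM : Real.log z ≤ Real.log M := Real.log_le_log hz0 hMr
  have hSK0 : 0 ≤ SK K z := by
    unfold SK
    exact Finset.sum_nonneg fun J _ => by positivity
  set J := Nat.log 2 (M / z) with hJ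
  have hMz0 : M / z ≠ 0 := by
    rw [Nat.div_ne_zero_iff]
    exact ⟨by omega, hM⟩
  have hJa : 2 ^ J ≤ M / z := Nat.pow_log_le_self 2 hMz0
  have hJb : M / z < 2 ^ (J + 1) := Nat.lt_pow_succ_log_self (by norm_num) _
  have hJc : z * 2 ^ J ≤ M := (Nat.mul_le_mul_left _ hJa).trans (Nat.mul_div_le M z)
  have hJd : M < z * 2 ^ (J + 1) := by
    rw [mul_comm]
    exact (Nat.div_lt_iff_lt_mul (by omega)).mp hJb
  have hJe : ((J + 1 : ℕ) : ℝ) ≤ 2 * Real.log M := by
    have h1 : (2 : ℝ) ^ (J + 1) ≤ M := by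
      have : 2 ^ (J + 1) ≤ M := by
        calc 2 ^ (J + 1) = 2 * 2 ^ J := by rw [pow_succ']
          _ ≤ z * 2 ^ J := Nat.mul_le_mul_right _ hz2
          _ ≤ M := hJc
      exact_mod_cast this
    have h2 := Real.log_le_log (by positivity) h1
    rw [Real.log_pow] at h2
    have h3 : 1 / 2 < Real.log 2 := by have := Real.log_two_gt_d9; linarith
    have h4 : (0 : ℝ) ≤ ((J + 1 : ℕ) : ℝ) := Nat.cast_nonneg _
    nlinarith
  have h1 : SK K M ≤ SK K z + ∑ j ∈ range (J + 1),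
      ∑ I ∈ (FI K M).filter (fun I => ((z * 2 ^ j : ℕ) : ℝ) < Ideal.absNorm I ∧
        (Ideal.absNorm I : ℝ) ≤ 2 * ((z * 2 ^ j : ℕ) : ℝ)), 1 / (Ideal.absNorm I : ℝ) := by
    have e1 : SK K z = ∑ I ∈ (FI K M).filter (fun I => Ideal.absNorm I ≤ z),
        1 / (Ideal.absNorm I : ℝ) := by
      unfold SK
      congr 1
      ext I
      rw [mem_filter, mem_FI, mem_FI]
      constructor
      · rintro ⟨a, b⟩
        exact ⟨⟨a.trans hM, b⟩, a⟩
      · rintro ⟨⟨_, b⟩, a⟩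
        exact ⟨a, b⟩
    rw [e1]
    simp only [Finset.sum_filter]
    rw [Finset.sum_comm, ← Finset.sum_add_distrib, SK]
    refine Finset.sum_le_sum fun I hI => ?_
    rw [mem_FI] at hI
    have hI0 := absNorm_pos hI.2
    have hpos : (0 : ℝ) ≤ 1 / (Ideal.absNorm I : ℝ) := by positivity
    have hnn : ∀ j ∈ range (J + 1), (0 : ℝ) ≤ if ((z * 2 ^ j : ℕ) : ℝ) < Ideal.absNorm I ∧
        (Ideal.absNorm I : ℝ) ≤ 2 * ((z * 2 ^ j : ℕ) : ℝ) then 1 / (Ideal.absNorm I : ℝ) else 0 := by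
      intro j _
      split_ifs
      · exact hpos
      · exact le_rfl
    by_cases h : Ideal.absNorm I ≤ z
    · rw [if_pos h]
      have := Finset.sum_nonneg hnn
      linarith
    · rw [if_neg h, zero_add]
      push Not at h
      -- find the scale
      have hex : ∃ j : ℕ, Ideal.absNorm I ≤ z * 2 ^ (j + 1) := ⟨J, hI.1.trans hJd.le⟩
      set j := Nat.find hex with hj
      have hj1 : Ideal.absNorm I ≤ z * 2 ^ (j + 1) := Nat.find_spec hex
      have hjJ : j ≤ J := Nat.find_min' hex (hI.1.trans hJd.le)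
      have hj2 : z * 2 ^ j < Ideal.absNorm I := by
        rcases Nat.eq_zero_or_pos j with h0 | h0
        · rw [h0, pow_zero, mul_one]
          exact h
        · have h3 := Nat.find_min hex (m := j - 1) (by omega)
          rw [not_le] at h3
          have e : j - 1 + 1 = j := by omega
          rw [e] at h3
          exact h3
      have hcond : ((z * 2 ^ j : ℕ) : ℝ) < Ideal.absNorm I ∧
          (Ideal.absNorm I : ℝ) ≤ 2 * ((z * 2 ^ j : ℕ) : ℝ) := by
        refine ⟨by exact_mod_cast hj2, ?_⟩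
        have : Ideal.absNorm I ≤ 2 * (z * 2 ^ j) := by
          rw [pow_succ] at hj1
          linarith
        exact_mod_cast this
      have h4 := Finset.single_le_sum hnn (mem_range.mpr (Nat.lt_succ_of_le hjJ))
      rw [if_pos hcond] at h4
      exact h4
  have h2 : ∀ j ∈ range (J + 1), (∑ I ∈ (FI K M).filter (fun I =>
      ((z * 2 ^ j : ℕ) : ℝ) < Ideal.absNorm I ∧
        (Ideal.absNorm I : ℝ) ≤ 2 * ((z * 2 ^ j : ℕ) : ℝ)), 1 / (Ideal.absNorm I : ℝ)) *
          Real.log z ≤ An n * SK K z := by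
    intro j _
    set X : ℝ := ((z * 2 ^ j : ℕ) : ℝ) with hX
    have hzX : (z : ℝ) ≤ X := by
      rw [hX]
      exact_mod_cast Nat.le_mul_of_pos_right _ (pow_pos (by norm_num) j)
    have hX0 : 0 < X := hz0.trans_le hzX
    have h3 := shell_le hn hz hzX ((FI K M).filter (fun I => X < Ideal.absNorm I ∧
        (Ideal.absNorm I : ℝ) ≤ 2 * X)) (by
      intro I hI
      rw [mem_filter, mem_FI] at hI
      exact ⟨hI.1.2, hI.2⟩)
    have h4 : ∑ I ∈ (FI K M).filter (fun I => X < Ideal.absNorm I ∧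
        (Ideal.absNorm I : ℝ) ≤ 2 * X), 1 / (Ideal.absNorm I : ℝ) ≤
        (((FI K M).filter (fun I => X < Ideal.absNorm I ∧
        (Ideal.absNorm I : ℝ) ≤ 2 * X)).card : ℝ) * (1 / X) := by
      rw [← nsmul_eq_mul]
      refine Finset.sum_le_card_nsmul _ _ _ fun I hI => ?_
      rw [mem_filter] at hI
      exact one_div_le_one_div_of_le hX0 hI.2.1.le
    calc _ ≤ ((((FI K M).filter (fun I => X < Ideal.absNorm I ∧
        (Ideal.absNorm I : ℝ) ≤ 2 * X)).card : ℝ) * (1 / X)) * Real.log z :=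
          mul_le_mul_of_nonneg_right h4 hlz.le
      _ = ((((FI K M).filter (fun I => X < Ideal.absNorm I ∧
        (Ideal.absNorm I : ℝ) ≤ 2 * X)).card : ℝ) * Real.log z) / X := by ring
      _ ≤ (An n * X * SK K z) / X := by gcongr
      _ = An n * SK K z := by field_simp
  calc SK K M * Real.log z ≤ (SK K z + ∑ j ∈ range (J + 1),
      ∑ I ∈ (FI K M).filter (fun I => ((z * 2 ^ j : ℕ) : ℝ) < Ideal.absNorm I ∧
        (Ideal.absNorm I : ℝ) ≤ 2 * ((z * 2 ^ j : ℕ) : ℝ)), 1 / (Ideal.absNorm I : ℝ)) *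
          Real.log z := mul_le_mul_of_nonneg_right h1 hlz.le
    _ = SK K z * Real.log z + ∑ j ∈ range (J + 1),
      (∑ I ∈ (FI K M).filter (fun I => ((z * 2 ^ j : ℕ) : ℝ) < Ideal.absNorm I ∧
        (Ideal.absNorm I : ℝ) ≤ 2 * ((z * 2 ^ j : ℕ) : ℝ)), 1 / (Ideal.absNorm I : ℝ)) *
          Real.log z := by rw [add_mul, Finset.sum_mul]
    _ ≤ SK K z * Real.log M + ∑ _j ∈ range (J + 1), An n * SK K z := by
        refine add_le_add (mul_le_mul_of_nonneg_left hlM hSK0) (Finset.sum_le_sum h2)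
    _ = SK K z * Real.log M + ((J + 1 : ℕ) : ℝ) * (An n * SK K z) := by
        rw [Finset.sum_const, Finset.card_range, nsmul_eq_mul]
    _ ≤ SK K z * Real.log M + (2 * Real.log M) * (An n * SK K z) := by
        have := mul_le_mul_of_nonneg_right hJe (mul_nonneg hA.le hSK0)
        linarith
    _ = _ := by ring

end Run7.h673.LT
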