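import Pool.Agent.Run7.h673.LT.Frob

/-! The trivial bound, with a power of the logarithm. -/

set_option autoImplicit false

namespace Run7.h673.LT

open NumberField Finset Pool.Agent.TH847.LS Pool.Agent.TH847.LG
open scoped Classical nonZeroDivisors Pointwise

theorem EE_le_log (n : ℕ) : ∃ C : ℝ, 0 < C ∧ ∀ (K : Type) [Field K] [NumberField K] (N : ℕ),
    3 ≤ N → EE K n N ≤ C * Real.log N ^ n := by
  obtain ⟨C, hC0, hC⟩ := Pool.Agent.Helper923.HMertens.mertens_ratio
  have hl2 : (0 : ℝ) < Real.log 2 := Real.log_pos (by norm_num)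
  refine ⟨Real.exp (n * (1 / 2 + C / Real.log 2 - Real.log (Real.log 2))), Real.exp_pos _, ?_⟩
  intro K _ _ N hN
  have hNr : (3 : ℝ) ≤ N := by exact_mod_cast hN
  have hlN : 0 < Real.log N := Real.log_pos (by linarith)
  have h1 : ∑ p ∈ TT K N, 1 / (p : ℝ) ≤
      1 / 2 + ∑ p ∈ (Finset.Ioc 2 N).filter Nat.Prime, (1 : ℝ) / p := by
    have hsub : TT K N ⊆ insert 2 ((Finset.Ioc 2 N).filter Nat.Prime) := by
      intro p hp
      rw [mem_TT] at hp
      rw [Finset.mem_insert, mem_filter, Finset.mem_Ioc]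
      have := hp.1.2.two_le
      rcases Nat.eq_or_lt_of_le this with h | h
      · left; exact h.symm
      · right; exact ⟨⟨h, hp.1.1⟩, hp.1.2⟩
    refine (Finset.sum_le_sum_of_subset_of_nonneg hsub fun p _ _ => by positivity).trans ?_
    rw [Finset.sum_insert (by simp)]
    norm_num
  have h2 := (abs_le.mp (hC 2 N le_rfl (by omega))).2
  have h3 : Real.log (Real.log N / Real.log ((2 : ℕ) : ℝ)) =
      Real.log (Real.log N) - Real.log (Real.log 2) := by
    rw [Nat.cast_ofNat, Real.log_div hlN.ne' hl2.ne']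
  rw [h3, Nat.cast_ofNat] at h2
  unfold EE
  have h4 : Real.log N ^ n = Real.exp (n * Real.log (Real.log N)) := by
    rw [Real.exp_nat_mul, Real.exp_log hlN]
  rw [h4, ← Real.exp_add]
  refine Real.exp_le_exp.mpr ?_
  have hn0 : (0 : ℝ) ≤ n := Nat.cast_nonneg _
  calc (n : ℝ) * ∑ p ∈ TT K N, 1 / (p : ℝ)
      ≤ n * (1 / 2 + C / Real.log 2 - Real.log (Real.log 2) + Real.log (Real.log N)) := by
        refine mul_le_mul_of_nonneg_left ?_ hn0
        linarith
    _ = _ := by ring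

theorem base (n : ℕ) (hn2 : 2 ≤ n) : ∃ C : ℝ, 0 < C ∧ ∀ (K : Type) [Field K] [NumberField K],
    Module.finrank ℚ K = n → ∃ N : ℕ, 2 ^ n * √|(discr K : ℝ)| < N ∧
      ∑ J ∈ FI K N, (1 + Real.log ((N : ℝ) / Ideal.absNorm J)) ^ n ≤
        C * √|(discr K : ℝ)| * Real.log |(discr K : ℝ)| ^ (n - 1) := by
  obtain ⟨C, hC0, hC⟩ := EE_le_log n
  obtain ⟨C1, hC10, hC1⟩ := dyadic
  refine ⟨(2 * n : ℝ) ^ n * (C1 * ((2 + 6 * n) * Real.exp (3 * n)) * 2 ^ (n + 1) * C) *
    (n + 2 : ℝ) ^ (n - 1), by positivity, ?_⟩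
  intro K _ _ hn
  set D := (discr K).natAbs with hD
  have hDK : |(discr K : ℝ)| = (D : ℝ) := by
    rw [hD, Nat.cast_natAbs]
    push_cast
    rfl
  have hD2 : 2 < D := by
    have := abs_discr_gt_two (K := K) (by rw [hn]; omega)
    rw [Int.abs_eq_natAbs] at this
    exact_mod_cast this
  have hDr : (2 : ℝ) < D := by exact_mod_cast hD2
  have hs1 : 1 ≤ √(D : ℝ) := by
    rw [Real.one_le_sqrt]; linarith
  rw [hDK]
  set X : ℝ := 2 ^ n * √(D : ℝ) with hX
  have h4 : (4 : ℝ) ≤ 2 ^ n := by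
    calc (4 : ℝ) = 2 ^ 2 := by norm_num
      _ ≤ 2 ^ n := pow_le_pow_right₀ (by norm_num) hn2
  have hX1 : 4 ≤ X := by nlinarith
  set N := ⌊X⌋₊ + 1 with hN
  have hN1 : X < N := by
    rw [hN]; push_cast; exact Nat.lt_floor_add_one _
  have hN2 : (N : ℝ) ≤ 2 ^ (n + 1) * √(D : ℝ) := by
    rw [hN]; push_cast
    have := Nat.floor_le (show 0 ≤ X by linarith)
    rw [pow_succ]
    nlinarith
  have hN3 : 3 ≤ N := by
    have : 4 ≤ ⌊X⌋₊ := Nat.le_floor (by exact_mod_cast hX1)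
    omega
  have hlD : 0 < Real.log D := Real.log_pos (by linarith)
  have hNr : (0 : ℝ) < N := by exact_mod_cast (by omega : 0 < N)
  have hlN : Real.log N ≤ (n + 2) * Real.log D := by
    have h1 := Real.log_le_log hNr hN2
    rw [Real.log_mul (by positivity) (by positivity), Real.log_pow,
      Real.log_sqrt (by linarith)] at h1
    have h2 : Real.log 2 ≤ Real.log D := Real.log_le_log (by norm_num) (by linarith)
    push_cast at h1
    have h3 : (0 : ℝ) ≤ n := by positivity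
    nlinarith
  have hlNpos : 0 < Real.log N := Real.log_pos (by
    have : (3 : ℝ) ≤ N := by exact_mod_cast hN3
    linarith)
  refine ⟨N, hN1, ?_⟩
  set W := ∑ J ∈ FI K N, (1 + Real.log ((N : ℝ) / Ideal.absNorm J)) ^ n with hW
  have hW1 : W ≤ (2 * n : ℝ) ^ n * ∑ J ∈ FI K N, √((N : ℝ) / Ideal.absNorm J) := by
    rw [hW, Finset.mul_sum]
    refine Finset.sum_le_sum fun J hJ => ?_
    rw [mem_FI] at hJ
    have h4 : (0 : ℝ) < Ideal.absNorm J := by exact_mod_cast absNorm_pos hJ.2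
    refine log_pow_le (by omega) ?_
    rw [le_div_iff₀ h4, one_mul]
    exact_mod_cast hJ.1
  have hE := hC K N hN3
  have hdy := hC1 K n hn N (by omega)
  have hW0 : 0 ≤ ∑ J ∈ FI K N, √((N : ℝ) / Ideal.absNorm J) :=
    Finset.sum_nonneg fun _ _ => Real.sqrt_nonneg _
  set S := ∑ J ∈ FI K N, √((N : ℝ) / Ideal.absNorm J) with hS
  set B : ℝ := C1 * ((2 + 6 * n) * Real.exp (3 * n)) with hB
  have hB0 : 0 < B := by positivity
  have h5 : S * Real.log N ≤ (B * N * C * Real.log N ^ (n - 1)) * Real.log N := by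
    have e : Real.log N ^ n = Real.log N ^ (n - 1) * Real.log N := by
      rw [← pow_succ]
      congr 1
      omega
    calc S * Real.log N ≤ S * (1 + Real.log N) := by
          refine mul_le_mul_of_nonneg_left (by linarith) hW0
      _ ≤ B * N * EE K n N := hdy
      _ ≤ B * N * (C * Real.log N ^ n) := by gcongr
      _ = _ := by rw [e]; ring
  have h6 : S ≤ B * N * C * Real.log N ^ (n - 1) := le_of_mul_le_mul_right h5 hlNpos
  calc W ≤ (2 * n : ℝ) ^ n * S := hW1
    _ ≤ (2 * n : ℝ) ^ n * (B * N * C * Real.log N ^ (n - 1)) := by gcongr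
    _ ≤ (2 * n : ℝ) ^ n * (B * (2 ^ (n + 1) * √(D : ℝ)) * C * ((n + 2) * Real.log D) ^ (n - 1)) := by
        gcongr
    _ = _ := by
        rw [mul_pow ((n : ℝ) + 2) (Real.log D) (n - 1)]
        ring

/-- many primes -/
theorem many_primes : ∃ z0 : ℕ, 2 ≤ z0 ∧ ∀ v z : ℕ, 2 ≤ v → z0 ≤ z →
    (z : ℝ) / 4 ≤ (((Finset.Ioc z (z ^ v)).filter Nat.Prime).card : ℝ) := by
  obtain ⟨C, hC0, hC⟩ := Pool.Agent.Helper923.HMertens.mertens_ratio
  refine ⟨max 2 ⌈Real.exp (4 * C)⌉₊, le_max_left _ _, ?_⟩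
  intro v z hv hz0
  have hz2 : 2 ≤ z := (le_max_left _ _).trans hz0
  have hzr : (2 : ℝ) ≤ z := by exact_mod_cast hz2
  have hzpos : (0 : ℝ) < z := by linarith
  have hlz : 0 < Real.log z := Real.log_pos (by linarith)
  have hzC : C / Real.log z ≤ 1 / 4 := by
    rw [div_le_iff₀ hlz]
    have h1 : Real.exp (4 * C) ≤ z := by
      refine (Nat.le_ceil _).trans ?_
      exact_mod_cast (le_max_right _ _).trans hz0
    have h2 := Real.log_le_log (Real.exp_pos _) h1
    rw [Real.log_exp] at h2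
    linarith
  have hzv : z ≤ z ^ v := Nat.le_self_pow (by omega) z
  have hm := hC z (z ^ v) hz2 hzv
  have hratio : Real.log ((z ^ v : ℕ) : ℝ) / Real.log z = v := by
    push_cast
    rw [Real.log_pow]
    field_simp
  rw [hratio] at hm
  have hm1 := (abs_le.mp hm).1
  have hv' : Real.log 2 ≤ Real.log v := Real.log_le_log (by norm_num) (by exact_mod_cast hv)
  have hl2 := Real.log_two_gt_d9
  have h1 : ∑ p ∈ (Finset.Ioc z (z ^ v)).filter Nat.Prime, (1 : ℝ) / p ≤
      (((Finset.Ioc z (z ^ v)).filter Nat.Prime).card : ℝ) * (1 / z) := by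
    rw [← nsmul_eq_mul]
    refine Finset.sum_le_card_nsmul _ _ _ fun p hp => ?_
    rw [mem_filter, Finset.mem_Ioc] at hp
    refine one_div_le_one_div_of_le hzpos ?_
    exact_mod_cast hp.1.1.le
  have h2 : (1 : ℝ) / 4 ≤ (((Finset.Ioc z (z ^ v)).filter Nat.Prime).card : ℝ) * (1 / z) := by
    linarith
  calc (z : ℝ) / 4 = (1 / 4) * z := by ring
    _ ≤ ((((Finset.Ioc z (z ^ v)).filter Nat.Prime).card : ℝ) * (1 / z)) * z := by gcongr
    _ = _ := by field_simp

end Run7.h673.LT
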