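import Pool.Agent.TH847.LG.Fin

/-! Lattice points in boxes, at different scales. -/

set_option autoImplicit false

namespace Run7.h673.LT

open NumberField Finset Pool.Agent.TH847.LS Pool.Agent.TH847.LG NumberField.InfinitePlace
open scoped Classical nonZeroDivisors

variable {K : Type} [Field K] [NumberField K]

theorem fin_box (I : Ideal (𝓞 K)) (t : ℝ) :
    {h : 𝓞 K | h ∈ I ∧ ∀ w : InfinitePlace K, w (h : K) ≤ t}.Finite := by
  have h1 := NumberField.Embeddings.finite_of_norm_le K ℂ t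
  refine Set.Finite.of_injOn (f := fun h : 𝓞 K => (h : K)) ?_ ?_ h1
  · rintro h ⟨_, hw⟩
    refine ⟨RingOfIntegers.isIntegral_coe h, fun φ => ?_⟩
    have := hw (InfinitePlace.mk φ)
    rw [InfinitePlace.apply] at this
    exact this
  · intro a _ b _ hab
    exact RingOfIntegers.ext hab

/-- the elements of an ideal all absolute values of which are at most `t` -/
noncomputable def Bx (I : Ideal (𝓞 K)) (t : ℝ) : Finset (𝓞 K) := (fin_box I t).toFinset

theorem mem_Bx {I : Ideal (𝓞 K)} {t : ℝ} {h : 𝓞 K} :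
    h ∈ Bx I t ↔ h ∈ I ∧ ∀ w : InfinitePlace K, w (h : K) ≤ t := by
  rw [Bx, Set.Finite.mem_toFinset]
  rfl

omit [NumberField K] in
theorem abs_re_le (w : InfinitePlace K) (h : K) : |(w.embedding h).re| ≤ w h := by
  rw [← InfinitePlace.norm_embedding_eq]
  exact Complex.abs_re_le_norm _

omit [NumberField K] in
theorem abs_im_le (w : InfinitePlace K) (h : K) : |(w.embedding h).im| ≤ w h := by
  rw [← InfinitePlace.norm_embedding_eq]
  exact Complex.abs_im_le_norm _

omit [NumberField K] in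
theorem im_real {w : InfinitePlace K} (hw : w.IsReal) (h : K) : (w.embedding h).im = 0 := by
  rw [InfinitePlace.isReal_iff] at hw
  have h1 := DFunLike.congr_fun hw h
  rw [ComplexEmbedding.conjugate_coe_eq] at h1
  exact Complex.conj_eq_iff_im.mp h1

theorem floor_mem {x s lam : ℝ} {M : ℕ} (hs : 0 < s) (hM : 2 * lam ≤ M)
    (hx : |x| ≤ lam * (2 * s)) : ⌊x / s⌋ ∈ Finset.Icc (-(M : ℤ)) M := by
  have h1 : |x / s| ≤ M := by
    rw [abs_div, abs_of_pos hs, div_le_iff₀ hs]
    nlinarith
  rw [abs_le] at h1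
  rw [Finset.mem_Icc]
  constructor
  · rw [Int.le_floor]
    push_cast
    exact h1.1
  · have := Int.floor_le (x / s)
    have h2 : (⌊x / s⌋ : ℝ) ≤ ((M : ℤ) : ℝ) := by
      push_cast
      linarith [h1.2]
    exact_mod_cast h2

theorem diff_lt {x y s : ℝ} (hs : 0 < s) (h : ⌊x / s⌋ = ⌊y / s⌋) : |x - y| < s := by
  have h1 := Int.abs_sub_lt_one_of_floor_eq_floor h
  rw [← sub_div, abs_div, abs_of_pos hs, div_lt_one hs] at h1
  exact h1

/-- the number of lattice points in a box and in a smaller box -/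
theorem box_scale {n : ℕ} (hn : Module.finrank ℚ K = n) (I : Ideal (𝓞 K)) {t lam : ℝ}
    (ht : 0 < t) (hlam : 1 ≤ lam) :
    ((Bx I (lam * t)).card : ℝ) ≤ (7 * lam) ^ n * ((Bx I t).card : ℝ) := by
  set M : ℕ := ⌈2 * lam⌉₊ with hM
  have hM1 : 2 * lam ≤ M := Nat.le_ceil _
  have hM2 : (M : ℝ) < 2 * lam + 1 := Nat.ceil_lt_add_one (by linarith)
  let c : 𝓞 K → InfinitePlace K → ℤ × ℤ := fun h w =>
    (⌊(w.embedding (h : K)).re / (t / 2)⌋, ⌊(w.embedding (h : K)).im / (t / 2)⌋)
  let T : Finset (InfinitePlace K → ℤ × ℤ) := Fintype.piFinset (fun w =>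
    (Finset.Icc (-(M : ℤ)) M) ×ˢ (if w.IsReal then {0} else Finset.Icc (-(M : ℤ)) M))
  have hcard : T.card = (2 * M + 1) ^ n := by
    change (Fintype.piFinset _).card = _
    rw [Fintype.card_piFinset]
    have h1 : ∀ w : InfinitePlace K, ((Finset.Icc (-(M : ℤ)) M) ×ˢ
        (if w.IsReal then ({0} : Finset ℤ) else Finset.Icc (-(M : ℤ)) M)).card =
        (2 * M + 1) ^ (mult w) := by
      intro w
      rw [Finset.card_product]
      have h2 : (Finset.Icc (-(M : ℤ)) M).card = 2 * M + 1 := by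
        rw [Int.card_Icc]
        omega
      rw [h2]
      by_cases hw : w.IsReal
      · rw [if_pos hw, Finset.card_singleton, mult, if_pos hw, mul_one, pow_one]
      · rw [if_neg hw, h2, mult, if_neg hw, sq]
    rw [Finset.prod_congr rfl fun w _ => h1 w, Finset.prod_pow_eq_pow_sum,
      InfinitePlace.sum_mult_eq, hn]
  have hmap : ∀ h ∈ Bx I (lam * t), c h ∈ T := by
    intro h hh
    rw [mem_Bx] at hh
    change c h ∈ Fintype.piFinset _
    rw [Fintype.mem_piFinset]
    intro w
    rw [Finset.mem_product]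
    have hw := hh.2 w
    constructor
    · exact floor_mem (by linarith) hM1 ((abs_re_le w _).trans (hw.trans (by linarith)))
    · by_cases hr : w.IsReal
      · rw [if_pos hr, Finset.mem_singleton]
        change ⌊(w.embedding (h : K)).im / (t / 2)⌋ = 0
        rw [im_real hr, zero_div, Int.floor_zero]
      · rw [if_neg hr]
        exact floor_mem (by linarith) hM1 ((abs_im_le w _).trans (hw.trans (by linarith)))
  have hfib : ∀ f ∈ T, ((Bx I (lam * t)).filter (fun h => c h = f)).card ≤ (Bx I t).card := by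
    intro f _
    by_cases hne : ((Bx I (lam * t)).filter (fun h => c h = f)).Nonempty
    · obtain ⟨h0, hh0⟩ := hne
      rw [mem_filter, mem_Bx] at hh0
      refine Finset.card_le_card_of_injOn (fun h => h - h0) ?_ ?_
      · intro h hh
        rw [Finset.mem_coe, mem_filter, mem_Bx] at hh
        rw [Finset.mem_coe, mem_Bx]
        refine ⟨I.sub_mem hh.1.1 hh0.1.1, fun w => ?_⟩
        have e : c h w = c h0 w := by rw [hh.2, hh0.2]
        have e1 := diff_lt (by linarith : 0 < t / 2) (congrArg Prod.fst e)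
        have e2 := diff_lt (by linarith : 0 < t / 2) (congrArg Prod.snd e)
        rw [← InfinitePlace.norm_embedding_eq]
        have e3 := Complex.norm_le_abs_re_add_abs_im (w.embedding ((h - h0 : 𝓞 K) : K))
        have e4 : w.embedding ((h - h0 : 𝓞 K) : K) =
            w.embedding (h : K) - w.embedding (h0 : K) := by
          push_cast
          rw [map_sub]
        rw [e4] at e3 ⊢
        rw [Complex.sub_re, Complex.sub_im] at e3
        linarith
      · intro a _ b _ hab
        exact sub_left_injective hab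
    · rw [Finset.not_nonempty_iff_eq_empty] at hne
      rw [hne]
      exact Nat.zero_le _
  have h1 := Finset.card_le_mul_card_image_of_maps_to hmap (Bx I t).card hfib
  rw [hcard] at h1
  have h2 : ((Bx I (lam * t)).card : ℝ) ≤ (Bx I t).card * ((2 * M + 1 : ℕ) : ℝ) ^ n := by
    exact_mod_cast h1
  refine h2.trans ?_
  rw [mul_comm]
  refine mul_le_mul_of_nonneg_right ?_ (Nat.cast_nonneg _)
  refine pow_le_pow_left₀ (by positivity) ?_ n
  push_cast
  linarith

theorem one_le_norm_int {h : 𝓞 K} (h0 : h ≠ 0) : 1 ≤ |((Algebra.norm ℚ (h : K) : ℚ) : ℝ)| := by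
  rw [← Algebra.coe_norm_int]
  have h1 : Algebra.norm ℤ h ≠ 0 := Algebra.norm_ne_zero_iff.mpr h0
  have h2 : (1 : ℤ) ≤ |Algebra.norm ℤ h| := Int.one_le_abs h1
  have h3 : |(((Algebra.norm ℤ h : ℤ) : ℚ) : ℝ)| = ((|Algebra.norm ℤ h| : ℤ) : ℝ) := by
    push_cast
    rfl
  rw [h3]
  exact_mod_cast h2

/-- there are few small units -/
theorem box_two {n : ℕ} (hn : Module.finrank ℚ K = n) :
    ((Bx (⊤ : Ideal (𝓞 K)) 2).card : ℝ) ≤ 28 ^ n := by
  have h1 := box_scale hn (⊤ : Ideal (𝓞 K)) (t := 1 / 2) (lam := 4) (by norm_num) (by norm_num)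
  have e : (4 : ℝ) * (1 / 2) = 2 := by norm_num
  rw [e] at h1
  have h2 : Bx (⊤ : Ideal (𝓞 K)) (1 / 2) ⊆ {0} := by
    intro h hh
    rw [mem_Bx] at hh
    rw [Finset.mem_singleton]
    by_contra h0
    have h3 := one_le_norm_int h0
    have h4 : |((Algebra.norm ℚ (h : K) : ℚ) : ℝ)| = ∏ w : InfinitePlace K, w (h : K) ^ mult w := by
      rw [InfinitePlace.prod_eq_abs_norm]
      push_cast
      rfl
    rw [h4] at h3
    have h5 : ∏ w : InfinitePlace K, w (h : K) ^ mult w < 1 := by
      obtain ⟨w0⟩ : Nonempty (InfinitePlace K) := inferInstance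
      have h6 : ∀ w : InfinitePlace K, w (h : K) ^ mult w ≤ 1 / 2 := by
        intro w
        have h7 := hh.2 w
        have h8 : 0 ≤ w (h : K) := apply_nonneg _ _
        calc w (h : K) ^ mult w ≤ (1 / 2 : ℝ) ^ mult w := by gcongr
          _ ≤ (1 / 2 : ℝ) ^ 1 := pow_le_pow_of_le_one (by norm_num) (by norm_num)
              (Nat.succ_le_of_lt InfinitePlace.mult_pos)
          _ = 1 / 2 := pow_one _
      rw [← Finset.mul_prod_erase _ _ (Finset.mem_univ w0)]
      have h9 : ∏ w ∈ Finset.univ.erase w0, w (h : K) ^ mult w ≤ 1 :=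
        Finset.prod_le_one (fun w _ => pow_nonneg (apply_nonneg _ _) _)
          fun w _ => (h6 w).trans (by norm_num)
      have h10 : 0 ≤ ∏ w ∈ Finset.univ.erase w0, w (h : K) ^ mult w :=
        Finset.prod_nonneg fun w _ => pow_nonneg (apply_nonneg _ _) _
      have h11 := h6 w0
      nlinarith [pow_nonneg (apply_nonneg w0 (h : K)) (mult w0)]
    linarith
  have h3 : ((Bx (⊤ : Ideal (𝓞 K)) (1 / 2)).card : ℝ) ≤ 1 := by
    have := Finset.card_le_card h2
    rw [Finset.card_singleton] at this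
    exact_mod_cast this
  calc ((Bx (⊤ : Ideal (𝓞 K)) 2).card : ℝ) ≤ (7 * 4) ^ n * ((Bx (⊤ : Ideal (𝓞 K)) (1 / 2)).card : ℝ) :=
        h1
    _ ≤ (7 * 4) ^ n * 1 := by gcongr
    _ = 28 ^ n := by norm_num

end Run7.h673.LT
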