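import Pool.Agent.Run7.h673.LT.Pig

/-! Many small primes with a factor of degree one in a large subfield. -/

set_option autoImplicit false

namespace Run7.h673.LT

open NumberField Finset Pool.Agent.TH847.LS Pool.Agent.TH847.LG IntermediateField
open scoped Classical nonZeroDivisors Pointwise

theorem exists_sub {E L : Type} [Field E] [NumberField E] [Field L] [NumberField L] [Algebra E L]
    [IsGalois ℚ L] {N0 : Subgroup Gal(L/ℚ)} {p : ℕ} (hp : p.Prime) {Q0 : Ideal (𝓞 L)}
    {σ0 : Gal(L/ℚ)} (hQ0 : Q0.IsPrime) (hpQ0 : ((p : ℕ) : 𝓞 L) ∈ Q0)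
    (h : ∀ x : 𝓞 L, σ0 • x - x ^ p ∈ Q0) (hbad : σ0 ∉ Bad (fix E L) N0) :
    ∃ U : Subgroup Gal(L/ℚ), fix E L ≤ U ∧ ¬ N0 ≤ U ∧
      ∃ P : Ideal (𝓞 (fixedField U)), Ideal.absNorm P = p := by
  unfold Bad at hbad
  rw [Set.mem_ofPred_eq] at hbad
  push Not at hbad
  obtain ⟨U, hU, ⟨τ, hτ⟩, hN0⟩ := hbad
  exact ⟨U, hU, hN0, exists_deg_one hp hQ0 hpQ0 h τ U hτ⟩

theorem card_filter_dvd (G : Finset ℕ) (hG : ∀ p ∈ G, p.Prime) {D : ℕ} (hD : D ≠ 0) :
    (G.card : ℝ) ≤ ((G.filter (fun p => ¬ p ∣ D)).card : ℝ) + 2 * Real.log D := by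
  have h1 : G.card ≤ (G.filter (fun p => ¬ p ∣ D)).card + D.primeFactors.card := by
    have h2 := Finset.card_filter_add_card_filter_not (s := G) (fun p => p ∣ D)
    have h3 : (G.filter (fun p => p ∣ D)).card ≤ D.primeFactors.card := by
      refine Finset.card_le_card fun p hp => ?_
      rw [mem_filter] at hp
      rw [Nat.mem_primeFactors]
      exact ⟨hG p hp.1, hp.2, hD⟩
    omega
  have h2 := card_primeFactors_le hD
  have h3 : (G.card : ℝ) ≤ ((G.filter (fun p => ¬ p ∣ D)).card : ℝ) + (D.primeFactors.card : ℝ) := by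
    exact_mod_cast h1
  linarith

theorem core_set (N : ℕ) : ∃ v z0 : ℕ, 2 ≤ v ∧ 2 ≤ z0 ∧
    ∀ (E L : Type) [Field E] [NumberField E] [Field L] [NumberField L] [Algebra E L]
      [IsGalois ℚ L], Module.finrank ℚ L = N → Good (fix E L) →
    ∀ N0 : Subgroup Gal(L/ℚ), N0.Normal → ¬ N0 ≤ fix E L → ∀ z : ℕ, z0 ≤ z →
    (2 * 6 ^ N) ^ 2 * 4 ^ (N + 1) * |(discr (fixedField N0) : ℝ)| ≤ z →
    ∃ G0 : Finset ℕ, (z : ℝ) / 4 ≤ G0.card + 2 * Real.log |(discr E : ℝ)| +
        2 * Real.log |(discr (fixedField N0) : ℝ)| ∧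
      ∀ p ∈ G0, z < p ∧ p ≤ z ^ v ∧ p.Prime ∧ ¬ p ∣ (discr E).natAbs ∧
        ∃ U : Subgroup Gal(L/ℚ), fix E L ≤ U ∧ ¬ N0 ≤ U ∧
          ∃ P : Ideal (𝓞 (fixedField U)), Ideal.absNorm P = p := by
  choose vf zf hvf hzf hf using fun (r : ℕ) (hr : 2 ≤ r) => many_nonsplit r hr
  obtain ⟨z1, hz1, hprimes⟩ := many_primes
  let vg : ℕ → ℕ := fun r => if hr : 2 ≤ r then vf r hr else 0
  let zg : ℕ → ℕ := fun r => if hr : 2 ≤ r then zf r hr else 0
  refine ⟨2 + ∑ r ∈ range (N + 1), vg r, z1 + ∑ r ∈ range (N + 1), zg r, by omega, by omega, ?_⟩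
  set v := 2 + ∑ r ∈ range (N + 1), vg r with hv
  intro E L _ _ _ _ _ _ hN hgood N0 hN0 hN0E z hz hzD
  have habs : ∀ (A : Type) [Field A] [NumberField A], |(discr A : ℝ)| = ((discr A).natAbs : ℝ) := by
    intro A _ _
    rw [Nat.cast_natAbs]
    push_cast
    rfl
  have hne : ∀ (A : Type) [Field A] [NumberField A], (discr A).natAbs ≠ 0 := by
    intro A _ _
    exact Int.natAbs_ne_zero.mpr (discr_ne_zero A)
  have hz2 : 2 ≤ z := by omega
  have hlog0 : 0 ≤ Real.log |(discr (fixedField N0) : ℝ)| := by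
    rw [habs]
    exact Real.log_natCast_nonneg _
  have hlogE0 : 0 ≤ Real.log |(discr E : ℝ)| := by
    rw [habs]
    exact Real.log_natCast_nonneg _
  rcases hgood N0 hN0 hN0E with hbad | hW
  · -- no bad elements
    have h1 := hprimes v z (by omega) (by omega)
    set G1 := (Finset.Ioc z (z ^ v)).filter Nat.Prime with hG1
    refine ⟨G1.filter (fun p => ¬ p ∣ (discr E).natAbs), ?_, ?_⟩
    · have h2 := card_filter_dvd G1 (fun p hp => (mem_filter.mp hp).2) (hne E)
      rw [← habs] at h2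
      linarith
    · intro p hp
      rw [mem_filter, hG1, mem_filter, Finset.mem_Ioc] at hp
      obtain ⟨⟨⟨hp1, hp2⟩, hp3⟩, hp4⟩ := hp
      refine ⟨hp1, hp2, hp3, hp4, ?_⟩
      obtain ⟨Q0, σ0, hQ0, hpQ0, hfr, -⟩ := exists_frob (L := L) hp3
      exact exists_sub hp3 hQ0 hpQ0 hfr (by rw [hbad]; exact Set.notMem_empty _)
  · set W := Subgroup.closure (Bad (fix E L) N0 ∪ (N0 : Set Gal(L/ℚ))) with hWdef
    have hWn : W.Normal := bad_normal (fix E L) hN0
    have hN0W : N0 ≤ W := by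
      intro x hx
      exact Subgroup.subset_closure (Or.inr hx)
    -- the degree
    obtain ⟨r, hr⟩ : ∃ r, Module.finrank ℚ (fixedField W) = r := ⟨_, rfl⟩
    have hmul : r * Nat.card W = N := by
      rw [← hr, ← IntermediateField.finrank_fixedField_eq_card W, ← hN]
      exact Module.finrank_mul_finrank ℚ (fixedField W) L
    have hcardW : 0 < Nat.card W := Nat.card_pos
    have hcardG : Nat.card Gal(L/ℚ) = N := by rw [IsGalois.card_aut_eq_finrank, hN]
    have hr0 : 0 < r := by rw [← hr]; exact Module.finrank_pos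
    have hr2 : 2 ≤ r := by
      by_contra hcon
      have hr1 : r = 1 := by omega
      rw [hr1, one_mul] at hmul
      apply hW
      exact Subgroup.eq_top_of_card_eq W (by rw [hmul, hcardG])
    have hrN : r ≤ N := by
      rw [← hmul]
      exact Nat.le_mul_of_pos_right _ hcardW
    -- the discriminant
    have hdF : (discr (fixedField W)).natAbs ≤ (discr (fixedField N0)).natAbs := by
      have hle : fixedField W ≤ fixedField N0 := by
        intro x hx
        rw [IntermediateField.mem_fixedField_iff] at hx ⊢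
        exact fun g hg => hx g (hN0W hg)
      have h1 : discr (fixedField W) ∣ discr (fixedField N0) :=
        discr_le_of_hom (IntermediateField.inclusion hle).toRingHom
      exact Nat.le_of_dvd (Nat.pos_of_ne_zero (hne _)) (Int.natAbs_dvd_natAbs.mpr h1)
    have hdFr : |(discr (fixedField W) : ℝ)| ≤ |(discr (fixedField N0) : ℝ)| := by
      rw [habs, habs]
      exact_mod_cast hdF
    have hvr : vf r hr2 ≤ v := by
      have h1 : vg r ≤ ∑ r ∈ range (N + 1), vg r :=
        Finset.single_le_sum (fun _ _ => Nat.zero_le _) (mem_range.mpr (by omega))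
      have h2 : vg r = vf r hr2 := dif_pos hr2
      omega
    have hzr : zf r hr2 ≤ z := by
      have h1 : zg r ≤ ∑ r ∈ range (N + 1), zg r :=
        Finset.single_le_sum (fun _ _ => Nat.zero_le _) (mem_range.mpr (by omega))
      have h2 : zg r = zf r hr2 := dif_pos hr2
      omega
    have hcond : (2 * 6 ^ r) ^ 2 * 4 ^ (r + 1) * |(discr (fixedField W) : ℝ)| ≤ z := by
      refine le_trans ?_ hzD
      have h1 : (6 : ℝ) ^ r ≤ 6 ^ N := pow_le_pow_right₀ (by norm_num) hrN
      have h2 : (4 : ℝ) ^ (r + 1) ≤ 4 ^ (N + 1) := pow_le_pow_right₀ (by norm_num) (by omega)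
      gcongr
    have h1 := hf r hr2 (fixedField W) hr z hzr hcond
    set G1 := (Finset.Ioc z (z ^ (vf r hr2))).filter
      (fun p => p.Prime ∧ nu (fixedField W) p < r) with hG1
    refine ⟨(G1.filter (fun p => ¬ p ∣ (discr E).natAbs)).filter
      (fun p => ¬ p ∣ (discr (fixedField W)).natAbs), ?_, ?_⟩
    · have h2 := card_filter_dvd G1 (fun p hp => (mem_filter.mp hp).2.1) (hne E)
      have h3 := card_filter_dvd (G1.filter (fun p => ¬ p ∣ (discr E).natAbs))
        (fun p hp => (mem_filter.mp (mem_filter.mp hp).1).2.1) (hne (fixedField W))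
      rw [← habs] at h2 h3
      have h4 : Real.log |(discr (fixedField W) : ℝ)| ≤ Real.log |(discr (fixedField N0) : ℝ)| := by
        refine Real.log_le_log ?_ hdFr
        rw [abs_pos]
        exact_mod_cast discr_ne_zero _
      linarith
    · intro p hp
      rw [mem_filter, mem_filter, hG1, mem_filter, Finset.mem_Ioc] at hp
      obtain ⟨⟨⟨⟨hp1, hp2⟩, hp3, hpnu⟩, hp4⟩, hp5⟩ := hp
      refine ⟨hp1, hp2.trans (Nat.pow_le_pow_right (by omega) hvr), hp3, hp4, ?_⟩
      obtain ⟨Q0, σ0, hQ0, hpQ0, hfr, hall⟩ := exists_frob (L := L) hp3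
      refine exists_sub hp3 hQ0 hpQ0 hfr fun hb => ?_
      have h2 : σ0 ∈ W := Subgroup.subset_closure (Or.inl hb)
      have h3 := nu_of_frob hp3 hfr hall W hWn h2 hr hp5
      omega

end Run7.h673.LT
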