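import Mathlib

/-! The group theoretic condition. -/

set_option autoImplicit false

namespace Run7.h673.LT

/-- the elements `σ` of a group such that every subgroup which contains `H` and a conjugate of `σ`
contains `N` -/
def Bad {G : Type} [Group G] (H N : Subgroup G) : Set G :=
  {σ | ∀ U : Subgroup G, H ≤ U → (∃ τ : G, τ * σ * τ⁻¹ ∈ U) → N ≤ U}

/-- for every normal subgroup `N` not contained in `H`: there are no elements `σ` as in `Bad H N`,
or these elements and `N` do not generate the group -/
def Good {G : Type} [Group G] (H : Subgroup G) : Prop :=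
  ∀ N : Subgroup G, N.Normal → ¬ N ≤ H →
    Bad H N = ∅ ∨ Subgroup.closure (Bad H N ∪ (N : Set G)) ≠ ⊤

theorem bad_conj {G : Type} [Group G] {H N : Subgroup G} {σ : G} (h : σ ∈ Bad H N) (g : G) :
    g * σ * g⁻¹ ∈ Bad H N := by
  intro U hU hτ
  obtain ⟨τ, hτ⟩ := hτ
  refine h U hU ⟨τ * g, ?_⟩
  have e : τ * g * σ * (τ * g)⁻¹ = τ * (g * σ * g⁻¹) * τ⁻¹ := by group
  rw [e]
  exact hτ

theorem closure_normal {G : Type} [Group G] {s : Set G}
    (h : ∀ x ∈ s, ∀ g : G, g * x * g⁻¹ ∈ s) : (Subgroup.closure s).Normal := by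
  constructor
  intro n hn g
  induction hn using Subgroup.closure_induction with
  | mem x hx => exact Subgroup.subset_closure (h x hx g)
  | one => simp
  | mul x y _ _ hx hy =>
    have e : g * (x * y) * g⁻¹ = (g * x * g⁻¹) * (g * y * g⁻¹) := by group
    rw [e]
    exact mul_mem hx hy
  | inv x _ hx =>
    have e : g * x⁻¹ * g⁻¹ = (g * x * g⁻¹)⁻¹ := by group
    rw [e]
    exact inv_mem hx

theorem bad_normal {G : Type} [Group G] (H : Subgroup G) {N : Subgroup G} (hN : N.Normal) :
    (Subgroup.closure (Bad H N ∪ (N : Set G))).Normal := by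
  refine closure_normal fun x hx g => ?_
  rcases hx with hx | hx
  · left; exact bad_conj hx g
  · right; exact hN.conj_mem x hx g

/-- a group with trivial centre and the trivial subgroup -/
theorem good_of_center {G : Type} [Group G] (h : Subgroup.center G = ⊥) :
    Good (⊥ : Subgroup G) := by
  intro N hN hN1
  by_cases hbad : Bad (⊥ : Subgroup G) N = ∅
  · left; exact hbad
  · right
    -- `N` is cyclic and not central
    obtain ⟨σ, hσ⟩ := Set.nonempty_iff_ne_empty.mpr hbad
    have hcyc : ∀ τ ∈ Bad (⊥ : Subgroup G) N, N ≤ Subgroup.zpowers τ := by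
      intro τ hτ
      exact hτ (Subgroup.zpowers τ) bot_le ⟨1, by simp⟩
    -- all elements commute with `N`
    intro htop
    apply hN1
    have hcomm : ∀ x ∈ N, ∀ y ∈ N, x * y = y * x := by
      intro x hx y hy
      obtain ⟨a, ha⟩ := Subgroup.mem_zpowers_iff.mp (hcyc σ hσ hx)
      obtain ⟨b, hb⟩ := Subgroup.mem_zpowers_iff.mp (hcyc σ hσ hy)
      rw [← ha, ← hb, ← zpow_add, ← zpow_add, add_comm]
    have h1 : Subgroup.closure (Bad (⊥ : Subgroup G) N ∪ (N : Set G)) ≤
        Subgroup.centralizer (N : Set G) := by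
      rw [Subgroup.closure_le]
      rintro x (hx | hx)
      · rw [SetLike.mem_coe, Subgroup.mem_centralizer_iff]
        intro y hy
        obtain ⟨a, ha⟩ := Subgroup.mem_zpowers_iff.mp (hcyc x hx hy)
        rw [← ha]
        exact (Commute.self_zpow x a).symm
      · rw [SetLike.mem_coe, Subgroup.mem_centralizer_iff]
        intro y hy
        exact hcomm y hy x hx
    rw [htop] at h1
    intro x hx
    rw [← h, Subgroup.mem_center_iff]
    intro g
    have h2 := h1 (Subgroup.mem_top g)
    rw [Subgroup.mem_centralizer_iff] at h2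
    exact (h2 x hx).symm

end Run7.h673.LT
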