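import Pool.Agent.TH847.LG.Fin

/-! The small primes of a subfield and torsion classes. -/

set_option autoImplicit false

namespace Run7.h673.LT

open NumberField Finset Pool.Agent.TH847.LS Pool.Agent.TH847.LG NumberField.InfinitePlace
  IntermediateField
open scoped Classical nonZeroDivisors

variable {M K : Type} [Field M] [NumberField M] [Field K] [NumberField K] [Algebra M K]

/-- a relative norm is small at all infinite places if the element is -/
theorem norm_place_le (z : K) {B : ℝ} (hw : ∀ w : InfinitePlace K, w z ≤ B)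
    (v : InfinitePlace M) : v (Algebra.norm M z) ≤ B ^ Module.finrank M K := by
  obtain ⟨τ, rfl⟩ : ∃ τ : M →+* ℂ, v = InfinitePlace.mk τ := ⟨v.embedding, v.mk_embedding.symm⟩
  let _ : Algebra M ℂ := τ.toAlgebra
  have h1 : τ (Algebra.norm M z) = ∏ σ : K →ₐ[M] ℂ, σ z := by
    have := Algebra.norm_eq_prod_embeddings M ℂ z
    exact this
  rw [InfinitePlace.apply, h1, norm_prod]
  have hcard : Fintype.card (K →ₐ[M] ℂ) = Module.finrank M K := AlgHom.card M K ℂ
  calc ∏ σ : K →ₐ[M] ℂ, ‖σ z‖ ≤ ∏ _σ : K →ₐ[M] ℂ, B := by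
        refine Finset.prod_le_prod (fun _ _ => norm_nonneg _) fun σ _ => ?_
        have := hw (InfinitePlace.mk (σ : K →+* ℂ))
        rw [InfinitePlace.apply] at this
        exact this
    _ = B ^ Module.finrank M K := by
        rw [Finset.prod_const, Finset.card_univ, hcard]

theorem finrank_int : Module.finrank (𝓞 M) (𝓞 K) = Module.finrank M K :=
  (IsFractionRing.finrank_eq (𝓞 M) M (𝓞 K) K).symm

/-- the primes of a subfield with norm `p`, for all `p` in a set `G`, where a generator of the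
subfield is large at a place compared with all `p` in `G`: the small-prime inequality -/
theorem evSub {n : ℕ} (hn : Module.finrank ℚ K = n) {l : ℕ} (hl : 1 ≤ l) (N : ℕ)
    (hN : 2 ^ n * √|(discr K : ℝ)| < N) (G : Finset ℕ)
    (P : ℕ → Ideal (𝓞 M))
    (hG : ∀ p ∈ G, p.Prime ∧ Ideal.absNorm (P p) = p ∧ ¬ p ∣ (discr M).natAbs)
    (hgood : ∀ p ∈ G, ∀ β : 𝓞 M, ℚ⟮(β : M)⟯ = ⊤ → ∃ v : InfinitePlace M,
      (150 * p : ℝ) ^ (l * Module.finrank M K) < v (β : M)) :
    (G.card : ℝ) * (Nat.card {c : ClassGroup (𝓞 K) // c ^ l = 1} : ℝ) ≤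
      ∑ J ∈ FI K N, (1 + Real.log ((N : ℝ) / Ideal.absNorm J)) ^ n := by
  have hn0 : 0 < n := by rw [← hn]; exact (Module.finrank_pos (R := ℚ) (M := K))
  have hnr : (0 : ℝ) < n := by exact_mod_cast hn0
  have hlr : (1 : ℝ) ≤ l := by exact_mod_cast hl
  set e := Module.finrank M K with he
  have he0 : 0 < e := Module.finrank_pos
  obtain ⟨m, hm⟩ : ∃ m, Module.finrank ℚ M = m := ⟨_, rfl⟩
  have hm0 : 0 < m := by rw [← hm]; exact (Module.finrank_pos (R := ℚ) (M := M))
  have hnme : m * e = n := by rw [← hm, he, ← hn]; exact Module.finrank_mul_finrank ℚ M K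
  -- the cofactors in `M`
  have hcof : ∀ p : {p // p ∈ G}, ∃ P' J : (Ideal (𝓞 M))⁰, (P' : Ideal (𝓞 M)) = P p.1 ∧
      (P' : Ideal (𝓞 M)) * (J : Ideal (𝓞 M)) = Ideal.span {((p.1 : ℕ) : 𝓞 M)} ∧
      Ideal.absNorm (P' : Ideal (𝓞 M)) = p.1 ∧ Ideal.absNorm (J : Ideal (𝓞 M)) = p.1 ^ (m - 1) :=
    fun p => cofactorn hm (hG p.1 p.2).1 (hG p.1 p.2).2.1
  choose PM JM hPM hPJM hNP hNJ using hcof
  let φ := algebraMap (𝓞 M) (𝓞 K)
  have hmapne : ∀ I : (Ideal (𝓞 M))⁰, (I : Ideal (𝓞 M)).map φ ∈ nonZeroDivisors (Ideal (𝓞 K)) := by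
    intro I
    refine mem_nonZeroDivisors_of_ne_zero ?_
    rw [Ne, Ideal.zero_eq_bot, Ideal.map_eq_bot_iff_of_injective
      (FaithfulSMul.algebraMap_injective (𝓞 M) (𝓞 K))]
    exact nonZeroDivisors.coe_ne_zero I
  let PK : {p // p ∈ G} → (Ideal (𝓞 K))⁰ := fun p => ⟨_, hmapne (PM p)⟩
  let JK : {p // p ∈ G} → (Ideal (𝓞 K))⁰ := fun p => ⟨_, hmapne (JM p)⟩
  have hPJK : ∀ p, (PK p : Ideal (𝓞 K)) * (JK p : Ideal (𝓞 K)) =
      Ideal.span {((p.1 : ℕ) : 𝓞 K)} := by
    intro p
    change (PM p : Ideal (𝓞 M)).map φ * (JM p : Ideal (𝓞 M)).map φ = _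
    rw [← Ideal.map_mul, hPJM, Ideal.map_span, Set.image_singleton, map_natCast]
  have hNPK : ∀ p, Ideal.absNorm (PK p : Ideal (𝓞 K)) = p.1 ^ e := by
    intro p
    change Ideal.absNorm ((PM p : Ideal (𝓞 M)).map φ) = _
    rw [Ideal.absNorm_algebraMap, finrank_int, hNP]
  have hNJK : ∀ p, Ideal.absNorm (JK p : Ideal (𝓞 K)) = (p.1 ^ (m - 1)) ^ e := by
    intro p
    change Ideal.absNorm ((JM p : Ideal (𝓞 M)).map φ) = _
    rw [Ideal.absNorm_algebraMap, finrank_int, hNJ]
  have hA : ∀ c : {c : ClassGroup (𝓞 K) // c ^ l = 1}, ∃ (A : (Ideal (𝓞 K))⁰)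
      (γ : 𝓞 K), ClassGroup.mk0 A = c.1 ∧
      (A : Ideal (𝓞 K)) ^ l = Ideal.span {γ} ∧ γ ≠ 0 ∧
      ∀ w : InfinitePlace K, |Lw w (γ : K)| ≤ 2 * l :=
    fun c => exists_rep hl c.1 c.2
  choose A γ hA1 hA2 hA3 hA4 using hA
  have key := pack hn N hN ({p // p ∈ G} × {c : ClassGroup (𝓞 K) // c ^ l = 1})
    (fun i => A i.2 * PK i.1) (by
      rintro ⟨p, c⟩ ⟨q, c'⟩ a b ha hb hab hw
      simp only [Submonoid.coe_mul] at hab
      have haK : (a : K) ≠ 0 := by exact_mod_cast ha
      have hbK : (b : K) ≠ 0 := by exact_mod_cast hb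
      have hγK : (γ c : K) ≠ 0 := by exact_mod_cast hA3 c
      have hγK' : (γ c' : K) ≠ 0 := by exact_mod_cast hA3 c'
      have hpK : ((p.1 : ℕ) : K) ≠ 0 := by exact_mod_cast (hG p p.2).1.ne_zero
      have hpq : p = q := by
        by_contra hne
        -- the l-th power
        have e1 : Ideal.span {a ^ l * γ c'} * ((PK q : Ideal (𝓞 K)) ^ l * (JK p : Ideal (𝓞 K)) ^ l) =
            Ideal.span {b ^ l * γ c * (p.1 : 𝓞 K) ^ l} := by
          have e2 := congrArg (fun I => I ^ l * (JK p : Ideal (𝓞 K)) ^ l) hab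
          simp only [mul_pow, Ideal.span_singleton_pow, hA2] at e2
          rw [← Ideal.span_singleton_mul_span_singleton, ← Ideal.span_singleton_mul_span_singleton,
            ← Ideal.span_singleton_mul_span_singleton, ← Ideal.span_singleton_pow (p.1 : 𝓞 K),
            ← hPJK p, mul_pow]
          calc _ = Ideal.span {a ^ l} * (Ideal.span {γ c'} * (PK q : Ideal (𝓞 K)) ^ l) *
                (JK p : Ideal (𝓞 K)) ^ l := by ring
            _ = Ideal.span {b ^ l} * (Ideal.span {γ c} * (PK p : Ideal (𝓞 K)) ^ l) *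
                (JK p : Ideal (𝓞 K)) ^ l := e2
            _ = _ := by ring
        have hden : a ^ l * γ c' ≠ 0 := mul_ne_zero (pow_ne_zero _ ha) (hA3 c')
        have hdvd : a ^ l * γ c' ∣ b ^ l * γ c * (p.1 : 𝓞 K) ^ l := by
          rw [← Ideal.span_singleton_le_span_singleton, ← e1]
          exact Ideal.mul_le_left
        obtain ⟨z, hz⟩ := hdvd
        have hzspan : Ideal.span {z} = (PK q : Ideal (𝓞 K)) ^ l * (JK p : Ideal (𝓞 K)) ^ l := by
          rw [hz, ← Ideal.span_singleton_mul_span_singleton (a ^ l * γ c')] at e1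
          have hne0 : Ideal.span {a ^ l * γ c'} ≠ (0 : Ideal (𝓞 K)) := by
            rw [Ne, Ideal.zero_eq_bot, Ideal.span_singleton_eq_bot]
            exact hden
          exact (mul_left_cancel₀ hne0 e1).symm
        have hz0 : z ≠ 0 := by
          rintro rfl
          rw [mul_zero] at hz
          have : (b ^ l * γ c * (p.1 : 𝓞 K) ^ l) ≠ 0 := by
            refine mul_ne_zero (mul_ne_zero (pow_ne_zero _ hb) (hA3 c)) (pow_ne_zero _ ?_)
            exact_mod_cast (hG p p.2).1.ne_zero
          exact this hz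
        have hzK : (z : K) ≠ 0 := by exact_mod_cast hz0
        -- the norm of z
        have hnz : (Algebra.norm ℤ z).natAbs = ((q.1 * p.1 ^ (m - 1)) ^ e) ^ l := by
          rw [← Ideal.absNorm_span_singleton, hzspan, map_mul, map_pow, map_pow,
            hNPK, hNJK, mul_pow, mul_pow]
        have hnz' : |((Algebra.norm ℚ (z : K) : ℚ) : ℝ)| =
            ((((q.1 * p.1 ^ (m - 1)) ^ e) ^ l : ℕ) : ℝ) := by
          rw [← Algebra.coe_norm_int, ← hnz, Nat.cast_natAbs]
          push_cast
          rfl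
        set y := max p.1 q.1 with hy
        have hy0 : 0 < y := lt_of_lt_of_le (hG p p.2).1.pos (le_max_left _ _)
        have hyr : (0 : ℝ) < y := by exact_mod_cast hy0
        have hnle : ((q.1 * p.1 ^ (m - 1)) ^ e) ^ l ≤ (y ^ l) ^ n := by
          have h1 : q.1 * p.1 ^ (m - 1) ≤ y ^ m := by
            calc q.1 * p.1 ^ (m - 1) ≤ y * y ^ (m - 1) := by
                  gcongr
                  · exact le_max_right _ _
                  · exact le_max_left _ _
              _ = y ^ m := by
                  rw [← pow_succ']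
                  congr 1
                  omega
          calc ((q.1 * p.1 ^ (m - 1)) ^ e) ^ l ≤ ((y ^ m) ^ e) ^ l := by gcongr
            _ = (y ^ l) ^ n := by
                rw [← pow_mul, ← pow_mul, ← pow_mul, ← hnme]
                congr 1
                ring
        -- the size of z at the places
        have hLz : ∀ w : InfinitePlace K, Lw w (z : K) ≤ 5 * l := by
          intro w
          have h1 : Lw w ((a ^ l * γ c' * z : 𝓞 K) : K) =
              Lw w ((b ^ l * γ c * (p.1 : 𝓞 K) ^ l : 𝓞 K) : K) := by rw [hz]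
          push_cast at h1
          rw [Lw_mul w (mul_ne_zero (pow_ne_zero _ haK) hγK') hzK,
            Lw_mul w (pow_ne_zero _ haK) hγK', Lw_mul w (mul_ne_zero (pow_ne_zero _ hbK) hγK)
              (pow_ne_zero _ hpK), Lw_mul w (pow_ne_zero _ hbK) hγK, Lw_pow, Lw_pow, Lw_pow,
            Lw_natCast, mul_zero, add_zero] at h1
          have h2 := abs_lt.mp (hw w)
          have h3 := abs_le.mp (hA4 c w)
          have h4 := abs_le.mp (hA4 c' w)
          have h5 : (l : ℝ) * (Lw w (b : K) - Lw w (a : K)) ≤ l * 1 :=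
            mul_le_mul_of_nonneg_left (by linarith) (by linarith)
          nlinarith
        have hwz : ∀ w : InfinitePlace K, w (z : K) ≤ (150 * y : ℝ) ^ l := by
          intro w
          have h1 := hLz w
          unfold Lw at h1
          rw [hnz', hn] at h1
          have hpos : (0 : ℝ) < ((((q.1 * p.1 ^ (m - 1)) ^ e) ^ l : ℕ) : ℝ) := by
            have := mul_pos (hG q q.2).1.pos (pow_pos (hG p p.2).1.pos (m - 1))
            exact_mod_cast pow_pos (pow_pos this e) l
          have h2 : Real.log ((((q.1 * p.1 ^ (m - 1)) ^ e) ^ l : ℕ) : ℝ) ≤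
              n * (l * Real.log y) := by
            have : ((((q.1 * p.1 ^ (m - 1)) ^ e) ^ l : ℕ) : ℝ) ≤ ((y : ℝ) ^ l) ^ n := by
              exact_mod_cast hnle
            have h3 := Real.log_le_log hpos this
            rw [Real.log_pow, Real.log_pow] at h3
            exact h3
          have h3 : Real.log ((((q.1 * p.1 ^ (m - 1)) ^ e) ^ l : ℕ) : ℝ) / n ≤ l * Real.log y := by
            rw [div_le_iff₀ hnr]
            linarith
          have h4 : Real.log (w (z : K)) ≤ Real.log ((150 * y : ℝ) ^ l) := by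
            rw [Real.log_pow, Real.log_mul (by norm_num) hyr.ne']
            have h5 : (5 : ℝ) ≤ Real.log 150 := by
              rw [Real.le_log_iff_exp_le (by norm_num)]
              have h6 : Real.exp 1 < 2.7182818286 := Real.exp_one_lt_d9
              have h7 : Real.exp 5 = Real.exp 1 ^ 5 := by
                rw [← Real.exp_nat_mul]; norm_num
              rw [h7]
              have h8 : Real.exp 1 ^ 5 ≤ (2.7182818286 : ℝ) ^ 5 := by
                gcongr
              refine h8.trans ?_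
              norm_num
            nlinarith
          exact (Real.log_le_log_iff (w_pos w hzK) (by positivity)).mp h4
        -- the relative norm
        set β : 𝓞 M := Algebra.intNorm (𝓞 M) (𝓞 K) z with hβ
        have hβM : (β : M) = Algebra.norm M (z : K) :=
          Algebra.algebraMap_intNorm (A := 𝓞 M) (K := M) (L := K) (B := 𝓞 K) z
        have hspanβ : Ideal.span {β} =
            (PM q : Ideal (𝓞 M)) ^ (l * e) * (JM p : Ideal (𝓞 M)) ^ (l * e) := by
          rw [hβ, ← Ideal.relNorm_singleton, hzspan]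
          change Ideal.relNorm (𝓞 M) (((PM q : Ideal (𝓞 M)).map φ) ^ l *
            ((JM p : Ideal (𝓞 M)).map φ) ^ l) = _
          rw [map_mul, map_pow, map_pow, Ideal.relNorm_algebraMap, Ideal.relNorm_algebraMap,
            finrank_int, ← he, ← pow_mul, ← pow_mul, mul_comm e l]
        have hqD : ¬ (PM q : Ideal (𝓞 M)) ∣ (JM q : Ideal (𝓞 M)) := by
          intro hdvd
          exact (hG q q.2).2.2 (dvd_discr_of_dvd (hG q q.2).1 (hNP q) (hPJM q) hdvd)
        have htop : ℚ⟮(β : M)⟯ = ⊤ :=
          gen_top_unram β (PM q : Ideal (𝓞 M)) (JM q : Ideal (𝓞 M)) (JM p : Ideal (𝓞 M))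
            (hG q q.2).1 (hG p p.2).1 (fun h => hne (Subtype.ext h)) (Nat.mul_pos hl he0) (hNP q)
            (hPJM q) hqD (hNJ p) hspanβ
        have hβle : ∀ v : InfinitePlace M, v (β : M) ≤ (150 * y : ℝ) ^ (l * e) := by
          intro v
          rw [hβM, pow_mul]
          exact norm_place_le (z : K) hwz v
        have hyG : y ∈ G := by
          rcases max_choice p.1 q.1 with h | h
          · rw [hy, h]; exact p.2
          · rw [hy, h]; exact q.2
        obtain ⟨v, hv⟩ := hgood y hyG β htop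
        exact absurd (hβle v) (not_le.mpr hv)
      subst hpq
      have hc : c = c' := by
        have hP0 : (PK p : Ideal (𝓞 K)) ≠ 0 := nonZeroDivisors.coe_ne_zero _
        have e1 : Ideal.span {a} * (A c' : Ideal (𝓞 K)) =
            Ideal.span {b} * (A c : Ideal (𝓞 K)) := by
          rw [← mul_assoc, ← mul_assoc] at hab
          exact mul_right_cancel₀ hP0 hab
        have e2 : ClassGroup.mk0 (A c') = ClassGroup.mk0 (A c) := by
          rw [ClassGroup.mk0_eq_mk0_iff]
          exact ⟨a, b, ha, hb, e1⟩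
        rw [hA1, hA1] at e2
        exact Subtype.ext e2.symm
      rw [hc])
  rw [Fintype.card_prod, Fintype.card_coe] at key
  rw [Nat.card_eq_fintype_card]
  push_cast at key
  exact key

end Run7.h673.LT
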