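import Pool.Agent.Run7.h673.LT.Split

/-! Frobenius elements and primes of degree one. -/

set_option autoImplicit false

namespace Run7.h673.LT

open NumberField Finset Pool.Agent.TH847.LS Pool.Agent.TH847.LG
open scoped Classical nonZeroDivisors Pointwise

section degone

variable {M : Type} [Field M] [NumberField M]

/-- a prime ideal modulo which all integers satisfy `y ^ p = y` has norm `p` -/
theorem absNorm_eq_of {P : Ideal (𝓞 M)} (hP : P.IsPrime) {p : ℕ} (hp : p.Prime)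
    (hpP : ((p : ℕ) : 𝓞 M) ∈ P) (h : ∀ y : 𝓞 M, y ^ p - y ∈ P) : Ideal.absNorm P = p := by
  have hP0 : P ≠ ⊥ := by
    rintro rfl
    rw [Ideal.mem_bot] at hpP
    exact hp.ne_zero (by exact_mod_cast hpP)
  have hPm : P.IsMaximal := hP.isMaximal hP0
  have hdvd : Ideal.absNorm P ∣ p ^ Module.finrank ℤ (𝓞 M) := by
    rw [← Ideal.absNorm_span_natCast]
    refine Ideal.absNorm_dvd_absNorm_of_le ?_
    rw [Ideal.span_le, Set.singleton_subset_iff]
    exact hpP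
  obtain ⟨f, -, hf⟩ := (Nat.dvd_prime_pow hp).mp hdvd
  have hne1 : Ideal.absNorm P ≠ 1 := fun h1 => hP.ne_top (Ideal.absNorm_eq_one_iff.mp h1)
  have hf1 : 1 ≤ f := by
    rcases Nat.eq_zero_or_pos f with h0 | h0
    · rw [h0, pow_zero] at hf
      exact absurd hf hne1
    · exact h0
  have hge : p ≤ Ideal.absNorm P := by
    rw [hf]
    exact Nat.le_self_pow (by omega) p
  refine le_antisymm ?_ hge
  -- the residue field
  have hfin : Finite (𝓞 M ⧸ P) := Ideal.finiteQuotientOfFreeOfNeBot P hP0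
  have hft : Fintype (𝓞 M ⧸ P) := Fintype.ofFinite _
  let _ : Field (𝓞 M ⧸ P) := Ideal.Quotient.field P
  have hcard : Ideal.absNorm P = Fintype.card (𝓞 M ⧸ P) := by
    rw [Ideal.absNorm_apply, Submodule.cardQuot_apply, Nat.card_eq_fintype_card]
  rw [hcard]
  have hroots : ∀ x : 𝓞 M ⧸ P, (Polynomial.X ^ p - Polynomial.X : Polynomial (𝓞 M ⧸ P)).IsRoot x := by
    intro x
    obtain ⟨y, rfl⟩ := Ideal.Quotient.mk_surjective x
    rw [Polynomial.IsRoot, Polynomial.eval_sub, Polynomial.eval_pow, Polynomial.eval_X,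
      ← map_pow, ← map_sub]
    exact Ideal.Quotient.eq_zero_iff_mem.mpr (h y)
  have hne : (Polynomial.X ^ p - Polynomial.X : Polynomial (𝓞 M ⧸ P)) ≠ 0 :=
    FiniteField.X_pow_card_sub_X_ne_zero _ hp.one_lt
  have hdeg : (Polynomial.X ^ p - Polynomial.X : Polynomial (𝓞 M ⧸ P)).natDegree = p :=
    FiniteField.X_pow_card_sub_X_natDegree_eq _ hp.one_lt
  have h1 : (Finset.univ : Finset (𝓞 M ⧸ P)) ⊆
      (Polynomial.X ^ p - Polynomial.X : Polynomial (𝓞 M ⧸ P)).roots.toFinset := by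
    intro x _
    rw [Multiset.mem_toFinset, Polynomial.mem_roots hne]
    exact hroots x
  calc Fintype.card (𝓞 M ⧸ P) = (Finset.univ : Finset (𝓞 M ⧸ P)).card := Finset.card_univ.symm
    _ ≤ (Polynomial.X ^ p - Polynomial.X : Polynomial (𝓞 M ⧸ P)).roots.toFinset.card :=
        Finset.card_le_card h1
    _ ≤ Multiset.card (Polynomial.X ^ p - Polynomial.X : Polynomial (𝓞 M ⧸ P)).roots :=
        Multiset.toFinset_card_le _
    _ ≤ (Polynomial.X ^ p - Polynomial.X : Polynomial (𝓞 M ⧸ P)).natDegree :=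
        Polynomial.card_roots' _
    _ = p := hdeg

/-- if all primes over `p` have norm `p` and `p` is unramified there are `[M : ℚ]` of them -/
theorem nu_ge {r p : ℕ} (hr : Module.finrank ℚ M = r) (hp : p.Prime)
    (hpD : ¬ p ∣ (discr M).natAbs)
    (h : ∀ P : Ideal (𝓞 M), P.IsPrime → ((p : ℕ) : 𝓞 M) ∈ P → Ideal.absNorm P = p) :
    r ≤ nu M p := by
  set I : Ideal (𝓞 M) := Ideal.span {((p : ℕ) : 𝓞 M)} with hI
  have hI0 : I ≠ ⊥ := by
    rw [hI, Ne, Ideal.span_singleton_eq_bot]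
    exact_mod_cast hp.ne_zero
  set s := UniqueFactorizationMonoid.normalizedFactors I with hs
  have hprod : s.prod = I := Ideal.prod_normalizedFactors_eq_self hI0
  have hmem : ∀ P ∈ s, P.IsPrime ∧ P ≠ ⊥ ∧ ((p : ℕ) : 𝓞 M) ∈ P := by
    intro P hP
    have h1 : Prime P := UniqueFactorizationMonoid.prime_of_normalized_factor P hP
    refine ⟨Ideal.isPrime_of_prime h1, h1.ne_zero, ?_⟩
    have h2 : P ∣ I := UniqueFactorizationMonoid.dvd_of_mem_normalizedFactors hP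
    exact Ideal.le_of_dvd h2 (Ideal.mem_span_singleton_self _)
  have hnorm : ∀ P ∈ s, Ideal.absNorm P = p := fun P hP => h P (hmem P hP).1 (hmem P hP).2.2
  have hcard : Multiset.card s = r := by
    have h1 : Ideal.absNorm I = p ^ r := by
      rw [hI, Ideal.absNorm_span_natCast, RingOfIntegers.rank, hr]
    rw [← hprod, map_multiset_prod, Multiset.map_congr rfl hnorm, Multiset.map_const',
      Multiset.prod_replicate] at h1
    exact Nat.pow_right_injective hp.two_le h1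
  have hnodup : s.Nodup := by
    rw [Multiset.nodup_iff_le]
    intro P hle
    have hPs : P ∈ s := Multiset.mem_of_le hle (Multiset.mem_cons_self _ _)
    have h1 : P * P ∣ I := by
      rw [← hprod]
      have h2 := Multiset.prod_dvd_prod_of_le hle
      simpa using h2
    obtain ⟨R, hR⟩ := h1
    apply hpD
    refine dvd_discr_of_dvd hp (hnorm P hPs) (R := P * R) ?_ (dvd_mul_right _ _)
    rw [← mul_assoc, ← hR]
  have hsub : s.toFinset ⊆ (FI M p).filter (fun P => Ideal.absNorm P = p) := by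
    intro P hP
    rw [Multiset.mem_toFinset] at hP
    rw [mem_filter, mem_FI]
    exact ⟨⟨(hnorm P hP).le, (hmem P hP).2.1⟩, hnorm P hP⟩
  calc r = Multiset.card s := hcard.symm
    _ = s.toFinset.card := (Multiset.toFinset_card_of_nodup hnodup).symm
    _ ≤ nu M p := Finset.card_le_card hsub

end degone

section galois

variable {L : Type} [Field L] [NumberField L] [IsGalois ℚ L]

/-- a Frobenius element at a prime, and all primes over `p` -/
theorem exists_frob {p : ℕ} (hp : p.Prime) : ∃ (Q0 : Ideal (𝓞 L)) (σ0 : Gal(L/ℚ)),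
    Q0.IsPrime ∧ ((p : ℕ) : 𝓞 L) ∈ Q0 ∧ (∀ x : 𝓞 L, σ0 • x - x ^ p ∈ Q0) ∧
    ∀ Q : Ideal (𝓞 L), Q.IsPrime → ((p : ℕ) : 𝓞 L) ∈ Q → ∃ τ : Gal(L/ℚ), Q = τ • Q0 := by
  have hunder : ∀ Q : Ideal (𝓞 L), Q.IsPrime → ((p : ℕ) : 𝓞 L) ∈ Q →
      Q.under ℤ = Ideal.span {(p : ℤ)} := by
    intro Q hQ hpQ
    have hmax : (Ideal.span {(p : ℤ)}).IsMaximal :=
      PrincipalIdealRing.isMaximal_of_irreducible (Nat.prime_iff_prime_int.mp hp).irreducible
    refine (hmax.eq_of_le (Ideal.IsPrime.under ℤ Q).ne_top ?_).symm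
    rw [Ideal.span_le, Set.singleton_subset_iff]
    change algebraMap ℤ (𝓞 L) (p : ℤ) ∈ Q
    simpa using hpQ
  -- a prime over `p`
  obtain ⟨Q0, hQ0m, hQ0⟩ : ∃ Q0 : Ideal (𝓞 L), Q0.IsMaximal ∧
      Ideal.span {((p : ℕ) : 𝓞 L)} ≤ Q0 := by
    refine Ideal.exists_le_maximal _ ?_
    intro h
    have h1 : Ideal.absNorm (Ideal.span {((p : ℕ) : 𝓞 L)}) = 1 := by rw [h, Ideal.absNorm_top]
    rw [Ideal.absNorm_span_natCast] at h1
    have h2 : 0 < Module.finrank ℤ (𝓞 L) := by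
      rw [RingOfIntegers.rank]
      exact Module.finrank_pos
    have h3 := Nat.one_lt_pow h2.ne' hp.one_lt
    omega
  have hpQ0 : ((p : ℕ) : 𝓞 L) ∈ Q0 := hQ0 (Ideal.mem_span_singleton_self _)
  have hQ0p : Q0.IsPrime := hQ0m.isPrime
  have hQ0ne : Q0 ≠ ⊥ := by
    rintro rfl
    rw [Ideal.mem_bot] at hpQ0
    exact hp.ne_zero (by exact_mod_cast hpQ0)
  have hfin : Finite (𝓞 L ⧸ Q0) := Ideal.finiteQuotientOfFreeOfNeBot Q0 hQ0ne
  obtain ⟨σ0, hσ0⟩ := IsArithFrobAt.exists_of_isInvariant ℤ Gal(L/ℚ) Q0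
  have hcard : Nat.card (ℤ ⧸ Q0.under ℤ) = p := by
    rw [hunder Q0 hQ0p hpQ0]
    exact Int.card_ideal_quot p
  refine ⟨Q0, σ0, hQ0p, hpQ0, ?_, ?_⟩
  · intro x
    have := hσ0 x
    rw [hcard] at this
    exact this
  · intro Q hQ hpQ
    exact Algebra.IsInvariant.exists_smul_of_under_eq ℤ (𝓞 L) Gal(L/ℚ) _ _
      ((hunder Q0 hQ0p hpQ0).trans (hunder Q hQ hpQ).symm)

omit [IsGalois ℚ L] in
theorem frob_conj {p : ℕ} {Q0 : Ideal (𝓞 L)} {σ0 : Gal(L/ℚ)}
    (h : ∀ x : 𝓞 L, σ0 • x - x ^ p ∈ Q0) (τ : Gal(L/ℚ)) (x : 𝓞 L) :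
    (τ * σ0 * τ⁻¹) • x - x ^ p ∈ τ • Q0 := by
  have h1 := Ideal.smul_mem_pointwise_smul τ _ Q0 (h (τ⁻¹ • x))
  rw [smul_sub, smul_pow', smul_inv_smul, ← mul_smul, ← mul_smul] at h1
  rw [mul_assoc]
  exact h1

omit [IsGalois ℚ L] in
theorem smul_fixed (U : Subgroup Gal(L/ℚ)) {g : Gal(L/ℚ)} (hg : g ∈ U)
    (y : 𝓞 (IntermediateField.fixedField U)) :
    g • (algebraMap (𝓞 (IntermediateField.fixedField U)) (𝓞 L) y) =
      algebraMap (𝓞 (IntermediateField.fixedField U)) (𝓞 L) y := by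
  apply RingOfIntegers.ext
  have h1 : ((algebraMap (𝓞 (IntermediateField.fixedField U)) (𝓞 L) y : 𝓞 L) : L) =
      ((y : IntermediateField.fixedField U) : L) := rfl
  have h2 : ((g • (algebraMap (𝓞 (IntermediateField.fixedField U)) (𝓞 L) y) : 𝓞 L) : L) =
      g • ((y : IntermediateField.fixedField U) : L) := rfl
  rw [h1, h2]
  exact (y : IntermediateField.fixedField U).2 ⟨g, hg⟩

omit [IsGalois ℚ L] in
theorem frob_fixed {p : ℕ} {Q0 : Ideal (𝓞 L)} {σ0 : Gal(L/ℚ)}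
    (h : ∀ x : 𝓞 L, σ0 • x - x ^ p ∈ Q0) (τ : Gal(L/ℚ)) (U : Subgroup Gal(L/ℚ))
    (hU : τ * σ0 * τ⁻¹ ∈ U) (y : 𝓞 (IntermediateField.fixedField U)) :
    y ^ p - y ∈ (τ • Q0).comap (algebraMap (𝓞 (IntermediateField.fixedField U)) (𝓞 L)) := by
  rw [Ideal.mem_comap, map_sub, map_pow, ← neg_mem_iff, neg_sub]
  have h1 := frob_conj h τ (algebraMap (𝓞 (IntermediateField.fixedField U)) (𝓞 L) y)
  rwa [smul_fixed U hU] at h1

omit [IsGalois ℚ L] in
/-- a prime of degree one in the fixed field of a subgroup containing a Frobenius element -/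
theorem exists_deg_one {p : ℕ} (hp : p.Prime) {Q0 : Ideal (𝓞 L)} {σ0 : Gal(L/ℚ)}
    (hQ0 : Q0.IsPrime) (hpQ0 : ((p : ℕ) : 𝓞 L) ∈ Q0)
    (h : ∀ x : 𝓞 L, σ0 • x - x ^ p ∈ Q0) (τ : Gal(L/ℚ)) (U : Subgroup Gal(L/ℚ))
    (hU : τ * σ0 * τ⁻¹ ∈ U) :
    ∃ P : Ideal (𝓞 (IntermediateField.fixedField U)), Ideal.absNorm P = p := by
  have h1 : (τ • Q0).IsPrime := inferInstance
  have h2 : ((p : ℕ) : 𝓞 L) ∈ τ • Q0 := by
    have := Ideal.smul_mem_pointwise_smul τ _ Q0 hpQ0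
    have e : τ • ((p : ℕ) : 𝓞 L) = p :=
      map_natCast (MulSemiringAction.toRingHom Gal(L/ℚ) (𝓞 L) τ) p
    rwa [e] at this
  refine ⟨(τ • Q0).comap (algebraMap (𝓞 (IntermediateField.fixedField U)) (𝓞 L)), ?_⟩
  refine absNorm_eq_of (Ideal.IsPrime.comap _) hp ?_ (frob_fixed h τ U hU)
  rw [Ideal.mem_comap, map_natCast]
  exact h2

omit [IsGalois ℚ L] in
/-- if a Frobenius element at `p` lies in a normal subgroup, `p` splits completely in its fixed
field, if it is unramified there -/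
theorem nu_of_frob {p r : ℕ} (hp : p.Prime) {Q0 : Ideal (𝓞 L)} {σ0 : Gal(L/ℚ)}
    (h : ∀ x : 𝓞 L, σ0 • x - x ^ p ∈ Q0)
    (hall : ∀ Q : Ideal (𝓞 L), Q.IsPrime → ((p : ℕ) : 𝓞 L) ∈ Q → ∃ τ : Gal(L/ℚ), Q = τ • Q0)
    (W : Subgroup Gal(L/ℚ)) (hWn : W.Normal) (hW : σ0 ∈ W)
    (hr : Module.finrank ℚ (IntermediateField.fixedField W) = r)
    (hpD : ¬ p ∣ (discr (IntermediateField.fixedField W)).natAbs) :
    r ≤ nu (IntermediateField.fixedField W) p := by
  refine nu_ge hr hp hpD fun P hP hpP => ?_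
  obtain ⟨Q, hQ, hQP⟩ := Ideal.exists_ideal_over_prime_of_isIntegral_of_isDomain
    (S := 𝓞 L) P (by
      rw [(RingHom.injective_iff_ker_eq_bot _).mp
        (FaithfulSMul.algebraMap_injective (𝓞 (IntermediateField.fixedField W)) (𝓞 L))]
      exact bot_le)
  have hpQ : ((p : ℕ) : 𝓞 L) ∈ Q := by
    rw [← hQP, Ideal.mem_comap, map_natCast] at hpP
    exact hpP
  obtain ⟨τ, rfl⟩ := hall Q hQ hpQ
  refine absNorm_eq_of hP hp hpP fun y => ?_
  rw [← hQP]
  exact frob_fixed h τ W (hWn.conj_mem σ0 hW τ) y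

end galois

end Run7.h673.LT
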