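import Pool.Agent.Run7.h673.LT.Small

/-! Generators of fixed fields. -/

set_option autoImplicit false

namespace Run7.h673.LT

open NumberField Finset Pool.Agent.TH847.LS Pool.Agent.TH847.LG IntermediateField
open scoped Classical nonZeroDivisors Pointwise

theorem top_inst {M : Type} [Field M] (A1 A2 : Algebra ℚ M) (x : M)
    (h : @IntermediateField.adjoin ℚ _ M _ A1 {x} = ⊤) :
    @IntermediateField.adjoin ℚ _ M _ A2 {x} = ⊤ := by
  have e : A1 = A2 := Subsingleton.elim _ _
  subst e
  exact h

variable {L : Type} [Field L] [NumberField L] [IsGalois ℚ L]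

theorem adjoin_eq_fixed {U : Subgroup Gal(L/ℚ)} {θ : L}
    (h : ∀ g : Gal(L/ℚ), g θ = θ ↔ g ∈ U) : ℚ⟮θ⟯ = fixedField U := by
  have h1 : ℚ⟮θ⟯.fixingSubgroup = U := by
    ext g
    rw [IntermediateField.mem_fixingSubgroup_iff, ← h]
    constructor
    · intro h2
      exact h2 θ (IntermediateField.mem_adjoin_simple_self ℚ θ)
    · intro h2 x hx
      have h3 : ℚ⟮θ⟯ ≤ fixedField (Subgroup.zpowers g) := by
        rw [IntermediateField.adjoin_simple_le_iff, IntermediateField.mem_fixedField_iff]
        intro k hk
        rw [Subgroup.mem_zpowers_iff] at hk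
        obtain ⟨m, rfl⟩ := hk
        have h4 : g ∈ MulAction.stabilizer Gal(L/ℚ) θ := h2
        exact zpow_mem h4 m
      have h4 := h3 hx
      rw [IntermediateField.mem_fixedField_iff] at h4
      exact h4 g (Subgroup.mem_zpowers g)
  rw [← h1, IsGalois.fixedField_fixingSubgroup]

theorem small_disc {U : Subgroup Gal(L/ℚ)} {B : ℝ} (h : Small U B) {m : ℕ}
    (hm : Module.finrank ℚ (fixedField U) = m) :
    |(discr (fixedField U) : ℝ)| ≤ (2 * B) ^ (m * (m - 1)) := by
  obtain ⟨θ, h1, h2⟩ := h
  have hadj := adjoin_eq_fixed h1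
  have hmem : (θ : L) ∈ fixedField U := by
    rw [← hadj]
    exact IntermediateField.mem_adjoin_simple_self ℚ _
  have hint : IsIntegral ℤ (⟨(θ : L), hmem⟩ : fixedField U) := by
    rw [← isIntegral_algebraMap_iff (algebraMap (fixedField U) L).injective]
    exact RingOfIntegers.isIntegral_coe θ
  let θM : 𝓞 (fixedField U) := ⟨⟨(θ : L), hmem⟩, hint⟩
  have htop : ℚ⟮(θM : fixedField U)⟯ = ⊤ := by
    refine top_inst (fixedField U).algebra' _ _ ?_
    apply IntermediateField.lift_injective (fixedField U)
    rw [IntermediateField.lift_adjoin_simple, IntermediateField.lift_top]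
    exact hadj
  refine disc_bound hm θM htop fun v => ?_
  obtain ⟨w, rfl⟩ := InfinitePlace.comap_surjective (K := L) v
  rw [InfinitePlace.comap_apply]
  exact h2 w

omit [IsGalois ℚ L] in
theorem exists_large {U : Subgroup Gal(L/ℚ)} {B : ℝ} (h : ¬ Small U B)
    (β : 𝓞 (fixedField U)) (hβ : ℚ⟮(β : fixedField U)⟯ = ⊤) :
    ∃ v : InfinitePlace (fixedField U), B < v (β : fixedField U) := by
  by_contra hcon
  push Not at hcon
  apply h
  have hadj : ℚ⟮((β : fixedField U) : L)⟯ = fixedField U := by
    have h1 := congrArg IntermediateField.lift (top_inst _ (fixedField U).algebra' _ hβ)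
    rw [IntermediateField.lift_adjoin_simple, IntermediateField.lift_top] at h1
    exact h1
  refine ⟨algebraMap (𝓞 (fixedField U)) (𝓞 L) β, fun g => ?_, fun w => ?_⟩
  · have e : ((algebraMap (𝓞 (fixedField U)) (𝓞 L) β : 𝓞 L) : L) =
        ((β : fixedField U) : L) := rfl
    rw [e]
    constructor
    · intro hg
      have h1 : g ∈ (fixedField U).fixingSubgroup := by
        rw [IntermediateField.mem_fixingSubgroup_iff]
        intro x hx
        have h3 : ℚ⟮((β : fixedField U) : L)⟯ ≤ fixedField (Subgroup.zpowers g) := by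
          rw [IntermediateField.adjoin_simple_le_iff, IntermediateField.mem_fixedField_iff]
          intro k hk
          rw [Subgroup.mem_zpowers_iff] at hk
          obtain ⟨m, rfl⟩ := hk
          have h4 : g ∈ MulAction.stabilizer Gal(L/ℚ) ((β : fixedField U) : L) := hg
          exact zpow_mem h4 m
        rw [← hadj] at hx
        have h4 := h3 hx
        rw [IntermediateField.mem_fixedField_iff] at h4
        exact h4 g (Subgroup.mem_zpowers g)
      rwa [IntermediateField.fixingSubgroup_fixedField] at h1
    · intro hg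
      exact (β : fixedField U).2 ⟨g, hg⟩
  · exact hcon (w.comap (algebraMap (fixedField U) L))

end Run7.h673.LT
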