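import Pool.Agent.Run7.h673.LT.Gen
import Pool.Agent.Run7.h673.LT.EVSub
import Pool.Agent.Run7.h673.LT.Defs

/-! Embeddings between fixed fields, and the primes which are good for a given large subfield. -/

set_option autoImplicit false

namespace Run7.h673.LT

open NumberField Finset Pool.Agent.TH847.LS Pool.Agent.TH847.LG IntermediateField
open scoped Classical nonZeroDivisors Pointwise

/-- the elements of the Galois group of `L` which fix the subfield `E` -/
def fix (E L : Type) [Field E] [Field L] [NumberField L] [Algebra E L] : Subgroup Gal(L/ℚ) :=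
  fixingSubgroup Gal(L/ℚ) (Set.range (algebraMap E L))

section hom

variable {E L : Type} [Field E] [NumberField E] [Field L] [NumberField L] [Algebra E L]

omit [NumberField E] in
theorem mem_fix {g : Gal(L/ℚ)} : g ∈ fix E L ↔ ∀ x : E, g (algebraMap E L x) = algebraMap E L x := by
  unfold fix
  rw [_root_.mem_fixingSubgroup_iff]
  constructor
  · intro h x
    exact h _ ⟨x, rfl⟩
  · rintro h _ ⟨x, rfl⟩
    exact h x

variable [IsGalois ℚ L]

theorem mem_range_of_fixed {x : L} (hx : ∀ g ∈ fix E L, g x = x) : ∃ y : E, algebraMap E L y = x := by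
  let F : IntermediateField ℚ L := (algebraMap E L).toRatAlgHom.fieldRange
  have h1 : x ∈ fixedField F.fixingSubgroup := by
    rw [IntermediateField.mem_fixedField_iff]
    intro g hg
    apply hx
    rw [mem_fix]
    intro y
    rw [IntermediateField.mem_fixingSubgroup_iff] at hg
    exact hg _ ⟨y, rfl⟩
  rw [IsGalois.fixedField_fixingSubgroup] at h1
  obtain ⟨y, hy⟩ := h1
  exact ⟨y, hy⟩

/-- the fixed field of a subgroup containing the group of `E` embeds in `E` -/
theorem exists_hom {U : Subgroup Gal(L/ℚ)} (hU : fix E L ≤ U) : Nonempty (fixedField U →+* E) := by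
  have h1 : ∀ x : fixedField U, ∃ y : E, algebraMap E L y = (x : L) := by
    intro x
    apply mem_range_of_fixed
    intro g hg
    exact x.2 ⟨g, hU hg⟩
  choose f hf using h1
  have hinj : Function.Injective (algebraMap E L) := (algebraMap E L).injective
  refine ⟨{ toFun := f, map_one' := ?_, map_mul' := ?_, map_zero' := ?_, map_add' := ?_ }⟩
  · apply hinj; rw [hf, map_one]; rfl
  · intro x y; apply hinj; rw [hf, map_mul, hf, hf]; rfl
  · apply hinj; rw [hf, map_zero]; rfl
  · intro x y; apply hinj; rw [hf, map_add, hf, hf]; rfl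

omit [NumberField E] [IsGalois ℚ L] in
/-- `E` embeds in the fixed field of a subgroup of its group -/
theorem exists_hom' {N : Subgroup Gal(L/ℚ)} (hN : N ≤ fix E L) : Nonempty (E →+* fixedField N) := by
  have h1 : ∀ x : E, algebraMap E L x ∈ fixedField N := by
    intro x
    rw [IntermediateField.mem_fixedField_iff]
    intro g hg
    exact mem_fix.mp (hN hg) x
  exact ⟨(algebraMap E L).codRestrict (fixedField N).toSubfield h1⟩

theorem discr_le_of_hom {A B : Type} [Field A] [NumberField A] [Field B] [NumberField B]
    (f : A →+* B) : discr A ∣ discr B := by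
  let _ : Algebra A B := f.toAlgebra
  exact NumberField.discr_dvd_discr A B

end hom

/-- the number of prime divisors -/
theorem card_primeFactors_le {D : ℕ} (hD : D ≠ 0) :
    (D.primeFactors.card : ℝ) ≤ 2 * Real.log D := by
  have h5 : 2 ^ D.primeFactors.card ≤ D := by
    calc 2 ^ D.primeFactors.card ≤ ∏ p ∈ D.primeFactors, p := by
          refine Finset.pow_card_le_prod _ _ _ fun p hp => ?_
          exact (Nat.prime_of_mem_primeFactors hp).two_le
      _ ≤ D := Nat.le_of_dvd (by omega) (Nat.prod_primeFactors_dvd D)
  have h6 : (2 : ℝ) ^ D.primeFactors.card ≤ D := by exact_mod_cast h5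
  have h7 := Real.log_le_log (by positivity) h6
  rw [Real.log_pow] at h7
  have h8 := Real.log_two_gt_d9
  have h9 : (0 : ℝ) ≤ D.primeFactors.card := Nat.cast_nonneg _
  nlinarith

theorem card_subgroup_le {G : Type} [Group G] [Finite G] :
    Nat.card (Subgroup G) ≤ 2 ^ Nat.card G := by
  have h1 : Function.Injective (fun U : Subgroup G => (U : Set G)) := SetLike.coe_injective
  have h2 := Nat.card_le_card_of_injective _ h1
  have h3 : Nat.card (Set G) = 2 ^ Nat.card G := by
    have hft : Fintype G := Fintype.ofFinite G
    rw [Nat.card_eq_fintype_card, Fintype.card_set, Nat.card_eq_fintype_card]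
  rwa [h3] at h2

end Run7.h673.LT
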