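import Pool.Agent.Run7.h673.LT.Core

/-! The bound for the torsion of the class group. -/

set_option autoImplicit false

namespace Run7.h673.LT

open NumberField Finset Pool.Agent.TH847.LS Pool.Agent.TH847.LG IntermediateField
open scoped Classical nonZeroDivisors Pointwise

theorem abs_discr_eq (A : Type) [Field A] [NumberField A] :
    |(discr A : ℝ)| = ((discr A).natAbs : ℝ) := by
  rw [Nat.cast_natAbs]
  push_cast
  rfl

theorem one_le_abs_discr (A : Type) [Field A] [NumberField A] : 1 ≤ |(discr A : ℝ)| := by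
  exact_mod_cast Int.one_le_abs (discr_ne_zero A)

theorem abs_discr_le_of_hom {A B : Type} [Field A] [NumberField A] [Field B] [NumberField B]
    (f : A →+* B) : |(discr A : ℝ)| ≤ |(discr B : ℝ)| := by
  have h1 := discr_le_of_hom f
  rw [abs_discr_eq, abs_discr_eq]
  have h2 : (discr B).natAbs ≠ 0 := Int.natAbs_ne_zero.mpr (discr_ne_zero B)
  exact_mod_cast Nat.le_of_dvd (Nat.pos_of_ne_zero h2) (Int.natAbs_dvd_natAbs.mpr h1)

/-- the discriminant of a small fixed field -/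
theorem small_disc_le {L : Type} [Field L] [NumberField L] [IsGalois ℚ L] {N : ℕ}
    (hN : Module.finrank ℚ L = N) {U : Subgroup Gal(L/ℚ)} {B : ℝ} (hB : 1 ≤ B) (h : Small U B) :
    |(discr (fixedField U) : ℝ)| ≤ (2 * B) ^ (N ^ 2) := by
  obtain ⟨m, hm⟩ : ∃ m, Module.finrank ℚ (fixedField U) = m := ⟨_, rfl⟩
  refine (small_disc h hm).trans ?_
  refine pow_le_pow_right₀ (by linarith) ?_
  have h1 := Module.finrank_mul_finrank ℚ (fixedField U) L
  rw [hm, hN] at h1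
  have h2 : 0 < Module.finrank (fixedField U) L := Module.finrank_pos
  have h3 : m ≤ N := by rw [← h1]; exact Nat.le_mul_of_pos_right _ h2
  calc m * (m - 1) ≤ m * m := Nat.mul_le_mul_left _ (Nat.sub_le _ _)
    _ ≤ N * N := Nat.mul_le_mul h3 h3
    _ = N ^ 2 := (sq N).symm

theorem torsion_le {K : Type} [Field K] [NumberField K] {n l Nn : ℕ}
    (hn : Module.finrank ℚ K = n) (hNn : 2 ^ n * √|(discr K : ℝ)| < Nn) :
    (Nat.card {c : ClassGroup (𝓞 K) // c ^ l = 1} : ℝ) ≤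
      ∑ J ∈ FI K Nn, (1 + Real.log ((Nn : ℝ) / Ideal.absNorm J)) ^ n := by
  have h1 := class_le_n hn Nn hNn
  have hTh : Nat.card {c : ClassGroup (𝓞 K) // c ^ l = 1} ≤ Nat.card (ClassGroup (𝓞 K)) :=
    Nat.card_le_card_of_injective _ Subtype.val_injective
  have h2 : (Nat.card {c : ClassGroup (𝓞 K) // c ^ l = 1} : ℝ) ≤
      Nat.card (ClassGroup (𝓞 K)) := by exact_mod_cast hTh
  linarith

/-- the constant in the exponent -/
theorem main (n N : ℕ) (hn2 : 2 ≤ n) : ∃ c : ℝ, 0 < c ∧ ∀ l : ℕ, 1 ≤ l → ∃ C : ℝ, 0 < C ∧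
    ∀ (E K L : Type) [Field E] [NumberField E] [Field K] [NumberField K] [Field L]
      [NumberField L] [Algebra E K] [Algebra E L] [IsGalois ℚ L],
    Module.finrank ℚ K = n → Module.finrank ℚ L = N → Good (fix E L) →
    (Nat.card {c : ClassGroup (𝓞 K) // c ^ l = 1} : ℝ) ≤
      C * √|(discr K : ℝ)| * Real.log |(discr K : ℝ)| ^ (n - 1) *
        |(discr E : ℝ)| ^ (-(c / (l : ℝ) ^ Nat.log 2 N)) := by
  obtain ⟨v, z0, hv2, hz02, hcore⟩ := core_set N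
  obtain ⟨Cb, hCb, hbase⟩ := base n hn2
  set t : ℕ := Nat.log 2 N with ht
  refine ⟨1 / (6 * ((N : ℝ) ^ 2 + 1) * ((N : ℝ) ^ 2 * v * n + 2) ^ t), by positivity, ?_⟩
  intro l hl
  set Cκ : ℝ := (1 + 2 ^ N) ^ (2 ^ N) with hCκ
  have hCκ1 : 1 ≤ Cκ := one_le_pow₀ (by
    have : (0 : ℝ) < 2 ^ N := by positivity
    linarith)
  set A1 : ℝ := (z0 + (2 * 6 ^ N) ^ 2 * 4 ^ (N + 1) * 2 ^ (N ^ 2)) * Cκ ^ (N ^ 2) with hA1
  have hz0r : (2 : ℝ) ≤ z0 := by exact_mod_cast hz02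
  have hCκN : 1 ≤ Cκ ^ (N ^ 2) := one_le_pow₀ hCκ1
  have hA1b : (z0 : ℝ) ≤ A1 := by
    have h1 : (0 : ℝ) ≤ (2 * 6 ^ N) ^ 2 * 4 ^ (N + 1) * 2 ^ (N ^ 2) := by positivity
    calc (z0 : ℝ) = z0 * 1 := (mul_one _).symm
      _ ≤ (z0 + (2 * 6 ^ N) ^ 2 * 4 ^ (N + 1) * 2 ^ (N ^ 2)) * Cκ ^ (N ^ 2) := by
          gcongr
          linarith
  have hA1a : (1 : ℝ) ≤ A1 := by linarith
  set A2 : ℝ := (150 * (2 * A1) ^ v) ^ (l * n) with hA2
  have hA20 : 0 < A2 := by positivity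
  set A : ℝ := A2 + 2 * Cκ with hA
  have hA_1 : 1 ≤ A := by linarith
  set a : ℕ := N ^ 2 * v * (l * n) + 1 with ha
  set b : ℕ := a + 1 with hb
  set M : ℕ := b ^ t with hM
  set q : ℝ := 2 * ((N : ℝ) ^ 2 + 1) * (M + 2) with hq
  have hq0 : 0 < q := by positivity
  set δ : ℝ := 1 / q with hδ
  have hδ0 : 0 < δ := by positivity
  have hlr : (1 : ℝ) ≤ l := by exact_mod_cast hl
  -- the exponent
  have hexp : 1 / (6 * ((N : ℝ) ^ 2 + 1) * ((N : ℝ) ^ 2 * v * n + 2) ^ t) / (l : ℝ) ^ t ≤ δ := by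
    rw [hδ, div_div]
    refine one_div_le_one_div_of_le hq0 ?_
    have h1 : (M : ℝ) ≤ ((N : ℝ) ^ 2 * v * n + 2) ^ t * (l : ℝ) ^ t := by
      rw [← mul_pow, hM]
      push_cast
      refine pow_le_pow_left₀ (by positivity) ?_ t
      rw [hb, ha]
      push_cast
      nlinarith
    have h2 : (1 : ℝ) ≤ ((N : ℝ) ^ 2 * v * n + 2) ^ t * (l : ℝ) ^ t := by
      refine one_le_mul_of_one_le_of_one_le (one_le_pow₀ ?_) (one_le_pow₀ hlr)
      have : (0 : ℝ) ≤ (N : ℝ) ^ 2 * v * n := by positivity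
      linarith
    rw [hq]
    have h3 : (0 : ℝ) < (N : ℝ) ^ 2 + 1 := by positivity
    calc 2 * ((N : ℝ) ^ 2 + 1) * (M + 2)
        ≤ 2 * ((N : ℝ) ^ 2 + 1) * (3 * (((N : ℝ) ^ 2 * v * n + 2) ^ t * (l : ℝ) ^ t)) := by
          gcongr
          linarith
      _ = _ := by ring
  -- a large discriminant
  have hlarge : ∀ᶠ D : ℝ in Filter.atTop, A ≤ D ^ δ ∧ 2 ≤ D ^ δ ∧ 24 * Real.log D ≤ D ^ δ ∧ 1 < D := by
    have h1 : Filter.Tendsto (fun D : ℝ => D ^ δ) Filter.atTop Filter.atTop :=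
      tendsto_rpow_atTop hδ0
    have h2 := (isLittleO_log_rpow_atTop hδ0).def (show (0 : ℝ) < 1 / 24 by norm_num)
    filter_upwards [h1.eventually_ge_atTop A, h1.eventually_ge_atTop 2, h2,
      Filter.eventually_gt_atTop 1] with D a1 a2 a3 a4
    refine ⟨a1, a2, ?_, a4⟩
    rw [Real.norm_of_nonneg (Real.log_nonneg a4.le), Real.norm_of_nonneg (by positivity)] at a3
    linarith
  obtain ⟨D0, hD0⟩ := Filter.eventually_atTop.mp hlarge
  set D1 : ℝ := max D0 1 with hD1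
  have hD1a : 1 ≤ D1 := le_max_right _ _
  refine ⟨Cb * (2 ^ (N + 3) + D1 ^ δ), by positivity, ?_⟩
  intro E K L _ _ _ _ _ _ _ _ _ hnK hNL hgood
  set T : ℝ := (Nat.card {c : ClassGroup (𝓞 K) // c ^ l = 1} : ℝ) with hT
  obtain ⟨Nn, hNn, hS⟩ := hbase K hnK
  set S := ∑ J ∈ FI K Nn, (1 + Real.log ((Nn : ℝ) / Ideal.absNorm J)) ^ n with hSdef
  set R : ℝ := √|(discr K : ℝ)| * Real.log |(discr K : ℝ)| ^ (n - 1) with hR
  have hDK1 := one_le_abs_discr K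
  have hR0 : 0 ≤ R := mul_nonneg (Real.sqrt_nonneg _) (pow_nonneg (Real.log_nonneg hDK1) _)
  have hS' : S ≤ Cb * R := by
    rw [hR, ← mul_assoc]
    exact hS
  set D : ℝ := |(discr E : ℝ)| with hD
  have hD1' : 1 ≤ D := one_le_abs_discr E
  have hDpos : 0 < D := by linarith
  -- reduction to the exponent `δ`
  have hgoal : T ≤ Cb * (2 ^ (N + 3) + D1 ^ δ) * R * D ^ (-δ) → T ≤ Cb * (2 ^ (N + 3) + D1 ^ δ) *
      √|(discr K : ℝ)| * Real.log |(discr K : ℝ)| ^ (n - 1) *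
        D ^ (-(1 / (6 * ((N : ℝ) ^ 2 + 1) * ((N : ℝ) ^ 2 * v * n + 2) ^ t) / (l : ℝ) ^ t)) := by
    intro h
    calc T ≤ Cb * (2 ^ (N + 3) + D1 ^ δ) * R * D ^ (-δ) := h
      _ ≤ Cb * (2 ^ (N + 3) + D1 ^ δ) * R *
          D ^ (-(1 / (6 * ((N : ℝ) ^ 2 + 1) * ((N : ℝ) ^ 2 * v * n + 2) ^ t) / (l : ℝ) ^ t)) := by
          refine mul_le_mul_of_nonneg_left ?_ (by positivity)
          exact Real.rpow_le_rpow_of_exponent_le hD1' (neg_le_neg hexp)
      _ = _ := by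
          rw [hR]
          ring
  apply hgoal
  have hDδ : 0 < D ^ δ := Real.rpow_pos_of_pos hDpos _
  have hDδ' : D ^ (-δ) = (D ^ δ)⁻¹ := Real.rpow_neg hDpos.le δ
  have hTS : T ≤ S := torsion_le hnK hNn
  by_cases hsmall : D < D1
  · -- small discriminant
    have h1 : D ^ δ ≤ D1 ^ δ := Real.rpow_le_rpow hDpos.le hsmall.le hδ0.le
    have h2 : 1 ≤ D1 ^ δ * D ^ (-δ) := by
      rw [hDδ', ← div_eq_mul_inv, one_le_div hDδ]
      exact h1
    calc T ≤ Cb * R := hTS.trans hS'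
      _ = Cb * R * 1 := (mul_one _).symm
      _ ≤ Cb * R * (D1 ^ δ * D ^ (-δ)) := mul_le_mul_of_nonneg_left h2 (by positivity)
      _ ≤ Cb * R * ((2 ^ (N + 3) + D1 ^ δ) * D ^ (-δ)) := by
          refine mul_le_mul_of_nonneg_left (mul_le_mul_of_nonneg_right ?_ ?_) (by positivity)
          · have : (0 : ℝ) < 2 ^ (N + 3) := by positivity
            linarith
          · positivity
      _ = _ := by ring
  push Not at hsmall
  obtain ⟨hβA, hβ2, hβlog, hDgt⟩ := hD0 D ((le_max_left _ _).trans hsmall)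
  set β : ℝ := D ^ δ with hβ
  have hβ1 : 1 ≤ β := by linarith
  have hN1 : 1 ≤ N := by rw [← hNL]; exact Module.finrank_pos
  -- the scales
  let B : ℕ → ℝ := fun j => β ^ (b ^ j)
  have hB1 : ∀ j, 1 ≤ B j := fun j => one_le_pow₀ hβ1
  have hBβ : ∀ j, β ≤ B j := by
    intro j
    have : 1 ≤ b ^ j := Nat.one_le_pow _ _ (by omega)
    calc β = β ^ 1 := (pow_one _).symm
      _ ≤ β ^ (b ^ j) := pow_le_pow_right₀ hβ1 this
  have hBmono : Monotone B := by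
    intro i j hij
    exact pow_le_pow_right₀ hβ1 (Nat.pow_le_pow_right (by omega) hij)
  have hBstep : ∀ j, A * B j ^ a ≤ B (j + 1) := by
    intro j
    have h1 : 1 ≤ b ^ j := Nat.one_le_pow _ _ (by omega)
    calc A * B j ^ a ≤ β * B j ^ a := by
          have := hB1 j
          gcongr
      _ = β ^ (1 + b ^ j * a) := by
          change β * (β ^ (b ^ j)) ^ a = _
          rw [← pow_mul, pow_add, pow_one]
      _ ≤ β ^ (b ^ (j + 1)) := by
          refine pow_le_pow_right₀ hβ1 ?_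
          have e : b ^ (j + 1) = b ^ j * a + b ^ j := by
            rw [pow_succ, hb]
            ring
          omega
      _ = B (j + 1) := rfl
  have hcardG : Nat.card Gal(L/ℚ) = N := by rw [IsGalois.card_aut_eq_finrank, hNL]
  have hκ : Nat.card (Subgroup Gal(L/ℚ)) ≤ 2 ^ N := by
    have h3 := card_subgroup_le (G := Gal(L/ℚ))
    rwa [hcardG] at h3
  have hCκL : (1 + Nat.card (Subgroup Gal(L/ℚ)) : ℝ) ^ Nat.card (Subgroup Gal(L/ℚ)) ≤ Cκ := by
    have h1 : (Nat.card (Subgroup Gal(L/ℚ)) : ℝ) ≤ 2 ^ N := by exact_mod_cast hκ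
    have h2 : (1 : ℝ) ≤ 1 + 2 ^ N := by
      have : (0 : ℝ) < 2 ^ N := by positivity
      linarith
    calc (1 + Nat.card (Subgroup Gal(L/ℚ)) : ℝ) ^ Nat.card (Subgroup Gal(L/ℚ))
        ≤ (1 + 2 ^ N) ^ Nat.card (Subgroup Gal(L/ℚ)) := by gcongr
      _ ≤ (1 + 2 ^ N) ^ (2 ^ N) := pow_le_pow_right₀ h2 hκ
  -- all scales are small
  have hscale : ∀ j ≤ t, (2 * (Cκ * B j)) ^ (N ^ 2) ≤ D ^ (1 / 2 : ℝ) := by
    intro j hj
    have h1 : b ^ j ≤ M := Nat.pow_le_pow_right (by omega) hj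
    have h2 : 2 * (Cκ * B j) ≤ β ^ (M + 2) := by
      have h4 : B j ≤ β ^ M := pow_le_pow_right₀ hβ1 h1
      have h3 := hB1 j
      have h5 : 2 * Cκ ≤ β := by linarith
      calc 2 * (Cκ * B j) = (2 * Cκ) * B j := by ring
        _ ≤ β * β ^ M := by gcongr
        _ = β ^ (M + 1) := by rw [pow_succ]; ring
        _ ≤ β ^ (M + 2) := pow_le_pow_right₀ hβ1 (by omega)
    have h3 : (0 : ℝ) ≤ 2 * (Cκ * B j) := by have := hB1 j; positivity
    calc (2 * (Cκ * B j)) ^ (N ^ 2) ≤ (β ^ (M + 2)) ^ (N ^ 2) := pow_le_pow_left₀ h3 h2 _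
      _ = D ^ (δ * ((M + 2 : ℕ) : ℝ) * ((N ^ 2 : ℕ) : ℝ)) := by
          rw [hβ, ← Real.rpow_natCast, ← Real.rpow_natCast, ← Real.rpow_mul hDpos.le,
            ← Real.rpow_mul hDpos.le]
      _ ≤ D ^ (1 / 2 : ℝ) := by
          refine Real.rpow_le_rpow_of_exponent_le hD1' ?_
          rw [hδ, hq]
          push_cast
          rw [one_div, inv_mul_eq_div, div_mul_eq_mul_div, div_le_iff₀ (by positivity)]
          have h4 : (0 : ℝ) ≤ (M : ℝ) + 2 := by positivity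
          nlinarith
  have hhalf : D ^ (1 / 2 : ℝ) < D := by
    calc D ^ (1 / 2 : ℝ) < D ^ (1 : ℝ) := Real.rpow_lt_rpow_of_exponent_lt hDgt (by norm_num)
      _ = D := Real.rpow_one D
  have hCB1 : ∀ j, 1 ≤ Cκ * B j := fun j => one_le_mul_of_one_le_of_one_le hCκ1 (hB1 j)
  have hnot : ∀ j ≤ t, ∀ U : Subgroup Gal(L/ℚ), U ≤ fix E L → ¬ Small U (Cκ * B j) := by
    intro j hj U hU hsm
    obtain ⟨f⟩ := exists_hom' (E := E) hU
    have h1 := abs_discr_le_of_hom f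
    have h2 := small_disc_le hNL (hCB1 j) hsm
    have h3 := hscale j hj
    linarith
  obtain ⟨j, hj, N0, hN0n, hN0s, hN0l⟩ := dichotomy hcardG Cκ hCκL B
    (fun j => by have := hB1 j; linarith) hBmono (fun j hj => hnot j hj ⊥ bot_le)
  have hjT : j ≤ t := hj.le
  have hN0E : ¬ N0 ≤ fix E L := fun h => hnot j hjT N0 h hN0s
  -- the range of the primes
  set Bj := B j with hBj
  have hBj1 : 1 ≤ Bj := hB1 j
  set z : ℕ := ⌈A1 * Bj ^ (N ^ 2)⌉₊ with hz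
  have hBjN : 1 ≤ Bj ^ (N ^ 2) := one_le_pow₀ hBj1
  have hz1 : A1 * Bj ^ (N ^ 2) ≤ z := Nat.le_ceil _
  have hz2 : (z : ℝ) ≤ 2 * A1 * Bj ^ (N ^ 2) := by
    have h1 := Nat.ceil_lt_add_one (show (0 : ℝ) ≤ A1 * Bj ^ (N ^ 2) by positivity)
    have h2 : 1 ≤ A1 * Bj ^ (N ^ 2) := one_le_mul_of_one_le_of_one_le hA1a hBjN
    rw [← hz] at h1
    linarith
  have hzz0 : z0 ≤ z := by
    have h1 : (z0 : ℝ) ≤ z := by
      refine le_trans ?_ hz1
      nlinarith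
    exact_mod_cast h1
  have hdN0 := small_disc_le hNL (hCB1 j) hN0s
  have hzD : (2 * 6 ^ N) ^ 2 * 4 ^ (N + 1) * |(discr (fixedField N0) : ℝ)| ≤ z := by
    refine le_trans ?_ hz1
    calc (2 * 6 ^ N) ^ 2 * 4 ^ (N + 1) * |(discr (fixedField N0) : ℝ)|
        ≤ (2 * 6 ^ N) ^ 2 * 4 ^ (N + 1) * (2 * (Cκ * Bj)) ^ (N ^ 2) := by gcongr
      _ = ((2 * 6 ^ N) ^ 2 * 4 ^ (N + 1) * 2 ^ (N ^ 2)) * Cκ ^ (N ^ 2) * Bj ^ (N ^ 2) := by
          rw [mul_pow 2 (Cκ * Bj), mul_pow Cκ Bj]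
          ring
      _ ≤ A1 * Bj ^ (N ^ 2) := by
          refine mul_le_mul_of_nonneg_right ?_ (by positivity)
          rw [hA1]
          refine mul_le_mul_of_nonneg_right ?_ (by positivity)
          linarith
  obtain ⟨G0, hG0card, hG0⟩ := hcore E L hNL hgood N0 hN0n hN0E z hzz0 hzD
  -- the pigeonhole principle
  have hpig := pigeon (E := E) (K := K) (L := L) hnK hNL hl hNn (B := B (j + 1)) G0 (by
    intro p hp
    obtain ⟨_, h2, h3, _⟩ := hG0 p hp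
    have hpr : (p : ℝ) ≤ (z : ℝ) ^ v := by exact_mod_cast h2
    calc (150 * p : ℝ) ^ (l * n) ≤ (150 * (2 * A1 * Bj ^ (N ^ 2)) ^ v) ^ (l * n) := by
          have h4 : (p : ℝ) ≤ (2 * A1 * Bj ^ (N ^ 2)) ^ v := hpr.trans (by gcongr)
          gcongr
      _ = A2 * Bj ^ (N ^ 2 * v * (l * n)) := by
          rw [hA2, mul_pow (2 * A1) (Bj ^ (N ^ 2)) v, ← pow_mul, ← mul_assoc, mul_pow, ← pow_mul]
      _ ≤ A * Bj ^ a := by
          have h5 : A2 ≤ A := by linarith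
          have h6 : Bj ^ (N ^ 2 * v * (l * n)) ≤ Bj ^ a := pow_le_pow_right₀ hBj1 (by omega)
          gcongr
      _ ≤ B (j + 1) := hBstep j) (by
    intro p hp
    obtain ⟨_, _, h3, h4, U, hU1, hU2, hU3⟩ := hG0 p hp
    exact ⟨h3, h4, U, hU1, hN0l U hU2, hU3⟩)
  rw [← hSdef, ← hT] at hpig
  have hlogN0 : 2 * Real.log |(discr (fixedField N0) : ℝ)| ≤ Real.log D := by
    have h1 : |(discr (fixedField N0) : ℝ)| ≤ D ^ (1 / 2 : ℝ) := hdN0.trans (hscale j hjT)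
    have h2 := Real.log_le_log (by linarith [one_le_abs_discr (fixedField N0)]) h1
    rw [Real.log_rpow hDpos] at h2
    linarith
  have hzβ : β ≤ z := by
    refine le_trans ?_ hz1
    have h1 : Bj ≤ Bj ^ (N ^ 2) := by
      calc Bj = Bj ^ 1 := (pow_one _).symm
        _ ≤ Bj ^ (N ^ 2) := pow_le_pow_right₀ hBj1 (Nat.one_le_pow _ _ hN1)
    have h2 := hBβ j
    nlinarith
  have hG0card' : β / 8 ≤ G0.card := by
    linarith
  have hT0' : 0 ≤ T := Nat.cast_nonneg _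
  have h1 : β / 8 * T ≤ 2 ^ N * (Cb * R) := by
    calc β / 8 * T ≤ G0.card * T := by gcongr
      _ ≤ 2 ^ N * S := hpig
      _ ≤ 2 ^ N * (Cb * R) := by gcongr
  have h2 : T ≤ Cb * 2 ^ (N + 3) * R * β⁻¹ := by
    rw [← div_eq_mul_inv, le_div_iff₀ hDδ]
    have h3 : (2 : ℝ) ^ (N + 3) = 2 ^ N * 8 := by rw [pow_add]; norm_num
    rw [h3]
    linarith
  rw [hDδ']
  refine h2.trans ?_
  have h4 : (0 : ℝ) ≤ D1 ^ δ := by positivity
  have h5 : 0 ≤ β⁻¹ := by positivity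
  gcongr
  linarith

end Run7.h673.LT
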