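import Pool.Agent.Run7.h673.LT.Hom

/-! Small primes with a factor of degree one in a large subfield. -/

set_option autoImplicit false

namespace Run7.h673.LT

open NumberField Finset Pool.Agent.TH847.LS Pool.Agent.TH847.LG IntermediateField
open scoped Classical nonZeroDivisors Pointwise

variable {E K L : Type} [Field E] [NumberField E] [Field K] [NumberField K] [Field L]
  [NumberField L] [Algebra E K] [Algebra E L] [IsGalois ℚ L]

theorem fibre {n l Nn : ℕ} (hn : Module.finrank ℚ K = n) (hl : 1 ≤ l)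
    (hNn : 2 ^ n * √|(discr K : ℝ)| < Nn) {B : ℝ} (G : Finset ℕ) (hGB : ∀ p ∈ G, (150 * p : ℝ) ^ (l * n) ≤ B)
    (U : Subgroup Gal(L/ℚ)) (hU : fix E L ≤ U) (hlarge : ¬ Small U B)
    (hG : ∀ p ∈ G, p.Prime ∧ ¬ p ∣ (discr E).natAbs ∧
      ∃ P : Ideal (𝓞 (fixedField U)), Ideal.absNorm P = p) :
    (G.card : ℝ) * (Nat.card {c : ClassGroup (𝓞 K) // c ^ l = 1} : ℝ) ≤
      ∑ J ∈ FI K Nn, (1 + Real.log ((Nn : ℝ) / Ideal.absNorm J)) ^ n := by
  obtain ⟨f⟩ := exists_hom (E := E) hU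
  have hdisc : discr (fixedField U) ∣ discr E := discr_le_of_hom f
  let _ : Algebra (fixedField U) K := ((algebraMap E K).comp f).toAlgebra
  choose! P hP using fun (p : ℕ) (hp : p ∈ G) => (hG p hp).2.2
  refine evSub hn hl Nn hNn G P ?_ ?_
  · intro p hp
    refine ⟨(hG p hp).1, hP p hp, fun h => (hG p hp).2.1 ?_⟩
    exact h.trans (Int.natAbs_dvd_natAbs.mpr hdisc)
  · intro p hp β hβ
    obtain ⟨v, hv⟩ := exists_large hlarge β hβ
    refine ⟨v, lt_of_le_of_lt ?_ hv⟩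
    refine le_trans ?_ (hGB p hp)
    have hp1 : (1 : ℝ) ≤ 150 * p := by
      have : (1 : ℝ) ≤ p := by exact_mod_cast (hG p hp).1.one_lt.le
      linarith
    refine pow_le_pow_right₀ hp1 (Nat.mul_le_mul_left l ?_)
    have h1 := Module.finrank_mul_finrank ℚ (fixedField U) K
    rw [hn] at h1
    have h2 : 0 < Module.finrank ℚ (fixedField U) := Module.finrank_pos
    calc Module.finrank (fixedField U) K = 1 * Module.finrank (fixedField U) K := (one_mul _).symm
      _ ≤ Module.finrank ℚ (fixedField U) * Module.finrank (fixedField U) K :=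
          Nat.mul_le_mul_right _ h2
      _ = n := h1

theorem pigeon {n N l Nn : ℕ} (hn : Module.finrank ℚ K = n) (hN : Module.finrank ℚ L = N)
    (hl : 1 ≤ l) (hNn : 2 ^ n * √|(discr K : ℝ)| < Nn) {B : ℝ} (G : Finset ℕ)
    (hGB : ∀ p ∈ G, (150 * p : ℝ) ^ (l * n) ≤ B)
    (hG : ∀ p ∈ G, p.Prime ∧ ¬ p ∣ (discr E).natAbs ∧ ∃ U : Subgroup Gal(L/ℚ), fix E L ≤ U ∧
      ¬ Small U B ∧ ∃ P : Ideal (𝓞 (fixedField U)), Ideal.absNorm P = p) :
    (G.card : ℝ) * (Nat.card {c : ClassGroup (𝓞 K) // c ^ l = 1} : ℝ) ≤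
      2 ^ N * ∑ J ∈ FI K Nn, (1 + Real.log ((Nn : ℝ) / Ideal.absNorm J)) ^ n := by
  set T := (Nat.card {c : ClassGroup (𝓞 K) // c ^ l = 1} : ℝ) with hT
  set S := ∑ J ∈ FI K Nn, (1 + Real.log ((Nn : ℝ) / Ideal.absNorm J)) ^ n with hS
  have hft : Fintype (Subgroup Gal(L/ℚ)) := Fintype.ofFinite _
  choose! Uf hUf1 hUf2 hUf3 using fun (p : ℕ) (hp : p ∈ G) => (hG p hp).2.2
  have h1 : G.card = ∑ U : Subgroup Gal(L/ℚ), (G.filter (fun p => Uf p = U)).card :=
    Finset.card_eq_sum_card_fiberwise fun _ _ => Finset.mem_coe.mpr (Finset.mem_univ _)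
  have h2 : ∀ U : Subgroup Gal(L/ℚ), ((G.filter (fun p => Uf p = U)).card : ℝ) * T ≤ S := by
    intro U
    by_cases hne : (G.filter (fun p => Uf p = U)).Nonempty
    · obtain ⟨p0, hp0⟩ := hne
      rw [mem_filter] at hp0
      have hU1 : fix E L ≤ U := by rw [← hp0.2]; exact hUf1 p0 hp0.1
      have hU2 : ¬ Small U B := by rw [← hp0.2]; exact hUf2 p0 hp0.1
      refine fibre (E := E) hn hl hNn (G.filter (fun p => Uf p = U))
        (fun p hp => hGB p (Finset.mem_of_mem_filter p hp)) U hU1 hU2 ?_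
      intro p hp
      rw [mem_filter] at hp
      refine ⟨(hG p hp.1).1, (hG p hp.1).2.1, ?_⟩
      have h3 := hUf3 p hp.1
      rw [hp.2] at h3
      exact h3
    · rw [Finset.not_nonempty_iff_eq_empty] at hne
      rw [hne, Finset.card_empty, Nat.cast_zero, zero_mul]
      refine Finset.sum_nonneg fun J hJ => ?_
      rw [mem_FI] at hJ
      have hJ0 : (0 : ℝ) < Ideal.absNorm J := by exact_mod_cast absNorm_pos hJ.2
      have : 0 ≤ Real.log ((Nn : ℝ) / Ideal.absNorm J) := by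
        refine Real.log_nonneg ?_
        rw [le_div_iff₀ hJ0, one_mul]
        exact_mod_cast hJ.1
      positivity
  have hS0 : 0 ≤ S := by
    refine Finset.sum_nonneg fun J hJ => ?_
    rw [mem_FI] at hJ
    have hJ0 : (0 : ℝ) < Ideal.absNorm J := by exact_mod_cast absNorm_pos hJ.2
    have : 0 ≤ Real.log ((Nn : ℝ) / Ideal.absNorm J) := by
      refine Real.log_nonneg ?_
      rw [le_div_iff₀ hJ0, one_mul]
      exact_mod_cast hJ.1
    positivity
  have hcard : (Fintype.card (Subgroup Gal(L/ℚ)) : ℝ) ≤ 2 ^ N := by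
    have h3 := card_subgroup_le (G := Gal(L/ℚ))
    rw [IsGalois.card_aut_eq_finrank, hN, Nat.card_eq_fintype_card] at h3
    exact_mod_cast h3
  calc (G.card : ℝ) * T = ∑ U : Subgroup Gal(L/ℚ), ((G.filter (fun p => Uf p = U)).card : ℝ) * T := by
        rw [h1, Nat.cast_sum, Finset.sum_mul]
    _ ≤ ∑ _U : Subgroup Gal(L/ℚ), S := Finset.sum_le_sum fun U _ => h2 U
    _ = (Fintype.card (Subgroup Gal(L/ℚ)) : ℝ) * S := by
        rw [Finset.sum_const, Finset.card_univ, nsmul_eq_mul]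
    _ ≤ 2 ^ N * S := mul_le_mul_of_nonneg_right hcard hS0

end Run7.h673.LT
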