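import Pool.Agent.Run7.h673.LT.Box

/-! The number of ideals of large norm compared with the number of ideals of smaller norm. -/

set_option autoImplicit false

namespace Run7.h673.LT

open NumberField Finset Pool.Agent.TH847.LS Pool.Agent.TH847.LG NumberField.InfinitePlace
open scoped Classical nonZeroDivisors

variable {K : Type} [Field K] [NumberField K]

/-- two ideals are close if their quotient has a balanced generator -/
def Cl (I I' : Ideal (𝓞 K)) : Prop := ∃ a b : 𝓞 K, a ≠ 0 ∧ b ≠ 0 ∧
  Ideal.span {a} * I' = Ideal.span {b} * I ∧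
  ∀ w : InfinitePlace K, |Lw w (a : K) - Lw w (b : K)| < 1

theorem Cl.symm {I I' : Ideal (𝓞 K)} (h : Cl I I') : Cl I' I := by
  obtain ⟨a, b, ha, hb, h1, h2⟩ := h
  exact ⟨b, a, hb, ha, h1.symm, fun w => by rw [abs_sub_comm]; exact h2 w⟩

theorem Cl.refl (I : Ideal (𝓞 K)) : Cl I I :=
  ⟨1, 1, one_ne_zero, one_ne_zero, rfl, fun w => by rw [sub_self, abs_zero]; norm_num⟩

/-- a maximal set of ideals which are not close -/
theorem exists_maximal_sep (S : Finset (Ideal (𝓞 K))) : ∃ S0 ⊆ S,
    (∀ I ∈ S0, ∀ I' ∈ S0, Cl I I' → I = I') ∧ ∀ I ∈ S, ∃ I0 ∈ S0, Cl I0 I := by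
  let F := S.powerset.filter (fun S0 => ∀ I ∈ S0, ∀ I' ∈ S0, Cl I I' → I = I')
  have hF : F.Nonempty := ⟨∅, by
    rw [mem_filter]
    exact ⟨Finset.empty_mem_powerset _, fun I hI => absurd hI (Finset.notMem_empty _)⟩⟩
  obtain ⟨S0, hS0, hmax⟩ := Finset.exists_max_image F Finset.card hF
  rw [mem_filter, mem_powerset] at hS0
  refine ⟨S0, hS0.1, hS0.2, fun I hI => ?_⟩
  by_contra hcon
  push Not at hcon
  have hnot : I ∉ S0 := fun h => hcon I h (Cl.refl I)
  have h1 : insert I S0 ∈ F := by
    rw [mem_filter, mem_powerset]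
    refine ⟨Finset.insert_subset hI hS0.1, ?_⟩
    intro A hA B hB hAB
    rw [Finset.mem_insert] at hA hB
    rcases hA with rfl | hA <;> rcases hB with rfl | hB
    · rfl
    · exact absurd hAB.symm (hcon B hB)
    · exact absurd hAB (hcon A hA)
    · exact hS0.2 A hA B hB hAB
  have h2 := hmax _ h1
  rw [Finset.card_insert_of_notMem hnot] at h2
  omega

/-- the cofactor of an ideal in its norm -/
theorem exists_cof {I : Ideal (𝓞 K)} : ∃ b : Ideal (𝓞 K),
    I * b = Ideal.span {((Ideal.absNorm I : ℕ) : 𝓞 K)} := by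
  have h1 : I ∣ Ideal.span {((Ideal.absNorm I : ℕ) : 𝓞 K)} := by
    rw [Ideal.dvd_iff_le, Ideal.span_le, Set.singleton_subset_iff]
    exact Ideal.absNorm_mem I
  obtain ⟨b, hb⟩ := h1
  exact ⟨b, hb.symm⟩

/-- the cofactor -/
noncomputable def cof (I : Ideal (𝓞 K)) : Ideal (𝓞 K) := (exists_cof (I := I)).choose

theorem cof_spec (I : Ideal (𝓞 K)) :
    I * cof I = Ideal.span {((Ideal.absNorm I : ℕ) : 𝓞 K)} := (exists_cof (I := I)).choose_spec

theorem cof_ne {I : Ideal (𝓞 K)} (hI : I ≠ ⊥) : cof I ≠ ⊥ := by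
  intro h
  have h1 := cof_spec I
  rw [h, Ideal.mul_bot, eq_comm, Ideal.span_singleton_eq_bot] at h1
  have h2 := absNorm_pos hI
  have h3 : Ideal.absNorm I = 0 := by exact_mod_cast h1
  omega

theorem absNorm_cof {n : ℕ} (hn : Module.finrank ℚ K = n) {I : Ideal (𝓞 K)} :
    Ideal.absNorm I * Ideal.absNorm (cof I) = Ideal.absNorm I ^ n := by
  rw [← map_mul, cof_spec, Ideal.absNorm_span_natCast, RingOfIntegers.rank, hn]

theorem norm_abs_eq (h : 𝓞 K) :
    |((Algebra.norm ℚ (h : K) : ℚ) : ℝ)| = Ideal.absNorm (Ideal.span {h}) := by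
  rw [Ideal.absNorm_span_singleton, ← Algebra.coe_norm_int, Nat.cast_natAbs]
  push_cast
  rfl

/-- the elements of the cofactor belonging to close ideals -/
theorem close_card {n : ℕ} (hn : Module.finrank ℚ K = n) {X : ℝ}
    (S : Finset (Ideal (𝓞 K))) (hS : ∀ I ∈ S, I ≠ ⊥ ∧ (Ideal.absNorm I : ℝ) ≤ 2 * X)
    {I0 : Ideal (𝓞 K)} (hI0 : I0 ≠ ⊥) (hI0X : X < (Ideal.absNorm I0 : ℝ)) :
    (S.filter (fun I => Cl I0 I)).card ≤ (Bx (cof I0) (6 * Ideal.absNorm I0)).card := by
  have hn0 : 0 < n := by rw [← hn]; exact (Module.finrank_pos (R := ℚ) (M := K))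
  have hnr : (0 : ℝ) < n := by exact_mod_cast hn0
  set m := Ideal.absNorm I0 with hm
  have hm0 : 0 < m := absNorm_pos hI0
  have hmr : (0 : ℝ) < m := by exact_mod_cast hm0
  have hcne := cof_ne hI0
  have hcpos : (0 : ℝ) < Ideal.absNorm (cof I0) := by exact_mod_cast absNorm_pos hcne
  have key : ∀ I : Ideal (𝓞 K), I ∈ S → Cl I0 I →
      ∃ h : 𝓞 K, Ideal.span {h} = I * cof I0 ∧ ∀ w : InfinitePlace K, w (h : K) ≤ 6 * m := by
    intro I hI hcl
    obtain ⟨a, b, ha, hb, h1, h2⟩ := hcl
    have haK : (a : K) ≠ 0 := by exact_mod_cast ha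
    have hbK : (b : K) ≠ 0 := by exact_mod_cast hb
    have hmK : ((m : ℕ) : K) ≠ 0 := by exact_mod_cast hm0.ne'
    have e1 : Ideal.span {a} * (I * cof I0) = Ideal.span {b * (m : 𝓞 K)} := by
      rw [← mul_assoc, h1, mul_assoc, cof_spec, Ideal.span_singleton_mul_span_singleton]
    have hdvd : a ∣ b * (m : 𝓞 K) := by
      rw [← Ideal.span_singleton_le_span_singleton, ← e1]
      exact Ideal.mul_le_left
    obtain ⟨h, hh⟩ := hdvd
    have hspan : Ideal.span {h} = I * cof I0 := by
      rw [hh, ← Ideal.span_singleton_mul_span_singleton] at e1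
      have hne0 : Ideal.span {a} ≠ (0 : Ideal (𝓞 K)) := by
        rw [Ne, Ideal.zero_eq_bot, Ideal.span_singleton_eq_bot]
        exact ha
      exact (mul_left_cancel₀ hne0 e1).symm
    have hh0 : h ≠ 0 := by
      rintro rfl
      rw [mul_zero] at hh
      rcases mul_eq_zero.mp hh with h3 | h3
      · exact hb h3
      · have : m = 0 := by exact_mod_cast h3
        omega
    have hhK : (h : K) ≠ 0 := by exact_mod_cast hh0
    refine ⟨h, hspan, fun w => ?_⟩
    have hL : Lw w (h : K) < 1 := by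
      have h3 : Lw w ((b * (m : 𝓞 K) : 𝓞 K) : K) = Lw w ((a * h : 𝓞 K) : K) := by rw [hh]
      push_cast at h3
      rw [Lw_mul w hbK hmK, Lw_mul w haK hhK, Lw_natCast] at h3
      have := (abs_lt.mp (h2 w)).1
      linarith
    have hNh : |((Algebra.norm ℚ (h : K) : ℚ) : ℝ)| ≤ 2 * (m : ℝ) ^ n := by
      rw [norm_abs_eq, hspan, map_mul]
      push_cast
      have h4 : (m : ℝ) * Ideal.absNorm (cof I0) = (m : ℝ) ^ n := by
        exact_mod_cast absNorm_cof (I := I0) hn
      have h5 := (hS I hI).2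
      nlinarith
    have hNh0 := abs_pos.mpr (norm_ne_zero' hhK)
    unfold Lw at hL
    rw [hn] at hL
    have h6 : Real.log |((Algebra.norm ℚ (h : K) : ℚ) : ℝ)| / n ≤ Real.log 2 + Real.log m := by
      rw [div_le_iff₀ hnr]
      have h7 := Real.log_le_log hNh0 hNh
      rw [Real.log_mul (by norm_num) (pow_pos hmr n).ne', Real.log_pow] at h7
      have h8 : Real.log 2 ≤ Real.log 2 * n := by
        have : (1 : ℝ) ≤ n := by exact_mod_cast hn0
        have h9 : 0 ≤ Real.log 2 := Real.log_nonneg (by norm_num)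
        nlinarith
      linarith
    have h10 : Real.log (w (h : K)) ≤ Real.log (6 * m) := by
      have h11 : Real.log (6 * m : ℝ) = Real.log 3 + Real.log 2 + Real.log m := by
        rw [← Real.log_mul (by norm_num) (by norm_num), ← Real.log_mul (by norm_num) hmr.ne']
        norm_num
      have h12 : (1 : ℝ) ≤ Real.log 3 := by
        rw [Real.le_log_iff_exp_le (by norm_num)]
        exact Real.exp_one_lt_three.le
      linarith
    exact (Real.log_le_log_iff (w_pos w hhK) (by positivity)).mp h10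
  choose! g hg1 hg2 using key
  refine Finset.card_le_card_of_injOn g ?_ ?_
  · intro I hI
    rw [Finset.mem_coe, mem_filter] at hI
    rw [Finset.mem_coe, mem_Bx]
    refine ⟨?_, hg2 I hI.1 hI.2⟩
    have h1 : Ideal.span {g I} ≤ cof I0 := by
      rw [hg1 I hI.1 hI.2]
      exact Ideal.mul_le_right
    exact h1 (Ideal.mem_span_singleton_self _)
  · intro I hI I' hI' hII
    rw [Finset.mem_coe, mem_filter] at hI hI'
    have h1 := hg1 I hI.1 hI.2
    have h2 := hg1 I' hI'.1 hI'.2
    rw [hII, h2] at h1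
    exact (mul_right_cancel₀ (b := cof I0) (by rwa [Ne, Ideal.zero_eq_bot]) h1).symm

/-- the other factor of a principal ideal -/
noncomputable def oth (I0 : Ideal (𝓞 K)) (h : 𝓞 K) : Ideal (𝓞 K) :=
  if hJ : ∃ J : Ideal (𝓞 K), Ideal.span {h} = cof I0 * J then hJ.choose else ⊥

theorem oth_spec {I0 : Ideal (𝓞 K)} {h : 𝓞 K} (hh : h ∈ cof I0) :
    Ideal.span {h} = cof I0 * oth I0 h := by
  have h1 : ∃ J : Ideal (𝓞 K), Ideal.span {h} = cof I0 * J := by
    have : cof I0 ∣ Ideal.span {h} := by
      rw [Ideal.dvd_iff_le, Ideal.span_le, Set.singleton_subset_iff]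
      exact hh
    exact this
  rw [oth, dif_pos h1]
  exact h1.choose_spec

theorem log_mink {n : ℕ} (hn : Module.finrank ℚ K = n) {h : 𝓞 K} (h0 : h ≠ 0) (t : ℝ) :
    ∑ w : InfinitePlace K, (mult w : ℝ) * (Real.log t - Real.log (w (h : K))) =
      n * Real.log t - Real.log (Ideal.absNorm (Ideal.span {h}) : ℝ) := by
  have hK : (h : K) ≠ 0 := by exact_mod_cast h0
  rw [← norm_abs_eq, log_norm hK]
  have h3 : (∑ w : InfinitePlace K, (mult w : ℝ)) = n := by
    have := InfinitePlace.sum_mult_eq (K := K)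
    rw [hn] at this
    exact_mod_cast this
  simp only [mul_sub, Finset.sum_sub_distrib]
  rw [← Finset.sum_mul, h3]

/-- pairs of an ideal of a separated set and an element of a small box of its cofactor -/
theorem pairs_card {n : ℕ} (hn : Module.finrank ℚ K = n) (N : ℕ) {X lam : ℝ} (hX : 0 < X)
    (hlam : 0 < lam) (hN : 0 < N)
    (hlamn : lam ^ n * N = X) (S0 : Finset (Ideal (𝓞 K)))
    (hS : ∀ I ∈ S0, I ≠ ⊥ ∧ X < (Ideal.absNorm I : ℝ) ∧ (Ideal.absNorm I : ℝ) ≤ 2 * X)
    (hsep : ∀ I ∈ S0, ∀ I' ∈ S0, Cl I I' → I = I') :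
    ∑ I0 ∈ S0, (((Bx (cof I0) (6 * Ideal.absNorm I0 / lam)).erase 0).card : ℝ) ≤
      28 ^ n * ∑ J ∈ FI K (2 * 6 ^ n * N),
        (1 + 4 * Real.log (((2 * 6 ^ n * N : ℕ) : ℝ) / Ideal.absNorm J)) ^ n := by
  have hn0 : 0 < n := by rw [← hn]; exact (Module.finrank_pos (R := ℚ) (M := K))
  have hnr : (0 : ℝ) < n := by exact_mod_cast hn0
  have hNr : (0 : ℝ) < N := by exact_mod_cast hN
  set Nc : ℕ := 2 * 6 ^ n * N with hNc
  have hNcr : (0 : ℝ) < (Nc : ℝ) := by rw [hNc]; push_cast; positivity
  let t : Ideal (𝓞 K) → ℝ := fun I0 => 6 * Ideal.absNorm I0 / lam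
  have hmpos : ∀ I0 ∈ S0, (0 : ℝ) < Ideal.absNorm I0 := fun I0 h => hX.trans (hS I0 h).2.1
  have ht0 : ∀ I0 ∈ S0, 0 < t I0 := fun I0 h => by
    have := hmpos I0 h
    change 0 < 6 * (Ideal.absNorm I0 : ℝ) / lam
    positivity
  let T : Finset (Σ _ : Ideal (𝓞 K), 𝓞 K) := S0.sigma (fun I0 => (Bx (cof I0) (t I0)).erase 0)
  let Tg : Finset (Σ _ : Ideal (𝓞 K), (InfinitePlace K → ℕ)) := (FI K Nc).sigma (fun J =>
    Fintype.piFinset fun _ : InfinitePlace K => range (⌊4 * Real.log ((Nc : ℝ) / Ideal.absNorm J)⌋₊ + 1))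
  let f : (Σ _ : Ideal (𝓞 K), 𝓞 K) → (Σ _ : Ideal (𝓞 K), (InfinitePlace K → ℕ)) := fun x =>
    ⟨oth x.1 x.2, fun w => ⌊4 * (Real.log (t x.1) - Real.log (w (x.2 : K)))⌋₊⟩
  have hmemT : ∀ x ∈ T, x.1 ∈ S0 ∧ x.2 ≠ 0 ∧ x.2 ∈ cof x.1 ∧
      ∀ w : InfinitePlace K, w (x.2 : K) ≤ t x.1 := by
    intro x hx
    rw [Finset.mem_sigma, Finset.mem_erase, mem_Bx] at hx
    exact ⟨hx.1, hx.2.1, hx.2.2.1, hx.2.2.2⟩
  have hu0 : ∀ x ∈ T, ∀ w : InfinitePlace K,
      0 ≤ Real.log (t x.1) - Real.log (w (x.2 : K)) := by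
    intro x hx w
    obtain ⟨h1, h2, _, h4⟩ := hmemT x hx
    have := Real.log_le_log (w_pos w (by exact_mod_cast h2 : (x.2 : K) ≠ 0)) (h4 w)
    linarith
  have hothne : ∀ x ∈ T, oth x.1 x.2 ≠ ⊥ := by
    intro x hx h
    obtain ⟨_, h2, h3, _⟩ := hmemT x hx
    have := oth_spec h3
    rw [h, Ideal.mul_bot, Ideal.span_singleton_eq_bot] at this
    exact h2 this
  -- the sum of the coordinates
  have husum : ∀ x ∈ T, ∑ w : InfinitePlace K,
      (mult w : ℝ) * (Real.log (t x.1) - Real.log (w (x.2 : K))) ≤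
        Real.log ((Nc : ℝ) / Ideal.absNorm (oth x.1 x.2)) := by
    intro x hx
    obtain ⟨h1, h2, h3, _⟩ := hmemT x hx
    have hm := hmpos x.1 h1
    have hJ : (0 : ℝ) < Ideal.absNorm (oth x.1 x.2) := by exact_mod_cast absNorm_pos (hothne x hx)
    have hc : (0 : ℝ) < Ideal.absNorm (cof x.1) := by
      exact_mod_cast absNorm_pos (cof_ne (hS x.1 h1).1)
    have hcm : (Ideal.absNorm x.1 : ℝ) * Ideal.absNorm (cof x.1) = (Ideal.absNorm x.1 : ℝ) ^ n := by
      exact_mod_cast absNorm_cof (I := x.1) hn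
    rw [log_mink hn h2, oth_spec h3, map_mul, Nat.cast_mul, Real.log_mul hc.ne' hJ.ne',
      Real.log_div hNcr.ne' hJ.ne']
    have h5 : n * Real.log (t x.1) - Real.log (Ideal.absNorm (cof x.1) : ℝ) ≤ Real.log (Nc : ℝ) := by
      have h6 : n * Real.log (t x.1) = Real.log ((t x.1) ^ n) := by rw [Real.log_pow]
      rw [h6, ← Real.log_div (pow_pos (ht0 x.1 h1) n).ne' hc.ne']
      refine Real.log_le_log (by have := ht0 x.1 h1; positivity) ?_
      rw [div_le_iff₀ hc]
      change (6 * (Ideal.absNorm x.1 : ℝ) / lam) ^ n ≤ _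
      rw [div_pow, mul_pow, ← hcm, div_le_iff₀ (by positivity)]
      have h7 := (hS x.1 h1).2.2
      rw [← hlamn] at h7
      have h8 : (Nc : ℝ) = 2 * 6 ^ n * N := by rw [hNc]; push_cast; ring
      rw [h8]
      calc (6 : ℝ) ^ n * ((Ideal.absNorm x.1 : ℝ) * Ideal.absNorm (cof x.1))
          ≤ (6 : ℝ) ^ n * ((2 * (lam ^ n * N)) * Ideal.absNorm (cof x.1)) := by gcongr
        _ = _ := by ring
    linarith
  have hule : ∀ x ∈ T, ∀ w : InfinitePlace K, Real.log (t x.1) - Real.log (w (x.2 : K)) ≤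
      Real.log ((Nc : ℝ) / Ideal.absNorm (oth x.1 x.2)) := by
    intro x hx w
    refine le_trans ?_ (husum x hx)
    have h1 : Real.log (t x.1) - Real.log (w (x.2 : K)) ≤
        (mult w : ℝ) * (Real.log (t x.1) - Real.log (w (x.2 : K))) := by
      have : (1 : ℝ) ≤ mult w := by exact_mod_cast InfinitePlace.one_le_mult
      nlinarith [hu0 x hx w]
    refine h1.trans ?_
    exact Finset.single_le_sum
      (f := fun w : InfinitePlace K => (mult w : ℝ) * (Real.log (t x.1) - Real.log (w (x.2 : K))))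
      (fun w _ => mul_nonneg (Nat.cast_nonneg _) (hu0 x hx w)) (Finset.mem_univ w)
  have hmap : ∀ x ∈ T, f x ∈ Tg := by
    intro x hx
    change (⟨_, _⟩ : Σ _ : Ideal (𝓞 K), (InfinitePlace K → ℕ)) ∈ (FI K Nc).sigma _
    rw [Finset.mem_sigma]
    constructor
    · rw [mem_FI]
      refine ⟨?_, hothne x hx⟩
      have hJ : (0 : ℝ) < Ideal.absNorm (oth x.1 x.2) := by exact_mod_cast absNorm_pos (hothne x hx)
      have h0 : 0 ≤ Real.log ((Nc : ℝ) / Ideal.absNorm (oth x.1 x.2)) :=
        (Finset.sum_nonneg fun w _ => mul_nonneg (Nat.cast_nonneg _) (hu0 x hx w)).trans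
          (husum x hx)
      have h1 : 1 ≤ (Nc : ℝ) / Ideal.absNorm (oth x.1 x.2) := by
        by_contra hcon
        push Not at hcon
        have := Real.log_neg (by positivity) hcon
        linarith
      rw [le_div_iff₀ hJ, one_mul] at h1
      exact_mod_cast h1
    · rw [Fintype.mem_piFinset]
      intro w
      rw [mem_range]
      refine Nat.lt_succ_of_le (Nat.floor_le_floor ?_)
      have := hule x hx w
      linarith
  -- the fibres
  have hfib : ∀ y ∈ Tg, (T.filter (fun x => f x = y)).card ≤ 28 ^ n := by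
    intro y _
    by_cases hne : (T.filter (fun x => f x = y)).Nonempty
    · obtain ⟨x0, hx0⟩ := hne
      rw [mem_filter] at hx0
      obtain ⟨hx0T, hx0y⟩ := hx0
      obtain ⟨hI0, hh0, hc0, hw0⟩ := hmemT x0 hx0T
      have hh0K : (x0.2 : K) ≠ 0 := by exact_mod_cast hh0
      have key : ∀ x ∈ T, f x = y → x.1 = x0.1 ∧ ∃ ε : 𝓞 K, x.2 = ε * x0.2 ∧
          ε ∈ Bx (⊤ : Ideal (𝓞 K)) 2 := by
        intro x hx hxy
        obtain ⟨hI, hh, hc, hw⟩ := hmemT x hx
        have hhK : (x.2 : K) ≠ 0 := by exact_mod_cast hh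
        have hfe : f x = f x0 := by rw [hxy, hx0y]
        have hoth : oth x.1 x.2 = oth x0.1 x0.2 := congrArg Sigma.fst hfe
        have hfl : ∀ w : InfinitePlace K, ⌊4 * (Real.log (t x.1) - Real.log (w (x.2 : K)))⌋₊ =
            ⌊4 * (Real.log (t x0.1) - Real.log (w (x0.2 : K)))⌋₊ := by
          intro w
          have h1 : (f x).2 = (f x0).2 := by rw [hfe]
          exact congrFun h1 w
        have hdiff : ∀ w : InfinitePlace K,
            |(Real.log (t x.1) - Real.log (w (x.2 : K))) -
              (Real.log (t x0.1) - Real.log (w (x0.2 : K)))| < 1 / 4 := by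
          intro w
          have a1 := hu0 x hx w
          have a2 := hu0 x0 hx0T w
          have h1 := Nat.floor_le (mul_nonneg (by norm_num : (0 : ℝ) ≤ 4) a1)
          have h2 := Nat.lt_floor_add_one (4 * (Real.log (t x.1) - Real.log (w (x.2 : K))))
          have h3 := Nat.floor_le (mul_nonneg (by norm_num : (0 : ℝ) ≤ 4) a2)
          have h4 := Nat.lt_floor_add_one (4 * (Real.log (t x0.1) - Real.log (w (x0.2 : K))))
          rw [hfl w] at h1 h2
          rw [abs_lt]
          constructor <;> linarith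
        have hm := hmpos x.1 hI
        have hm0 := hmpos x0.1 hI0
        have hlt : ∀ I ∈ S0, Real.log (t I) =
            Real.log 6 + Real.log (Ideal.absNorm I) - Real.log lam := by
          intro I hI
          have := hmpos I hI
          change Real.log (6 * (Ideal.absNorm I : ℝ) / lam) = _
          rw [Real.log_div (by positivity) hlam.ne', Real.log_mul (by norm_num) this.ne']
        have hl2 : Real.log 2 < 0.6931471808 := Real.log_two_lt_d9
        have hlogm : ∀ I ∈ S0, Real.log X < Real.log (Ideal.absNorm I) ∧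
            Real.log (Ideal.absNorm I) ≤ Real.log X + Real.log 2 := by
          intro I hI
          refine ⟨Real.log_lt_log hX (hS I hI).2.1, ?_⟩
          have := Real.log_le_log (hmpos I hI) (hS I hI).2.2
          rw [Real.log_mul (by norm_num) hX.ne'] at this
          linarith
        -- closeness
        have hcl : Cl x.1 x0.1 := by
          refine ⟨x0.2 * ((Ideal.absNorm x.1 : ℕ) : 𝓞 K), x.2 * ((Ideal.absNorm x0.1 : ℕ) : 𝓞 K), ?_, ?_, ?_, ?_⟩
          · refine mul_ne_zero hh0 ?_
            have : Ideal.absNorm x.1 ≠ 0 := by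
              intro h; rw [h] at hm; simp at hm
            exact_mod_cast this
          · refine mul_ne_zero hh ?_
            have : Ideal.absNorm x0.1 ≠ 0 := by
              intro h; rw [h] at hm0; simp at hm0
            exact_mod_cast this
          · rw [← Ideal.span_singleton_mul_span_singleton, ← Ideal.span_singleton_mul_span_singleton,
              ← cof_spec, ← cof_spec, oth_spec hc, oth_spec hc0, hoth]
            ring
          · intro w
            push_cast
            have hmK : ((Ideal.absNorm x.1 : ℕ) : K) ≠ 0 := by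
              have : Ideal.absNorm x.1 ≠ 0 := by
                intro h; rw [h] at hm; simp at hm
              exact_mod_cast this
            have hm0K : ((Ideal.absNorm x0.1 : ℕ) : K) ≠ 0 := by
              have : Ideal.absNorm x0.1 ≠ 0 := by
                intro h; rw [h] at hm0; simp at hm0
              exact_mod_cast this
            rw [Lw_mul w hh0K hmK, Lw_mul w hhK hm0K, Lw_natCast, Lw_natCast, add_zero, add_zero]
            unfold Lw
            rw [hn, norm_abs_eq, norm_abs_eq, oth_spec hc, oth_spec hc0, map_mul, map_mul, hoth]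
            have hJ : (0 : ℝ) < Ideal.absNorm (oth x0.1 x0.2) := by
              exact_mod_cast absNorm_pos (hothne x0 hx0T)
            have hcc : (0 : ℝ) < Ideal.absNorm (cof x.1) := by
              exact_mod_cast absNorm_pos (cof_ne (hS x.1 hI).1)
            have hcc0 : (0 : ℝ) < Ideal.absNorm (cof x0.1) := by
              exact_mod_cast absNorm_pos (cof_ne (hS x0.1 hI0).1)
            rw [Nat.cast_mul, Nat.cast_mul, Real.log_mul hcc.ne' hJ.ne',
              Real.log_mul hcc0.ne' hJ.ne']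
            have e1 : Real.log (Ideal.absNorm x.1) + Real.log (Ideal.absNorm (cof x.1)) =
                n * Real.log (Ideal.absNorm x.1) := by
              rw [← Real.log_mul hm.ne' hcc.ne', ← Real.log_pow]
              congr 1
              exact_mod_cast absNorm_cof (I := x.1) hn
            have e2 : Real.log (Ideal.absNorm x0.1) + Real.log (Ideal.absNorm (cof x0.1)) =
                n * Real.log (Ideal.absNorm x0.1) := by
              rw [← Real.log_mul hm0.ne' hcc0.ne', ← Real.log_pow]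
              congr 1
              exact_mod_cast absNorm_cof (I := x0.1) hn
            have e3 : Real.log (Ideal.absNorm (cof x.1)) =
                n * Real.log (Ideal.absNorm x.1) - Real.log (Ideal.absNorm x.1) := by linarith
            have e4 : Real.log (Ideal.absNorm (cof x0.1)) =
                n * Real.log (Ideal.absNorm x0.1) - Real.log (Ideal.absNorm x0.1) := by linarith
            rw [e3, e4]
            have h1 := hdiff w
            rw [hlt x.1 hI, hlt x0.1 hI0] at h1
            have h2 := hlogm x.1 hI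
            have h3 := hlogm x0.1 hI0
            set A := Real.log (Ideal.absNorm x.1 : ℝ)
            set A0 := Real.log (Ideal.absNorm x0.1 : ℝ)
            set LJ := Real.log (Ideal.absNorm (oth x0.1 x0.2) : ℝ)
            have h4 : Real.log (w (x0.2 : K)) - (n * A0 - A0 + LJ) / n -
                (Real.log (w (x.2 : K)) - (n * A - A + LJ) / n) =
                ((Real.log 6 + A - Real.log lam) - Real.log (w (x.2 : K)) -
                  ((Real.log 6 + A0 - Real.log lam) - Real.log (w (x0.2 : K)))) - (A - A0) / n := by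
              field_simp
              ring
            rw [h4]
            have h5 : |(A - A0) / n| ≤ Real.log 2 := by
              rw [abs_div, abs_of_pos hnr, div_le_iff₀ hnr]
              have h6 : |A - A0| ≤ Real.log 2 := by
                rw [abs_le]
                constructor <;> linarith [h2.1, h2.2, h3.1, h3.2]
              have h7 : (1 : ℝ) ≤ n := by exact_mod_cast hn0
              have h8 : 0 ≤ Real.log 2 := Real.log_nonneg (by norm_num)
              nlinarith
            have h6 := abs_le.mp h5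
            have h7 := abs_lt.mp h1
            rw [abs_lt]
            constructor <;> linarith [h6.1, h6.2, h7.1, h7.2]
        have hIe : x.1 = x0.1 := hsep x.1 hI x0.1 hI0 hcl
        refine ⟨hIe, ?_⟩
        have hspan : Ideal.span {x.2} = Ideal.span {x0.2} := by
          rw [oth_spec hc, oth_spec hc0, hoth, hIe]
        have hdvd : x0.2 ∣ x.2 := by
          rw [← Ideal.span_singleton_le_span_singleton, hspan]
        obtain ⟨ε, hε⟩ := hdvd
        refine ⟨ε, by rw [hε, mul_comm], ?_⟩
        rw [mem_Bx]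
        refine ⟨Submodule.mem_top, fun w => ?_⟩
        have hεm : (x.2 : K) = (x0.2 : K) * (ε : K) := by
          rw [hε]
          exact map_mul (algebraMap (𝓞 K) K) _ _
        have hεK : (ε : K) ≠ 0 := by
          intro h
          apply hhK
          rw [hεm, h, mul_zero]
        have h1 := hdiff w
        rw [hIe, hεm, map_mul, Real.log_mul (w_pos w hh0K).ne' (w_pos w hεK).ne'] at h1
        have h2 := (abs_lt.mp h1).1
        have h3 : Real.log (w (ε : K)) ≤ Real.log 2 := by
          have := Real.log_two_gt_d9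
          linarith
        exact (Real.log_le_log_iff (w_pos w hεK) (by norm_num)).mp h3
      have hle : (T.filter (fun x => f x = y)).card ≤ (Bx (⊤ : Ideal (𝓞 K)) 2).card := by
        choose! hg1 ε hε1 hε2 using key
        refine Finset.card_le_card_of_injOn ε ?_ ?_
        · intro x hx
          rw [Finset.mem_coe, mem_filter] at hx
          exact hε2 x hx.1 hx.2
        · intro x hx x' hx' hxx
          rw [Finset.mem_coe, mem_filter] at hx hx'
          have h1 := hε1 x hx.1 hx.2
          have h2 := hε1 x' hx'.1 hx'.2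
          have h3 := hg1 x hx.1 hx.2
          have h4 := hg1 x' hx'.1 hx'.2
          rcases x with ⟨a, b⟩
          rcases x' with ⟨a', b'⟩
          simp only at h1 h2 h3 h4 hxx
          rw [hxx, ← h2] at h1
          rw [h3, ← h4, h1]
      have h2 : ((Bx (⊤ : Ideal (𝓞 K)) 2).card : ℝ) ≤ ((28 ^ n : ℕ) : ℝ) := by
        push_cast
        exact box_two hn
      exact hle.trans (by exact_mod_cast h2)
    · rw [Finset.not_nonempty_iff_eq_empty] at hne
      rw [hne]
      exact Nat.zero_le _
  have h1 := Finset.card_le_mul_card_image_of_maps_to hmap (28 ^ n) hfib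
  have h2 : ∑ I0 ∈ S0, (((Bx (cof I0) (6 * Ideal.absNorm I0 / lam)).erase 0).card : ℝ) =
      (T.card : ℝ) := by
    change _ = (((S0.sigma (fun I0 => (Bx (cof I0) (t I0)).erase 0)).card : ℕ) : ℝ)
    rw [Finset.card_sigma]
    push_cast
    rfl
  rw [h2]
  have h3 : (T.card : ℝ) ≤ 28 ^ n * (Tg.card : ℝ) := by exact_mod_cast h1
  refine h3.trans ?_
  refine mul_le_mul_of_nonneg_left ?_ (by positivity)
  change (((FI K Nc).sigma _).card : ℝ) ≤ _
  rw [Finset.card_sigma]
  push_cast
  refine Finset.sum_le_sum fun J hJ => ?_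
  rw [mem_FI] at hJ
  have hJ0 : (0 : ℝ) < Ideal.absNorm J := by exact_mod_cast absNorm_pos hJ.2
  have hL0 : 0 ≤ Real.log ((Nc : ℝ) / Ideal.absNorm J) := by
    refine Real.log_nonneg ?_
    rw [le_div_iff₀ hJ0, one_mul]
    exact_mod_cast hJ.1
  rw [Fintype.card_piFinset, Finset.prod_const, Finset.card_range, Finset.card_univ]
  have h4 : Fintype.card (InfinitePlace K) ≤ n := by
    rw [← hn, ← InfinitePlace.sum_mult_eq (K := K), Fintype.card_eq_sum_ones]
    exact Finset.sum_le_sum fun w _ => Nat.succ_le_of_lt InfinitePlace.mult_pos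
  push_cast
  calc ((⌊4 * Real.log ((Nc : ℝ) / Ideal.absNorm J)⌋₊ : ℝ) + 1) ^ Fintype.card (InfinitePlace K)
      ≤ ((⌊4 * Real.log ((Nc : ℝ) / Ideal.absNorm J)⌋₊ : ℝ) + 1) ^ n := by
        refine pow_le_pow_right₀ ?_ h4
        have : (0 : ℝ) ≤ (⌊4 * Real.log ((Nc : ℝ) / Ideal.absNorm J)⌋₊ : ℝ) := by positivity
        linarith
    _ ≤ _ := by
        refine pow_le_pow_left₀ (by positivity) ?_ n
        have := Nat.floor_le (mul_nonneg (by norm_num : (0 : ℝ) ≤ 4) hL0)
        linarith

end Run7.h673.LT
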