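import Pool.Agent.Run7.h673.LT.Reg

/-! The number of ideals of large norm compared with the number of ideals of smaller norm. -/

set_option autoImplicit false

namespace Run7.h673.LT

open NumberField Finset Pool.Agent.TH847.LS Pool.Agent.TH847.LG NumberField.InfinitePlace
open scoped Classical nonZeroDivisors

variable {K : Type} [Field K] [NumberField K]

/-- weighted number of the ideals of norm at most `m` -/
noncomputable def WW (K : Type) [Field K] [NumberField K] (n m : ℕ) : ℝ :=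
  ∑ J ∈ FI K m, (1 + 4 * Real.log ((m : ℝ) / Ideal.absNorm J)) ^ n

/-- the number of ideals of norm between `X` and `2 X` -/
theorem count_shell {n : ℕ} (hn : Module.finrank ℚ K = n) (N : ℕ)
    (hN : 2 ^ n * √|(discr K : ℝ)| < N) {X : ℝ} (hX : (N : ℝ) ≤ X) (S : Finset (Ideal (𝓞 K)))
    (hS : ∀ I ∈ S, I ≠ ⊥ ∧ X < (Ideal.absNorm I : ℝ) ∧ (Ideal.absNorm I : ℝ) ≤ 2 * X) :
    (S.card : ℝ) ≤ 2 * 196 ^ n * (X / N) * WW K n (2 * 6 ^ n * N) := by
  have hn0 : n ≠ 0 := by rw [← hn]; exact (Module.finrank_pos (R := ℚ) (M := K)).ne'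
  have hNr : (0 : ℝ) < N := lt_of_le_of_lt (by positivity) hN
  have hN0 : 0 < N := by exact_mod_cast hNr
  have hX0 : 0 < X := hNr.trans_le hX
  set lam : ℝ := (X / N) ^ ((n : ℝ)⁻¹) with hlam
  have hq1 : 1 ≤ X / N := by rw [le_div_iff₀ hNr, one_mul]; exact hX
  have hlam1 : 1 ≤ lam := Real.one_le_rpow hq1 (by positivity)
  have hlam0 : 0 < lam := by linarith
  have hlamn : lam ^ n = X / N := by
    rw [hlam, ← Real.rpow_natCast, ← Real.rpow_mul (by linarith), inv_mul_cancel₀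
      (by exact_mod_cast hn0), Real.rpow_one]
  have hlamN : lam ^ n * N = X := by
    rw [hlamn]
    field_simp
  obtain ⟨S0, hS0, hsep, hcov⟩ := exists_maximal_sep S
  have h1 : S.card ≤ ∑ I0 ∈ S0, (S.filter (fun I => Cl I0 I)).card := by
    refine le_trans (Finset.card_le_card ?_) Finset.card_biUnion_le
    intro I hI
    obtain ⟨I0, hI0, hcl⟩ := hcov I hI
    rw [Finset.mem_biUnion]
    exact ⟨I0, hI0, by rw [mem_filter]; exact ⟨hI, hcl⟩⟩
  have h2 : ∀ I0 ∈ S0, ((S.filter (fun I => Cl I0 I)).card : ℝ) ≤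
      2 * 7 ^ n * (X / N) * (((Bx (cof I0) (6 * Ideal.absNorm I0 / lam)).erase 0).card : ℝ) := by
    intro I0 hI0
    have hI := hS I0 (hS0 hI0)
    have hm : (0 : ℝ) < Ideal.absNorm I0 := hX0.trans hI.2.1
    have h3 : ((S.filter (fun I => Cl I0 I)).card : ℝ) ≤
        ((Bx (cof I0) (6 * Ideal.absNorm I0)).card : ℝ) := by
      exact_mod_cast close_card hn S (fun I hI => ⟨(hS I hI).1, (hS I hI).2.2⟩) hI.1 hI.2.1
    set t : ℝ := 6 * Ideal.absNorm I0 / lam with ht
    have ht0 : 0 < t := by positivity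
    have h4 := box_scale hn (cof I0) ht0 hlam1
    have h5 : lam * t = 6 * Ideal.absNorm I0 := by rw [ht]; field_simp
    rw [h5, mul_pow, hlamn] at h4
    -- a nonzero element
    have hcne := cof_ne hI.1
    obtain ⟨a, ha, ha0, haw⟩ := mink hn ⟨cof I0, mem_nonZeroDivisors_of_ne_zero hcne⟩ N hN
    have hcm : (Ideal.absNorm I0 : ℝ) * Ideal.absNorm (cof I0) = (Ideal.absNorm I0 : ℝ) ^ n := by
      exact_mod_cast absNorm_cof (I := I0) hn
    have hamem : a ∈ Bx (cof I0) t := by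
      rw [mem_Bx]
      refine ⟨ha, fun w => ?_⟩
      have h6 := haw w
      refine (lt_of_pow_lt_pow_left₀ n ht0.le (h6.trans_le ?_)).le
      change (N : ℝ) * Ideal.absNorm (cof I0) ≤ _
      rw [ht, div_pow, hlamn, mul_pow, ← hcm, le_div_iff₀ (by positivity)]
      have h7 : (1 : ℝ) ≤ 6 ^ n := one_le_pow₀ (by norm_num)
      have h8 : (0 : ℝ) ≤ Ideal.absNorm (cof I0) := Nat.cast_nonneg _
      calc (N : ℝ) * Ideal.absNorm (cof I0) * (X / N) = 1 * (X * Ideal.absNorm (cof I0)) := by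
            field_simp
        _ ≤ 6 ^ n * (Ideal.absNorm I0 * Ideal.absNorm (cof I0)) := by
            gcongr
            exact hI.2.1.le
    have h9 : (Bx (cof I0) t).card ≤ 2 * ((Bx (cof I0) t).erase 0).card := by
      have h10 : 0 < ((Bx (cof I0) t).erase 0).card :=
        Finset.card_pos.mpr ⟨a, Finset.mem_erase.mpr ⟨ha0, hamem⟩⟩
      have h11 := Finset.pred_card_le_card_erase (s := Bx (cof I0) t) (a := (0 : 𝓞 K))
      omega
    have h9' : ((Bx (cof I0) t).card : ℝ) ≤ 2 * (((Bx (cof I0) t).erase 0).card : ℝ) := by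
      exact_mod_cast h9
    calc ((S.filter (fun I => Cl I0 I)).card : ℝ)
        ≤ (7 ^ n * (X / N)) * ((Bx (cof I0) t).card : ℝ) := h3.trans h4
      _ ≤ (7 ^ n * (X / N)) * (2 * (((Bx (cof I0) t).erase 0).card : ℝ)) := by
          refine mul_le_mul_of_nonneg_left h9' ?_
          positivity
      _ = _ := by ring
  have h3 := pairs_card hn N hX0 hlam0 hN0 hlamN S0
    (fun I hI => ⟨(hS I (hS0 hI)).1, (hS I (hS0 hI)).2⟩) hsep
  calc (S.card : ℝ) ≤ ∑ I0 ∈ S0, ((S.filter (fun I => Cl I0 I)).card : ℝ) := by exact_mod_cast h1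
    _ ≤ ∑ I0 ∈ S0, 2 * 7 ^ n * (X / N) *
        (((Bx (cof I0) (6 * Ideal.absNorm I0 / lam)).erase 0).card : ℝ) := Finset.sum_le_sum h2
    _ = 2 * 7 ^ n * (X / N) *
        ∑ I0 ∈ S0, (((Bx (cof I0) (6 * Ideal.absNorm I0 / lam)).erase 0).card : ℝ) := by
        rw [Finset.mul_sum]
    _ ≤ 2 * 7 ^ n * (X / N) * (28 ^ n * WW K n (2 * 6 ^ n * N)) := by
        refine mul_le_mul_of_nonneg_left h3 ?_
        positivity
    _ = _ := by
        have : (196 : ℝ) ^ n = 7 ^ n * 28 ^ n := by rw [← mul_pow]; norm_num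
        rw [this]
        ring

end Run7.h673.LT
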