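import Pool.Agent.Run7.h673.LT.Base

/-! Subfields generated by small integers. -/

set_option autoImplicit false

namespace Run7.h673.LT

open NumberField Finset Pool.Agent.TH847.LS Pool.Agent.TH847.LG
open scoped Classical nonZeroDivisors Pointwise

variable {L : Type} [Field L] [NumberField L]

/-- the fixed field of `U` is generated by an integer all absolute values of which are at most `B` -/
def Small (U : Subgroup Gal(L/ℚ)) (B : ℝ) : Prop :=
  ∃ θ : 𝓞 L, (∀ g : Gal(L/ℚ), g (θ : L) = θ ↔ g ∈ U) ∧ ∀ w : InfinitePlace L, w (θ : L) ≤ B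

theorem Small.mono {U : Subgroup Gal(L/ℚ)} {B B' : ℝ} (h : Small U B) (hB : B ≤ B') :
    Small U B' := by
  obtain ⟨θ, h1, h2⟩ := h
  exact ⟨θ, h1, fun w => (h2 w).trans hB⟩

theorem small_top {B : ℝ} (hB : 0 ≤ B) : Small (⊤ : Subgroup Gal(L/ℚ)) B := by
  refine ⟨0, fun g => ?_, fun w => ?_⟩
  · simp
  · simpa using hB

theorem Small.inf {U1 U2 : Subgroup Gal(L/ℚ)} {B : ℝ} (_hB : 0 ≤ B) (h1 : Small U1 B)
    (h2 : Small U2 B) : Small (U1 ⊓ U2) ((1 + Nat.card (Subgroup Gal(L/ℚ))) * B) := by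
  obtain ⟨θ1, a1, b1⟩ := h1
  obtain ⟨θ2, a2, b2⟩ := h2
  set κ := Nat.card (Subgroup Gal(L/ℚ)) with hκ
  have hft : Fintype (Subgroup Gal(L/ℚ)) := Fintype.ofFinite _
  let f : Fin (κ + 1) → Subgroup Gal(L/ℚ) := fun j =>
    MulAction.stabilizer Gal(L/ℚ) ((θ1 : L) + ((j : ℕ) : L) * θ2)
  have hcard : Fintype.card (Subgroup Gal(L/ℚ)) < Fintype.card (Fin (κ + 1)) := by
    rw [Fintype.card_fin, hκ, Nat.card_eq_fintype_card]
    exact Nat.lt_succ_self _
  obtain ⟨j, j', hne, hf⟩ := Fintype.exists_ne_map_eq_of_card_lt f hcard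
  have hmem : ∀ (i : Fin (κ + 1)) (g : Gal(L/ℚ)), g ∈ f i ↔
      g (θ1 : L) + ((i : ℕ) : L) * g (θ2 : L) = (θ1 : L) + ((i : ℕ) : L) * θ2 := by
    intro i g
    change g ∈ MulAction.stabilizer Gal(L/ℚ) ((θ1 : L) + ((i : ℕ) : L) * θ2) ↔ _
    rw [MulAction.mem_stabilizer_iff]
    change g ((θ1 : L) + ((i : ℕ) : L) * θ2) = _ ↔ _
    rw [map_add, map_mul, map_natCast]
  have hjj : ((j : ℕ) : L) - ((j' : ℕ) : L) ≠ 0 := by
    rw [sub_ne_zero]
    intro h
    apply hne
    ext
    exact_mod_cast h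
  refine ⟨θ1 + ((j : ℕ) : 𝓞 L) * θ2, fun g => ?_, fun w => ?_⟩
  · have e : ((θ1 + ((j : ℕ) : 𝓞 L) * θ2 : 𝓞 L) : L) = (θ1 : L) + ((j : ℕ) : L) * θ2 := by
      push_cast
      rfl
    rw [e, map_add, map_mul, map_natCast, ← hmem, Subgroup.mem_inf]
    constructor
    · intro hg
      have hg' : g ∈ f j' := by rw [← hf]; exact hg
      rw [hmem] at hg hg'
      have h3 : (((j : ℕ) : L) - ((j' : ℕ) : L)) * (g (θ2 : L) - θ2) = 0 := by
        linear_combination hg - hg'
      have h4 : g (θ2 : L) = θ2 := by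
        rcases mul_eq_zero.mp h3 with h | h
        · exact absurd h hjj
        · exact sub_eq_zero.mp h
      have h5 : g (θ1 : L) = θ1 := by
        rw [h4] at hg
        exact add_right_cancel hg
      exact ⟨(a1 g).mp h5, (a2 g).mp h4⟩
    · rintro ⟨h3, h4⟩
      rw [hmem, (a1 g).mpr h3, (a2 g).mpr h4]
  · have e : ((θ1 + ((j : ℕ) : 𝓞 L) * θ2 : 𝓞 L) : L) = (θ1 : L) + ((j : ℕ) : L) * θ2 := by
      push_cast
      rfl
    rw [e]
    have hj : (((j : ℕ)) : ℝ) ≤ κ := by
      have := j.2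
      exact_mod_cast Nat.lt_succ_iff.mp this
    have hwj : w (((j : ℕ) : L)) = ((j : ℕ) : ℝ) := by
      rw [← InfinitePlace.norm_embedding_eq, map_natCast, Complex.norm_natCast]
    calc w ((θ1 : L) + ((j : ℕ) : L) * θ2) ≤ w (θ1 : L) + w (((j : ℕ) : L) * θ2) :=
          AbsoluteValue.add_le w.1 _ _
      _ = w (θ1 : L) + ((j : ℕ) : ℝ) * w (θ2 : L) := by rw [map_mul, hwj]
      _ ≤ B + κ * B := by
          have h3 := b1 w
          have h4 := b2 w
          have h5 : 0 ≤ w (θ2 : L) := apply_nonneg _ _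
          have h6 : ((j : ℕ) : ℝ) * w (θ2 : L) ≤ κ * B := by
            have : (0 : ℝ) ≤ κ := Nat.cast_nonneg _
            calc ((j : ℕ) : ℝ) * w (θ2 : L) ≤ κ * w (θ2 : L) := by gcongr
              _ ≤ κ * B := by gcongr
          linarith
      _ = _ := by ring

theorem Small.conj {U : Subgroup Gal(L/ℚ)} {B : ℝ} (h : Small U B) (g : Gal(L/ℚ)) :
    Small (U.map (MulAut.conj g).toMonoidHom) B := by
  obtain ⟨θ, h1, h2⟩ := h
  refine ⟨g • θ, fun k => ?_, fun w => ?_⟩
  · have e : ((g • θ : 𝓞 L) : L) = g (θ : L) := rfl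
    rw [e, Subgroup.mem_map]
    constructor
    · intro hk
      refine ⟨g⁻¹ * k * g, ?_, ?_⟩
      · rw [← h1]
        rw [AlgEquiv.mul_apply, AlgEquiv.mul_apply, hk]
        exact g.symm_apply_apply _
      · simp [MulAut.conj_apply]
        group
    · rintro ⟨u, hu, rfl⟩
      have h3 := (h1 u).mpr hu
      have e2 : ((MulAut.conj g).toMonoidHom u) = g * u * g⁻¹ := by simp [MulAut.conj_apply]
      rw [e2, AlgEquiv.mul_apply, AlgEquiv.mul_apply]
      have e3 : g⁻¹ (g (θ : L)) = (θ : L) := g.symm_apply_apply _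
      rw [e3, h3]
  · have e : ((g • θ : 𝓞 L) : L) = g (θ : L) := rfl
    rw [e]
    have := h2 (w.comap (g : L →+* L))
    rw [InfinitePlace.comap_apply] at this
    exact this

theorem Small.finset_inf {B : ℝ} (hB : 0 ≤ B) (S : Finset (Subgroup Gal(L/ℚ)))
    (hS : ∀ U ∈ S, Small U B) :
    Small (S.inf id) ((1 + Nat.card (Subgroup Gal(L/ℚ))) ^ S.card * B) := by
  induction S using Finset.induction_on with
  | empty =>
    rw [Finset.inf_empty, Finset.card_empty, pow_zero, one_mul]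
    exact small_top hB
  | insert U S hU ih =>
    have h1 := ih fun V hV => hS V (Finset.mem_insert_of_mem hV)
    have h2 := hS U (Finset.mem_insert_self U S)
    rw [Finset.inf_insert, Finset.card_insert_of_notMem hU, id]
    set κ : ℝ := (Nat.card (Subgroup Gal(L/ℚ)) : ℝ) with hκ
    have hκ0 : 0 ≤ κ := Nat.cast_nonneg _
    have h3 : B ≤ (1 + κ) ^ S.card * B := by
      have : 1 ≤ (1 + κ) ^ S.card := one_le_pow₀ (by linarith)
      nlinarith
    refine (Small.inf (by positivity) (h2.mono h3) h1).mono (le_of_eq ?_)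
    rw [pow_succ]
    ring

/-- the dichotomy for subfields -/
theorem dichotomy {N : ℕ} (hN : Nat.card Gal(L/ℚ) = N) (C : ℝ)
    (hC : (1 + Nat.card (Subgroup Gal(L/ℚ)) : ℝ) ^ Nat.card (Subgroup Gal(L/ℚ)) ≤ C)
    (B : ℕ → ℝ) (hB0 : ∀ j, 0 ≤ B j) (hBm : Monotone B)
    (hbot : ∀ j ≤ Nat.log 2 N, ¬ Small (⊥ : Subgroup Gal(L/ℚ)) (C * B j)) :
    ∃ j < Nat.log 2 N, ∃ N0 : Subgroup Gal(L/ℚ), N0.Normal ∧
      Small N0 (C * B j) ∧ ∀ U : Subgroup Gal(L/ℚ), ¬ N0 ≤ U → ¬ Small U (B (j + 1)) := by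
  set κ := Nat.card (Subgroup Gal(L/ℚ)) with hκ
  have hft : Fintype (Subgroup Gal(L/ℚ)) := Fintype.ofFinite _
  let S : ℕ → Finset (Subgroup Gal(L/ℚ)) := fun j => Finset.univ.filter (fun U => Small U (B j))
  have hmemS : ∀ j U, U ∈ S j ↔ Small U (B j) := by
    intro j U
    change U ∈ Finset.univ.filter (fun U => Small U (B j)) ↔ _
    rw [mem_filter]
    simp
  have hSmono : ∀ j, S j ⊆ S (j + 1) := by
    intro j U hU
    rw [hmemS] at hU ⊢
    exact hU.mono (hBm (Nat.le_succ j))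
  let M : ℕ → Subgroup Gal(L/ℚ) := fun j => (S j).inf id
  have hMle : ∀ j, M (j + 1) ≤ M j := fun j => Finset.inf_mono (hSmono j)
  have hMS : ∀ j, Small (M j) (C * B j) := by
    intro j
    refine (Small.finset_inf (hB0 j) (S j) fun U hU => (hmemS j U).mp hU).mono ?_
    refine mul_le_mul_of_nonneg_right (le_trans ?_ hC) (hB0 j)
    refine pow_le_pow_right₀ ?_ ?_
    · have : (0 : ℝ) ≤ (κ : ℝ) := Nat.cast_nonneg _
      linarith
    · rw [hκ, Nat.card_eq_fintype_card]
      exact Finset.card_le_univ _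
  have hMne : ∀ j ≤ Nat.log 2 N, M j ≠ ⊥ := by
    intro j hj h
    have := hMS j
    rw [h] at this
    exact hbot j hj this
  have hN0 : 0 < N := by rw [← hN]; exact Nat.card_pos
  have hex : ∃ j < Nat.log 2 N, M (j + 1) = M j := by
    by_contra hcon
    push Not at hcon
    have h1 : ∀ j ≤ Nat.log 2 N, 2 ^ j * Nat.card (M j) ≤ N := by
      intro j
      induction j with
      | zero =>
        intro _
        rw [pow_zero, one_mul, ← hN]
        exact Subgroup.card_le_card_group _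
      | succ j ih =>
        intro hj
        have h2 := ih (by omega)
        have h3 := hcon j (by omega)
        have h4 : Nat.card (M (j + 1)) ∣ Nat.card (M j) := Subgroup.card_dvd_of_le (hMle j)
        have h5 : Nat.card (M (j + 1)) ≠ Nat.card (M j) := by
          intro h
          exact h3 (Subgroup.eq_of_le_of_card_ge (hMle j) h.ge)
        obtain ⟨k, hk⟩ := h4
        have hpos : 0 < Nat.card (M j) := Nat.card_pos
        have hk2 : 2 ≤ k := by
          rcases Nat.lt_or_ge k 2 with h | h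
          · interval_cases k
            · omega
            · rw [mul_one] at hk
              exact absurd hk.symm h5
          · exact h
        calc 2 ^ (j + 1) * Nat.card (M (j + 1)) = 2 ^ j * (Nat.card (M (j + 1)) * 2) := by
              rw [pow_succ]; ring
          _ ≤ 2 ^ j * (Nat.card (M (j + 1)) * k) := by gcongr
          _ = 2 ^ j * Nat.card (M j) := by rw [← hk]
          _ ≤ N := h2
    have h2 := h1 (Nat.log 2 N) le_rfl
    have h3 : N < 2 ^ (Nat.log 2 N + 1) := Nat.lt_pow_succ_log_self (by norm_num) N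
    have h4 : 2 ≤ Nat.card (M (Nat.log 2 N)) := by
      by_contra hlt
      have hpos : 0 < Nat.card (M (Nat.log 2 N)) := Nat.card_pos
      have h5 : Nat.card (M (Nat.log 2 N)) = 1 := by omega
      exact hMne _ le_rfl (Subgroup.card_eq_one.mp h5)
    rw [pow_succ] at h3
    have h5 : 2 ^ Nat.log 2 N * 2 ≤ 2 ^ Nat.log 2 N * Nat.card (M (Nat.log 2 N)) :=
      Nat.mul_le_mul_left _ h4
    omega
  obtain ⟨j, hj, hMj⟩ := hex
  refine ⟨j, hj, M j, ?_, hMS j, ?_⟩
  · constructor
    intro n hn g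
    have h1 : ∀ U ∈ S j, g * n * g⁻¹ ∈ U := by
      intro U hU
      have h2 : U.map (MulAut.conj g⁻¹).toMonoidHom ∈ S j :=
        (hmemS j _).mpr (((hmemS j U).mp hU).conj g⁻¹)
      have h3 : M j ≤ U.map (MulAut.conj g⁻¹).toMonoidHom := Finset.inf_le (f := id) h2
      have h4 := h3 hn
      rw [Subgroup.mem_map] at h4
      obtain ⟨u, hu, hun⟩ := h4
      have h5 : g * n * g⁻¹ = u := by
        rw [← hun]
        simp
        group
      rw [h5]
      exact hu
    change g * n * g⁻¹ ∈ (S j).inf id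
    have h6 : Subgroup.zpowers (g * n * g⁻¹) ≤ (S j).inf id := by
      refine Finset.le_inf fun U hU => ?_
      rw [Subgroup.zpowers_le]
      exact h1 U hU
    exact h6 (Subgroup.mem_zpowers _)
  · intro U hU hsm
    have h1 : U ∈ S (j + 1) := (hmemS _ _).mpr hsm
    have h2 : M (j + 1) ≤ U := Finset.inf_le (f := id) h1
    rw [hMj] at h2
    exact hU h2

end Run7.h673.LT
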