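import Pool.Agent.Run7.h673.LT.Avg
import Pool.Agent.Helper923.HMertens

/-! Many primes do not split completely. -/

set_option autoImplicit false

namespace Run7.h673.LT

open NumberField Finset Pool.Agent.TH847.LS Pool.Agent.TH847.LG NumberField.InfinitePlace
open scoped Classical nonZeroDivisors

variable {F : Type} [Field F] [NumberField F]

/-- the prime ideals of degree one with norm in `(z, Y]` -/
noncomputable def PP (F : Type) [Field F] [NumberField F] (z Y : ℕ) : Finset (Ideal (𝓞 F)) :=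
  (FI F Y).filter (fun P => z < Ideal.absNorm P ∧ (Ideal.absNorm P).Prime)

theorem mem_PP {z Y : ℕ} {P : Ideal (𝓞 F)} :
    P ∈ PP F z Y ↔ Ideal.absNorm P ≤ Y ∧ P ≠ ⊥ ∧ z < Ideal.absNorm P ∧ (Ideal.absNorm P).Prime := by
  rw [PP, mem_filter, mem_FI]
  tauto

theorem PP_prime {z Y : ℕ} {P : Ideal (𝓞 F)} (h : P ∈ PP F z Y) : Prime P := by
  rw [mem_PP] at h
  have h1 : P.IsPrime := Ideal.isPrime_of_irreducible_absNorm h.2.2.2
  exact Ideal.prime_of_isPrime h.2.1 h1

/-- products of `j` primes and an ideal of norm at most `z` -/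
noncomputable def AA (F : Type) [Field F] [NumberField F] (z Y : ℕ) : ℕ → Finset (Ideal (𝓞 F))
  | 0 => FI F z
  | j + 1 => Finset.image₂ (· * ·) (PP F z Y) (AA F z Y j)

theorem AA_sub (z Y : ℕ) (j : ℕ) : AA F z Y j ⊆ FI F (z * Y ^ j) := by
  induction j with
  | zero =>
    rw [AA, pow_zero, mul_one]
  | succ j ih =>
    rw [AA, Finset.image₂_subset_iff]
    intro P hP I hI
    rw [mem_PP] at hP
    have hI' := ih hI
    rw [mem_FI] at hI' ⊢
    refine ⟨?_, ?_⟩
    · rw [map_mul, pow_succ]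
      calc Ideal.absNorm P * Ideal.absNorm I ≤ Y * (z * Y ^ j) := Nat.mul_le_mul hP.1 hI'.1
        _ = _ := by ring
    · rw [← Ideal.zero_eq_bot]
      exact mul_ne_zero hP.2.1 hI'.2

theorem AA_dvd (z Y : ℕ) (j : ℕ) : ∀ I ∈ AA F z Y j,
    ((PP F z Y).filter (fun P => P ∣ I)).card ≤ j := by
  induction j with
  | zero =>
    intro I hI
    rw [AA, mem_FI] at hI
    rw [Nat.le_zero, Finset.card_eq_zero, Finset.filter_eq_empty_iff]
    intro P hP hdvd
    rw [mem_PP] at hP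
    have h1 : Ideal.absNorm P ∣ Ideal.absNorm I :=
      Ideal.absNorm_dvd_absNorm_of_le (Ideal.le_of_dvd hdvd)
    have h2 := Nat.le_of_dvd (absNorm_pos hI.2) h1
    omega
  | succ j ih =>
    intro I hI
    rw [AA, Finset.mem_image₂] at hI
    obtain ⟨Q, hQ, J, hJ, rfl⟩ := hI
    have hsub : (PP F z Y).filter (fun P => P ∣ Q * J) ⊆
        insert Q ((PP F z Y).filter (fun P => P ∣ J)) := by
      intro P hP
      rw [mem_filter] at hP
      rw [Finset.mem_insert, mem_filter]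
      rcases (PP_prime hP.1).dvd_or_dvd hP.2 with h | h
      · left
        have := ((PP_prime hP.1).irreducible.dvd_irreducible_iff_associated
          (PP_prime hQ).irreducible).mp h
        exact associated_iff_eq.mp this
      · right
        exact ⟨hP.1, h⟩
    refine (Finset.card_le_card hsub).trans ((Finset.card_insert_le _ _).trans ?_)
    have := ih J hJ
    omega

/-- the sum of the inverse norms of the primes -/
noncomputable def TP (F : Type) [Field F] [NumberField F] (z Y : ℕ) : ℝ :=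
  ∑ P ∈ PP F z Y, 1 / (Ideal.absNorm P : ℝ)

theorem TP_nonneg (z Y : ℕ) : 0 ≤ TP F z Y := Finset.sum_nonneg fun _ _ => by positivity

theorem AA_step (z Y j : ℕ) :
    TP F z Y * ∑ I ∈ AA F z Y j, 1 / (Ideal.absNorm I : ℝ) ≤
      (j + 1) * ∑ I ∈ AA F z Y (j + 1), 1 / (Ideal.absNorm I : ℝ) := by
  rw [TP, Finset.sum_mul_sum, ← Finset.sum_product']
  have hmap : ∀ x ∈ (PP F z Y) ×ˢ (AA F z Y j), x.1 * x.2 ∈ AA F z Y (j + 1) := by
    intro x hx
    rw [Finset.mem_product] at hx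
    rw [AA]
    exact Finset.mem_image₂_of_mem hx.1 hx.2
  rw [← Finset.sum_fiberwise_of_maps_to hmap, Finset.mul_sum]
  refine Finset.sum_le_sum fun I hI => ?_
  have hIne : I ≠ ⊥ := (mem_FI.mp (AA_sub z Y (j + 1) hI)).2
  have h1 : ∀ x ∈ ((PP F z Y) ×ˢ (AA F z Y j)).filter (fun x => x.1 * x.2 = I),
      1 / (Ideal.absNorm x.1 : ℝ) * (1 / (Ideal.absNorm x.2 : ℝ)) =
        1 / (Ideal.absNorm I : ℝ) := by
    intro x hx
    rw [mem_filter] at hx
    rw [← hx.2, map_mul]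
    push_cast
    rw [one_div_mul_one_div]
  rw [Finset.sum_congr rfl h1, Finset.sum_const, nsmul_eq_mul]
  refine mul_le_mul_of_nonneg_right ?_ (by positivity)
  have h2 : (((PP F z Y) ×ˢ (AA F z Y j)).filter (fun x => x.1 * x.2 = I)).card ≤
      ((PP F z Y).filter (fun P => P ∣ I)).card := by
    refine Finset.card_le_card_of_injOn (fun x => x.1) ?_ ?_
    · intro x hx
      rw [Finset.mem_coe, mem_filter, Finset.mem_product] at hx
      rw [Finset.mem_coe, mem_filter]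
      exact ⟨hx.1.1, ⟨x.2, hx.2.symm⟩⟩
    · intro x hx y hy hxy
      rw [Finset.mem_coe, mem_filter, Finset.mem_product] at hx hy
      simp only at hxy
      have h3 : x.1 * x.2 = x.1 * y.2 := by rw [hx.2, hxy, hy.2]
      have h4 : x.1 ≠ 0 := (PP_prime hx.1.1).ne_zero
      exact Prod.ext hxy (mul_left_cancel₀ h4 h3)
  have h3 := h2.trans (AA_dvd z Y (j + 1) I hI)
  exact_mod_cast h3

theorem AA_bound (z Y j : ℕ) :
    TP F z Y ^ j * SK F z ≤ (j.factorial : ℝ) * ∑ I ∈ AA F z Y j, 1 / (Ideal.absNorm I : ℝ) := by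
  induction j with
  | zero =>
    rw [pow_zero, one_mul, Nat.factorial_zero, Nat.cast_one, one_mul]
    exact le_rfl
  | succ j ih =>
    have h1 := AA_step (F := F) z Y j
    have h2 := TP_nonneg (F := F) z Y
    calc TP F z Y ^ (j + 1) * SK F z = TP F z Y * (TP F z Y ^ j * SK F z) := by ring
      _ ≤ TP F z Y * ((j.factorial : ℝ) * ∑ I ∈ AA F z Y j, 1 / (Ideal.absNorm I : ℝ)) :=
          mul_le_mul_of_nonneg_left ih h2
      _ = (j.factorial : ℝ) * (TP F z Y * ∑ I ∈ AA F z Y j, 1 / (Ideal.absNorm I : ℝ)) := by ring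
      _ ≤ (j.factorial : ℝ) * ((j + 1) * ∑ I ∈ AA F z Y (j + 1), 1 / (Ideal.absNorm I : ℝ)) :=
          mul_le_mul_of_nonneg_left h1 (Nat.cast_nonneg _)
      _ = _ := by
          rw [Nat.factorial_succ]
          push_cast
          ring

theorem TP_pow_le (z Y j : ℕ) :
    TP F z Y ^ j * SK F z ≤ (j.factorial : ℝ) * SK F (z * Y ^ j) := by
  refine (AA_bound z Y j).trans (mul_le_mul_of_nonneg_left ?_ (Nat.cast_nonneg _))
  unfold SK
  exact Finset.sum_le_sum_of_subset_of_nonneg (AA_sub z Y j) fun _ _ _ => by positivity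

theorem SK_pos {z : ℕ} (hz : 1 ≤ z) : 0 < SK F z := by
  have h1 : (⊤ : Ideal (𝓞 F)) ∈ FI F z := by
    rw [mem_FI]
    refine ⟨by rw [Ideal.absNorm_top]; exact hz, top_ne_bot⟩
  have h2 := Finset.single_le_sum (f := fun I : Ideal (𝓞 F) => 1 / (Ideal.absNorm I : ℝ))
    (fun _ _ => by positivity) h1
  refine lt_of_lt_of_le ?_ h2
  rw [Ideal.absNorm_top]
  norm_num

/-- the number of prime ideals of norm `p` -/
noncomputable def nu (F : Type) [Field F] [NumberField F] (p : ℕ) : ℕ :=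
  ((FI F p).filter (fun P => Ideal.absNorm P = p)).card

theorem TP_eq (z Y : ℕ) :
    TP F z Y = ∑ p ∈ (Finset.Ioc z Y).filter Nat.Prime, (nu F p : ℝ) / p := by
  have hmap : ∀ P ∈ PP F z Y, Ideal.absNorm P ∈ (Finset.Ioc z Y).filter Nat.Prime := by
    intro P hP
    rw [mem_PP] at hP
    rw [mem_filter, Finset.mem_Ioc]
    exact ⟨⟨hP.2.2.1, hP.1⟩, hP.2.2.2⟩
  rw [TP, ← Finset.sum_fiberwise_of_maps_to hmap]
  refine Finset.sum_congr rfl fun p hp => ?_
  rw [mem_filter, Finset.mem_Ioc] at hp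
  have h1 : ∀ P ∈ (PP F z Y).filter (fun P => Ideal.absNorm P = p),
      1 / (Ideal.absNorm P : ℝ) = 1 / p := by
    intro P hP
    rw [mem_filter] at hP
    rw [hP.2]
  rw [Finset.sum_congr rfl h1, Finset.sum_const, nsmul_eq_mul, nu]
  have h2 : (PP F z Y).filter (fun P => Ideal.absNorm P = p) =
      (FI F p).filter (fun P => Ideal.absNorm P = p) := by
    ext P
    rw [mem_filter, mem_PP, mem_filter, mem_FI]
    constructor
    · rintro ⟨⟨_, b, _, _⟩, e⟩
      exact ⟨⟨e.le, b⟩, e⟩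
    · rintro ⟨⟨_, b⟩, e⟩
      refine ⟨⟨?_, b, ?_, ?_⟩, e⟩
      · rw [e]; exact hp.1.2
      · rw [e]; exact hp.1.1
      · rw [e]; exact hp.2
  rw [h2]
  ring

theorem TP_lower {r : ℕ} (z Y : ℕ) (hz : 0 < z) :
    r * (∑ p ∈ (Finset.Ioc z Y).filter Nat.Prime, (1 : ℝ) / p -
      (((Finset.Ioc z Y).filter (fun p => p.Prime ∧ nu F p < r)).card : ℝ) / z) ≤ TP F z Y := by
  have hzr : (0 : ℝ) < z := by exact_mod_cast hz
  rw [TP_eq]
  have h1 : (((Finset.Ioc z Y).filter (fun p => p.Prime ∧ nu F p < r)).card : ℝ) / z ≥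
      ∑ p ∈ ((Finset.Ioc z Y).filter Nat.Prime), (if nu F p < r then (1 : ℝ) / p else 0) := by
    rw [← Finset.sum_filter, Finset.filter_filter, div_eq_mul_one_div, ← nsmul_eq_mul]
    refine Finset.sum_le_card_nsmul _ _ _ fun p hp => ?_
    rw [mem_filter, Finset.mem_Ioc] at hp
    refine one_div_le_one_div_of_le hzr ?_
    exact_mod_cast hp.1.1.le
  have h2 : ∀ p ∈ (Finset.Ioc z Y).filter Nat.Prime,
      (r : ℝ) * ((1 : ℝ) / p - (if nu F p < r then (1 : ℝ) / p else 0)) ≤ (nu F p : ℝ) / p := by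
    intro p _
    split_ifs with h
    · rw [sub_self, mul_zero]
      positivity
    · rw [sub_zero, mul_one_div]
      push Not at h
      have : (r : ℝ) ≤ nu F p := by exact_mod_cast h
      gcongr
  have h3 := Finset.sum_le_sum h2
  rw [← Finset.mul_sum, Finset.sum_sub_distrib] at h3
  refine le_trans ?_ h3
  refine mul_le_mul_of_nonneg_left ?_ (Nat.cast_nonneg _)
  linarith

theorem fac_bound (J : ℕ) : (2 : ℝ) ^ J * J.factorial ≤ (J + 1 : ℝ) ^ J := by
  induction J with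
  | zero => simp
  | succ J ih =>
    have hJ : (0 : ℝ) < (J : ℝ) + 1 := by positivity
    have h1 : (2 : ℝ) * (J + 1) ^ (J + 1) ≤ (J + 1 + 1 : ℝ) ^ (J + 1) := by
      have h2 := one_add_mul_le_pow (a := 1 / ((J : ℝ) + 1)) (by
        have : 0 ≤ 1 / ((J : ℝ) + 1) := by positivity
        linarith) (J + 1)
      have h3 : 1 + ((J + 1 : ℕ) : ℝ) * (1 / ((J : ℝ) + 1)) = 2 := by
        push_cast
        field_simp
        norm_num
      rw [h3] at h2
      have h4 : (J + 1 + 1 : ℝ) = (1 + 1 / ((J : ℝ) + 1)) * (J + 1) := by field_simp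
      rw [h4, mul_pow]
      gcongr
    rw [Nat.factorial_succ]
    push_cast
    calc (2 : ℝ) ^ (J + 1) * ((J + 1) * J.factorial) = 2 * (J + 1) * (2 ^ J * J.factorial) := by ring
      _ ≤ 2 * (J + 1) * (J + 1) ^ J := by gcongr
      _ = 2 * (J + 1) ^ (J + 1) := by ring
      _ ≤ _ := h1

/-- the choice of the parameters -/
theorem choose_J (A : ℝ) : ∃ J v : ℕ, 2 ≤ v ∧ (J : ℝ) + 2 ≤ 2 * Real.log v ∧
    A * (1 + v * J) * J.factorial < (J + 1 : ℝ) ^ J := by
  have h1 : Filter.Tendsto (fun J : ℕ => (J : ℝ) * (5 / 6 : ℝ) ^ J) Filter.atTop (nhds 0) :=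
    tendsto_self_mul_const_pow_of_lt_one (by norm_num) (by norm_num)
  obtain ⟨J, hJ⟩ := ((h1.eventually (gt_mem_nhds (show (0 : ℝ) < 1 / (8 * (|A| + 1)) by positivity))).and
    (Filter.eventually_ge_atTop 1)).exists
  obtain ⟨hJ1, hJ2⟩ := hJ
  have hJr : (1 : ℝ) ≤ J := by exact_mod_cast hJ2
  set E : ℝ := Real.exp (((J : ℝ) + 2) / 2) with hE
  have hE1 : 1 ≤ E := Real.one_le_exp (by positivity)
  have hE2 : 2 ≤ E := by
    have := Real.add_one_le_exp (((J : ℝ) + 2) / 2)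
    rw [← hE] at this
    linarith
  refine ⟨J, ⌈E⌉₊, ?_, ?_, ?_⟩
  · have : (2 : ℝ) ≤ (⌈E⌉₊ : ℝ) := hE2.trans (Nat.le_ceil _)
    exact_mod_cast this
  · have h2 : Real.log E ≤ Real.log (⌈E⌉₊ : ℝ) := Real.log_le_log (by linarith) (Nat.le_ceil _)
    rw [hE, Real.log_exp, ← hE] at h2
    linarith
  · have h2 : (⌈E⌉₊ : ℝ) ≤ 2 * E := by
      have := Nat.ceil_lt_add_one (show (0 : ℝ) ≤ E by linarith)
      linarith
    have h3 : E ≤ 3 * (5 / 3 : ℝ) ^ J := by
      have h4 : E = Real.exp 1 * Real.exp (1 / 2) ^ J := by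
        rw [hE, ← Real.exp_nat_mul, ← Real.exp_add]
        congr 1
        ring
      have h5 : Real.exp (1 / 2) ≤ 5 / 3 := by
        have h6 : Real.exp (1 / 2) * Real.exp (1 / 2) = Real.exp 1 := by
          rw [← Real.exp_add]
          norm_num
        have h7 : Real.exp 1 < 2.7182818286 := Real.exp_one_lt_d9
        by_contra hcon
        push Not at hcon
        nlinarith
      rw [h4]
      have h8 : Real.exp 1 ≤ 3 := Real.exp_one_lt_three.le
      gcongr
    have hfac := fac_bound J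
    have hfpos : (0 : ℝ) < J.factorial := by exact_mod_cast J.factorial_pos
    refine lt_of_lt_of_le ?_ hfac
    refine mul_lt_mul_of_pos_right ?_ hfpos
    have h9 : A * (1 + (⌈E⌉₊ : ℝ) * J) ≤ (|A| + 1) * (1 + (2 * (3 * (5 / 3 : ℝ) ^ J)) * J) := by
      have h10 : 1 + (⌈E⌉₊ : ℝ) * J ≤ 1 + (2 * (3 * (5 / 3 : ℝ) ^ J)) * J := by
        have : (⌈E⌉₊ : ℝ) ≤ 2 * (3 * (5 / 3 : ℝ) ^ J) := by linarith
        nlinarith
      have h11 : A ≤ |A| + 1 := by linarith [le_abs_self A]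
      have h12 : (0 : ℝ) ≤ 1 + (⌈E⌉₊ : ℝ) * J := by positivity
      calc A * (1 + (⌈E⌉₊ : ℝ) * J) ≤ (|A| + 1) * (1 + (⌈E⌉₊ : ℝ) * J) := by gcongr
        _ ≤ _ := by gcongr
    refine lt_of_le_of_lt h9 ?_
    have h13 : (5 / 3 : ℝ) ^ J = (5 / 6 : ℝ) ^ J * 2 ^ J := by
      rw [← mul_pow]
      norm_num
    have h14 : (1 : ℝ) ≤ J * (5 / 3 : ℝ) ^ J := by
      have : (1 : ℝ) ≤ (5 / 3 : ℝ) ^ J := one_le_pow₀ (by norm_num)
      nlinarith
    have h15 : (0 : ℝ) < 2 ^ J := by positivity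
    have h16 : (J : ℝ) * (5 / 6 : ℝ) ^ J * (8 * (|A| + 1)) < 1 := by
      rwa [lt_div_iff₀ (by positivity)] at hJ1
    calc (|A| + 1) * (1 + (2 * (3 * (5 / 3 : ℝ) ^ J)) * J)
        ≤ (|A| + 1) * (7 * (J * (5 / 3 : ℝ) ^ J)) := by
          refine mul_le_mul_of_nonneg_left ?_ (by positivity)
          nlinarith
      _ = (7 / 8) * (((J : ℝ) * (5 / 6 : ℝ) ^ J * (8 * (|A| + 1))) * 2 ^ J) := by
          rw [h13]
          ring
      _ ≤ (7 / 8) * (1 * 2 ^ J) := by gcongr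
      _ < 2 ^ J := by linarith

/-- Many primes do not split completely in a number field of small discriminant. -/
theorem many_nonsplit (r : ℕ) (hr : 2 ≤ r) : ∃ v z0 : ℕ, 2 ≤ v ∧ 2 ≤ z0 ∧
    ∀ (F : Type) [Field F] [NumberField F], Module.finrank ℚ F = r → ∀ z : ℕ, z0 ≤ z →
    (2 * 6 ^ r) ^ 2 * 4 ^ (r + 1) * |(discr F : ℝ)| ≤ z →
    (z : ℝ) / 4 ≤ (((Finset.Ioc z (z ^ v)).filter (fun p => p.Prime ∧ nu F p < r)).card : ℝ) := by
  obtain ⟨C, hC0, hC⟩ := Pool.Agent.Helper923.HMertens.mertens_ratio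
  obtain ⟨J, v, hv2, hv, hJ⟩ := choose_J (1 + 2 * An r)
  refine ⟨v, max 2 ⌈Real.exp (4 * C)⌉₊, hv2, le_max_left _ _, ?_⟩
  intro F _ _ hF z hz0 hz
  by_contra hcon
  push Not at hcon
  have hz2 : 2 ≤ z := (le_max_left _ _).trans hz0
  have hzr : (2 : ℝ) ≤ z := by exact_mod_cast hz2
  have hzpos : (0 : ℝ) < z := by linarith
  have hlz : 0 < Real.log z := Real.log_pos (by linarith)
  have hzC : C / Real.log z ≤ 1 / 4 := by
    rw [div_le_iff₀ hlz]
    have h1 : Real.exp (4 * C) ≤ z := by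
      refine (Nat.le_ceil _).trans ?_
      exact_mod_cast (le_max_right _ _).trans hz0
    have h2 := Real.log_le_log (Real.exp_pos _) h1
    rw [Real.log_exp] at h2
    linarith
  have hzv : z ≤ z ^ v := Nat.le_self_pow (by omega) z
  have hm := hC z (z ^ v) hz2 hzv
  have hratio : Real.log ((z ^ v : ℕ) : ℝ) / Real.log z = v := by
    push_cast
    rw [Real.log_pow]
    field_simp
  rw [hratio] at hm
  have hm1 := (abs_le.mp hm).1
  have hlow := TP_lower (F := F) (r := r) z (z ^ v) (by omega)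
  set L : ℝ := ∑ p ∈ (Finset.Ioc z (z ^ v)).filter Nat.Prime, (1 : ℝ) / p with hL
  set b : ℝ := (((Finset.Ioc z (z ^ v)).filter (fun p => p.Prime ∧ nu F p < r)).card : ℝ) with hb
  have hb1 : b / z ≤ 1 / 4 := by
    rw [div_le_iff₀ hzpos]
    linarith
  have hJ0 : (0 : ℝ) ≤ J := Nat.cast_nonneg _
  have hLb : ((J : ℝ) + 1) / 2 ≤ L - b / z := by linarith
  have hT : (J : ℝ) + 1 ≤ TP F z (z ^ v) := by
    refine le_trans ?_ hlow
    have hr' : (2 : ℝ) ≤ r := by exact_mod_cast hr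
    nlinarith
  have h1 := TP_pow_le (F := F) z (z ^ v) J
  have hA := An_pos (n := r) (by omega)
  have hM : z ≤ z * (z ^ v) ^ J := Nat.le_mul_of_pos_right _ (by positivity)
  have h2 := SK_growth hF hz2 hz hM
  have h3 : Real.log ((z * (z ^ v) ^ J : ℕ) : ℝ) = (1 + v * J) * Real.log z := by
    push_cast
    rw [Real.log_mul hzpos.ne' (by positivity), Real.log_pow, Real.log_pow]
    ring
  rw [h3] at h2
  have hSK := SK_pos (F := F) (z := z) (by omega)
  have h4 : SK F (z * (z ^ v) ^ J) ≤ (1 + 2 * An r) * (1 + v * J) * SK F z := by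
    have h5 : SK F (z * (z ^ v) ^ J) * Real.log z ≤
        ((1 + 2 * An r) * (1 + v * J) * SK F z) * Real.log z := by
      refine h2.trans (le_of_eq ?_)
      ring
    exact le_of_mul_le_mul_right h5 hlz
  have h5 : TP F z (z ^ v) ^ J * SK F z ≤
      ((1 + 2 * An r) * (1 + v * J) * J.factorial) * SK F z := by
    calc TP F z (z ^ v) ^ J * SK F z ≤ (J.factorial : ℝ) * SK F (z * (z ^ v) ^ J) := h1
      _ ≤ (J.factorial : ℝ) * ((1 + 2 * An r) * (1 + v * J) * SK F z) :=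
          mul_le_mul_of_nonneg_left h4 (Nat.cast_nonneg _)
      _ = _ := by ring
  have h6 := le_of_mul_le_mul_right h5 hSK
  have h7 : ((J : ℝ) + 1) ^ J ≤ TP F z (z ^ v) ^ J := pow_le_pow_left₀ (by positivity) hT J
  linarith

end Run7.h673.LT
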